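import Mathlib
import Pool.Agent.helper68.S2.Curve

/-!
# Spectral theory on the sphere, part A: polynomials

`V N` is the space of restrictions to the sphere of the polynomials of degree at most `N`. The key
fact is `Lap_congr`: `Lap f + (m + 1) (m + 2) f ∈ V m` for `f ∈ V (m + 1)`.
-/

set_option autoImplicit false

open MeasureTheory Metric Set Filter
open scoped ContDiff Topology

namespace Pool.Agent.helper68.S2

/-! ### Derivatives of the coordinates -/

theorem X_co_apply (i j : Fin 3) (p : Sph) : X i (co j) p = (cr i (p : E3)) j := by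
  have h1 := hasDerivAt_act_rot i (co j) p 0
  rw [rot_act_zero] at h1
  have h2 : HasDerivAt (fun s => (rot i s (p : E3)) j) ((cr i (rot i 0 (p : E3))) j) 0 := by
    have := (EuclideanSpace.proj (𝕜 := ℝ) (ι := Fin 3) j).hasFDerivAt.comp_hasDerivAt (0 : ℝ)
      (hasDerivAt_rot i (p : E3) 0)
    exact this
  have h3 : (fun s => co j (act (rot i s) p)) = fun s => (rot i s (p : E3)) j := rfl
  rw [h3] at h1
  have h4 := h1.unique h2
  rw [rot_zero] at h4
  exact h4

theorem X0_co0 : X 0 (co 0) = 0 := ssext fun p => by rw [X_co_apply]; simp [cr0, ss_zero]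
theorem X0_co1 : X 0 (co 1) = -co 2 := ssext fun p => by
  rw [X_co_apply]; simp [cr0, ss_neg, co_apply]
theorem X0_co2 : X 0 (co 2) = co 1 := ssext fun p => by
  rw [X_co_apply]; simp [cr0, co_apply]
theorem X1_co0 : X 1 (co 0) = co 2 := ssext fun p => by
  rw [X_co_apply]; simp [cr1, co_apply]
theorem X1_co1 : X 1 (co 1) = 0 := ssext fun p => by rw [X_co_apply]; simp [cr1, ss_zero]
theorem X1_co2 : X 1 (co 2) = -co 0 := ssext fun p => by
  rw [X_co_apply]; simp [cr1, ss_neg, co_apply]
theorem X2_co0 : X 2 (co 0) = -co 1 := ssext fun p => by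
  rw [X_co_apply]; simp [cr2, ss_neg, co_apply]
theorem X2_co1 : X 2 (co 1) = co 0 := ssext fun p => by
  rw [X_co_apply]; simp [cr2, co_apply]
theorem X2_co2 : X 2 (co 2) = 0 := ssext fun p => by rw [X_co_apply]; simp [cr2, ss_zero]

theorem Lap_co (j : Fin 3) : Lap (co j) = -(2 : ℝ) • co j := by
  rw [Lap_eq]
  fin_cases j <;>
  simp only [Fin.zero_eta, Fin.mk_one, Fin.reduceFinMk, Fin.isValue, X0_co0, X0_co1, X0_co2,
    X1_co0, X1_co1, X1_co2, X2_co0, X2_co1, X2_co2, map_neg, map_zero] <;> module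

/-- `⟨∇ x_j, ∇ f⟩` -/
noncomputable def Dj (j : Fin 3) (f : SS) : SS :=
  X 0 (co j) * X 0 f + X 1 (co j) * X 1 f + X 2 (co j) * X 2 f

theorem Dj_add (j : Fin 3) (f g : SS) : Dj j (f + g) = Dj j f + Dj j g := by
  simp only [Dj, map_add]; ring

theorem Dj_smul (j : Fin 3) (c : ℝ) (f : SS) : Dj j (c • f) = c • Dj j f := by
  simp only [Dj, X_smul, mul_smul_comm, smul_add]

theorem Dj_mul (j : Fin 3) (f g : SS) : Dj j (f * g) = Dj j f * g + f * Dj j g := by
  simp only [Dj, X_mul]; ring

theorem Dj_co (j k : Fin 3) : Dj j (co k) = (if j = k then 1 else 0) - co j * co k := by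
  have h := co_sq'
  unfold Dj
  fin_cases j <;> fin_cases k <;>
  simp only [Fin.zero_eta, Fin.mk_one, Fin.reduceFinMk, Fin.isValue, X0_co0, X0_co1, X0_co2,
    X1_co0, X1_co1, X1_co2, X2_co0, X2_co1, X2_co2, if_true, Fin.reduceEq, if_false] <;>
  first | linear_combination h | ring


theorem Lap_mul_S (f g : SS) : Lap (f * g) = Lap f * g + (2 : ℝ) • (X 0 f * X 0 g + X 1 f * X 1 g +
    X 2 f * X 2 g) + f * Lap g := by
  have h2 : ∀ z : SS, (2 : ℝ) • z = z + z := fun z => two_smul ℝ z
  rw [h2]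
  simp only [Lap_eq, X_mul, map_add]
  ring

theorem Lap_co_mul (j : Fin 3) (g : SS) :
    Lap (co j * g) = co j * Lap g + (2 : ℝ) • Dj j g - (2 : ℝ) • (co j * g) := by
  rw [Lap_mul_S, Lap_co, Dj, smul_mul_assoc, neg_smul]
  ring

/-! ### The space of polynomials of degree at most `N` on the sphere -/

/-- polynomials of degree at most `N`, restricted to the sphere -/
def V : ℕ → Submodule ℝ SS
  | 0 => Submodule.span ℝ {1}
  | N + 1 => Submodule.span ℝ {f | f ∈ V N ∨ ∃ i, ∃ g ∈ V N, f = co i * g}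

theorem V_zero : V 0 = Submodule.span ℝ {1} := rfl

theorem V_succ (N : ℕ) : V (N + 1) =
    Submodule.span ℝ {f | f ∈ V N ∨ ∃ i, ∃ g ∈ V N, f = co i * g} := rfl

theorem V_le_succ (N : ℕ) : V N ≤ V (N + 1) := fun _ hf => Submodule.subset_span (Or.inl hf)

theorem co_mul_mem {N : ℕ} {g : SS} (hg : g ∈ V N) (i : Fin 3) : co i * g ∈ V (N + 1) :=
  Submodule.subset_span (Or.inr ⟨i, g, hg, rfl⟩)

theorem V_mono {N K : ℕ} (h : N ≤ K) : V N ≤ V K := by
  induction K, h using Nat.le_induction with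
  | base => exact le_refl _
  | succ K _ ih => exact ih.trans (V_le_succ K)

theorem V_succ_induction {N : ℕ} {P : SS → Prop} (h0 : ∀ f ∈ V N, P f)
    (h1 : ∀ i, ∀ g ∈ V N, P (co i * g)) (ha : ∀ f g, P f → P g → P (f + g))
    (hs : ∀ (c : ℝ) f, P f → P (c • f)) {f : SS} (hf : f ∈ V (N + 1)) : P f := by
  rw [V_succ] at hf
  refine Submodule.span_induction (p := fun x _ => P x) ?_ ?_ ?_ ?_ hf
  · rintro x (hx | ⟨i, g, hg, rfl⟩)
    · exact h0 x hx
    · exact h1 i g hg
  · exact h0 0 (Submodule.zero_mem _)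
  · intro x y _ _ hx hy
    exact ha x y hx hy
  · intro c x _ hx
    exact hs c x hx

theorem mem_V0 {f : SS} : f ∈ V 0 ↔ ∃ c : ℝ, f = c • (1 : SS) := by
  rw [V_zero, Submodule.mem_span_singleton]
  exact ⟨fun ⟨c, h⟩ => ⟨c, h.symm⟩, fun ⟨c, h⟩ => ⟨c, h.symm⟩⟩

theorem one_mem_V (N : ℕ) : (1 : SS) ∈ V N :=
  V_mono (Nat.zero_le N) (mem_V0.mpr ⟨1, (one_smul _ _).symm⟩)

theorem co_mem_V (i : Fin 3) {N : ℕ} (hN : 1 ≤ N) : co i ∈ V N := by
  have := co_mul_mem (one_mem_V 0) i
  rw [mul_one] at this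
  exact V_mono hN this

theorem V_mul {N K : ℕ} {f g : SS} (hf : f ∈ V N) (hg : g ∈ V K) : f * g ∈ V (N + K) := by
  induction N generalizing f with
  | zero =>
    obtain ⟨c, rfl⟩ := mem_V0.mp hf
    rw [smul_mul_assoc, one_mul, Nat.zero_add]
    exact Submodule.smul_mem _ _ hg
  | succ N ih =>
    refine V_succ_induction (P := fun f => f * g ∈ V (N + 1 + K)) ?_ ?_ ?_ ?_ hf
    · intro f hf
      exact V_mono (by omega) (ih hf)
    · intro i h hh
      have := co_mul_mem (ih hh) i
      rw [← mul_assoc] at this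
      exact V_mono (by omega) this
    · intro a b ha hb
      rw [add_mul]
      exact Submodule.add_mem _ ha hb
    · intro c a ha
      rw [smul_mul_assoc]
      exact Submodule.smul_mem _ _ ha

theorem X_co_mem (i j : Fin 3) : X i (co j) ∈ V 1 := by
  have h0 := co_mem_V 0 (le_refl 1)
  have h1 := co_mem_V 1 (le_refl 1)
  have h2 := co_mem_V 2 (le_refl 1)
  fin_cases i <;> fin_cases j <;>
  simp only [Fin.zero_eta, Fin.mk_one, Fin.reduceFinMk, Fin.isValue, X0_co0, X0_co1, X0_co2,
    X1_co0, X1_co1, X1_co2, X2_co0, X2_co1, X2_co2, neg_mem_iff, Submodule.zero_mem] <;> assumption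

theorem X_one_S (i : Fin 3) : X i (1 : SS) = 0 := (X i).map_one_eq_zero

theorem X_mem_V {N : ℕ} {f : SS} (hf : f ∈ V N) (i : Fin 3) : X i f ∈ V N := by
  induction N generalizing f with
  | zero =>
    obtain ⟨c, rfl⟩ := mem_V0.mp hf
    rw [X_smul, X_one_S, smul_zero]
    exact Submodule.zero_mem _
  | succ N ih =>
    refine V_succ_induction (P := fun f => X i f ∈ V (N + 1)) ?_ ?_ ?_ ?_ hf
    · intro f hf
      exact V_le_succ N (ih hf)
    · intro j g hg
      rw [X_mul]
      refine Submodule.add_mem _ ?_ (co_mul_mem (ih hg) j)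
      have := V_mul (X_co_mem i j) hg
      rwa [Nat.add_comm 1 N] at this
    · intro a b ha hb
      rw [map_add]
      exact Submodule.add_mem _ ha hb
    · intro c a ha
      rw [X_smul]
      exact Submodule.smul_mem _ _ ha

theorem Lap_mem_V {N : ℕ} {f : SS} (hf : f ∈ V N) : Lap f ∈ V N := by
  rw [Lap_eq]
  exact Submodule.add_mem _ (Submodule.add_mem _ (X_mem_V (X_mem_V hf 0) 0)
    (X_mem_V (X_mem_V hf 1) 1)) (X_mem_V (X_mem_V hf 2) 2)

/-- Claim A -/
theorem Dj_congr {m : ℕ} {f : SS} (hf : f ∈ V m) (j : Fin 3) :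
    Dj j f + (m : ℝ) • (co j * f) ∈ V m := by
  induction m generalizing f with
  | zero =>
    obtain ⟨c, rfl⟩ := mem_V0.mp hf
    have : Dj j (c • (1 : SS)) = 0 := by
      rw [Dj_smul]
      simp [Dj]
    rw [this, Nat.cast_zero, zero_smul, add_zero]
    exact Submodule.zero_mem _
  | succ m ih =>
    refine V_succ_induction (P := fun f => Dj j f + ((m + 1 : ℕ) : ℝ) • (co j * f) ∈ V (m + 1))
      ?_ ?_ ?_ ?_ hf
    · intro f hf
      have h1 := V_le_succ m (ih hf)
      have h2 := co_mul_mem hf j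
      have h3 := Submodule.add_mem _ h1 h2
      convert h3 using 1
      push_cast
      module
    · intro k g hg
      have h1 := co_mul_mem (ih hg) k
      have h2 : (if j = k then (1 : SS) else 0) * g ∈ V (m + 1) := by
        split_ifs
        · rw [one_mul]
          exact V_le_succ m hg
        · rw [zero_mul]
          exact Submodule.zero_mem _
      have h3 := Submodule.add_mem _ h2 h1
      convert h3 using 1
      rw [Dj_mul, Dj_co]
      rw [mul_add, mul_smul_comm]
      push_cast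
      rw [add_smul, one_smul]
      have e : co j * (co k * g) = co k * (co j * g) := by ring
      rw [e]
      ring
    · intro a b ha hb
      have h3 := Submodule.add_mem _ ha hb
      convert h3 using 1
      rw [Dj_add, mul_add, smul_add]
      ring
    · intro c a ha
      have h3 := Submodule.smul_mem _ c ha
      convert h3 using 1
      rw [Dj_smul, mul_smul_comm]
      module

/-- Claim B -/
theorem Lap_congr_aux (m : ℕ) (h : ∀ f ∈ V m, ∀ j, co j * (Lap f + (m * (m + 1) : ℝ) • f) ∈ V m) :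
    ∀ f ∈ V (m + 1), Lap f + ((m + 1) * (m + 2) : ℝ) • f ∈ V m := by
  intro f hf
  refine V_succ_induction (P := fun f => Lap f + ((m + 1) * (m + 2) : ℝ) • f ∈ V m)
    ?_ ?_ ?_ ?_ hf
  · intro f hf
    exact Submodule.add_mem _ (Lap_mem_V hf) (Submodule.smul_mem _ _ hf)
  · intro j g hg
    have h1 := h g hg j
    have h2 := Submodule.smul_mem _ (2 : ℝ) (Dj_congr hg j)
    have h3 := Submodule.add_mem _ h1 h2
    convert h3 using 1
    rw [Lap_co_mul, mul_add (co j) (Lap g), mul_smul_comm]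
    module
  · intro a b ha hb
    have h3 := Submodule.add_mem _ ha hb
    convert h3 using 1
    rw [map_add]
    module
  · intro c a ha
    have h3 := Submodule.smul_mem _ c ha
    convert h3 using 1
    rw [map_smul]
    module

theorem Lap_congr (m : ℕ) : ∀ f ∈ V (m + 1), Lap f + ((m + 1) * (m + 2) : ℝ) • f ∈ V m := by
  induction m with
  | zero =>
    apply Lap_congr_aux 0
    intro f hf j
    obtain ⟨c, rfl⟩ := mem_V0.mp hf
    have : Lap (c • (1 : SS)) = 0 := by
      rw [map_smul, Lap_eq]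
      simp
    rw [this]
    simp
  | succ m ih =>
    apply Lap_congr_aux (m + 1)
    intro f hf j
    have := co_mul_mem (ih f hf) j
    convert this using 4
    push_cast
    ring

end Pool.Agent.helper68.S2
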