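import Mathlib
import Pool.Agent.helper24.S2SA

/-!
# Spectral theory on the sphere, part B: projections, eigenspaces
-/

set_option autoImplicit false

open MeasureTheory Metric Set Filter
open scoped ContDiff Topology

namespace Pool.Agent.helper68.S2

/-! ### Positive definiteness -/

theorem I_sq_nonneg (f : SS) : 0 ≤ I (f * f) := I_nonneg fun _ => mul_self_nonneg _

theorem eq_zero_of_I_sq {f : SS} (h : I (f * f) = 0) : f = 0 := by
  rw [I_apply] at h
  have h1 := (integral_eq_zero_iff_of_nonneg (μ := σ) (f := fun p => (f * f) p)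
    (fun p => mul_self_nonneg (f p)) (integrable_ss (f * f))).mp h
  have h2 : (fun p => (f * f) p) = fun _ => (0 : ℝ) :=
    (Continuous.ae_eq_iff_eq σ (continuous_ss (f * f)) continuous_const).mp h1
  apply ssext
  intro p
  exact mul_self_eq_zero.mp (congrFun h2 p)

/-- Cauchy–Schwarz -/
theorem I_cs (f g : SS) : I (f * g) ^ 2 ≤ I (f * f) * I (g * g) := by
  have h : ∀ t : ℝ, 0 ≤ I (f * f) * (t * t) + (2 * I (f * g)) * t + I (g * g) := by
    intro t
    have := I_sq_nonneg (t • f + g)
    have e : (t • f + g) * (t • f + g) = (t * t) • (f * f) + (2 * t) • (f * g) + g * g := by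
      rw [add_mul, mul_add, mul_add, smul_mul_assoc, mul_smul_comm, smul_mul_assoc, mul_smul_comm,
        mul_comm g f]
      module
    rw [e, map_add, map_add, map_smul, map_smul, smul_eq_mul, smul_eq_mul] at this
    linarith
  have := discrim_le_zero h
  unfold discrim at this
  nlinarith

/-- the `L²` norm -/
noncomputable def nm (f : SS) : ℝ := √(I (f * f))

theorem nm_nonneg (f : SS) : 0 ≤ nm f := Real.sqrt_nonneg _
theorem nm_sq (f : SS) : nm f ^ 2 = I (f * f) := Real.sq_sqrt (I_sq_nonneg f)

theorem abs_I_mul_le (f g : SS) : |I (f * g)| ≤ nm f * nm g := by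
  apply abs_le_of_sq_le_sq _ (mul_nonneg (nm_nonneg f) (nm_nonneg g))
  rw [mul_pow, nm_sq, nm_sq]
  exact I_cs f g

theorem nm_add_le (f g : SS) : nm (f + g) ≤ nm f + nm g := by
  apply abs_le_of_sq_le_sq' _ (add_nonneg (nm_nonneg f) (nm_nonneg g)) |>.2
  rw [nm_sq, add_mul, mul_add, mul_add, map_add, map_add, map_add, mul_comm g f]
  have := le_of_abs_le (abs_I_mul_le f g)
  have h1 := nm_sq f
  have h2 := nm_sq g
  nlinarith

/-! ### Orthonormal bases -/

/-- the inner product on a subspace -/
@[instance_reducible]
noncomputable def coreU (U : Submodule ℝ SS) : InnerProductSpace.Core ℝ U where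
  inner f g := I ((f : SS) * (g : SS))
  conj_inner_symm f g := by
    simp only [conj_trivial]
    rw [mul_comm]
  re_inner_nonneg f := by
    simp only [RCLike.re_to_real]
    exact I_sq_nonneg _
  add_left f g h := by
    simp only [Submodule.coe_add]
    rw [add_mul, map_add]
  smul_left f g c := by
    simp only [Submodule.coe_smul, conj_trivial]
    rw [smul_mul_assoc, map_smul, smul_eq_mul]
  definite f h := by
    apply Subtype.ext
    exact eq_zero_of_I_sq h

theorem exists_onb (U : Submodule ℝ SS) [FiniteDimensional ℝ U] :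
    ∃ b : Fin (Module.finrank ℝ U) → SS, (∀ j, b j ∈ U) ∧
    (∀ j k, I (b j * b k) = if j = k then 1 else 0) ∧
    (∀ f ∈ U, f = ∑ j, I (f * b j) • b j) := by
  let _ := coreU U
  let _ : NormedAddCommGroup U := InnerProductSpace.Core.toNormedAddCommGroup (𝕜 := ℝ) (F := U)
  let _ : InnerProductSpace ℝ U := InnerProductSpace.ofCore (coreU U).toCore
  let B := stdOrthonormalBasis ℝ U
  refine ⟨fun j => (B j : SS), fun j => (B j).2, ?_, ?_⟩
  · intro j k
    have := (orthonormal_iff_ite.mp B.orthonormal) j k
    exact this
  · intro f hf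
    have h := B.sum_repr' ⟨f, hf⟩
    have h2 := congrArg (fun x : U => (x : SS)) h
    simp only [Submodule.coe_sum, Submodule.coe_smul] at h2
    refine h2.symm.trans (Finset.sum_congr rfl fun j _ => ?_)
    congr 1
    change I ((B j : SS) * f) = I (f * (B j : SS))
    rw [mul_comm]

/-! ### Finite dimension -/

/-- extra monomials of degree `m + 1` -/
noncomputable def Sf (m : ℕ) : Finset SS := by
  classical
  exact (Finset.HasAntidiagonal.antidiagonal (m + 1)).image (fun x => co 0 ^ x.1 * co 1 ^ x.2) ∪
    (Finset.HasAntidiagonal.antidiagonal m).image (fun x => co 0 ^ x.1 * co 1 ^ x.2 * co 2)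

theorem card_Sf (m : ℕ) : (Sf m).card ≤ 2 * (m + 1) + 1 := by
  classical
  refine (Finset.card_union_le _ _).trans ?_
  have h1 := Finset.card_image_le (s := Finset.HasAntidiagonal.antidiagonal (m + 1))
    (f := fun x : ℕ × ℕ => co 0 ^ x.1 * co 1 ^ x.2)
  have h2 := Finset.card_image_le (s := Finset.HasAntidiagonal.antidiagonal m)
    (f := fun x : ℕ × ℕ => co 0 ^ x.1 * co 1 ^ x.2 * co 2)
  rw [Finset.Nat.card_antidiagonal] at h1 h2
  omega

theorem mem_Sf_left {m a b : ℕ} (h : a + b = m + 1) : co 0 ^ a * co 1 ^ b ∈ Sf m := by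
  classical
  unfold Sf
  refine Finset.mem_union_left _ (Finset.mem_image.mpr ⟨(a, b), ?_, rfl⟩)
  rw [Finset.HasAntidiagonal.mem_antidiagonal]
  exact h

theorem mem_Sf_right {m a b : ℕ} (h : a + b = m) : co 0 ^ a * co 1 ^ b * co 2 ∈ Sf m := by
  classical
  unfold Sf
  refine Finset.mem_union_right _ (Finset.mem_image.mpr ⟨(a, b), ?_, rfl⟩)
  rw [Finset.HasAntidiagonal.mem_antidiagonal]
  exact h

theorem Sf_cases {m : ℕ} {f : SS} (h : f ∈ Sf m) :
    (∃ a b, a + b = m + 1 ∧ f = co 0 ^ a * co 1 ^ b) ∨
    (∃ a b, a + b = m ∧ f = co 0 ^ a * co 1 ^ b * co 2) := by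
  classical
  unfold Sf at h
  rcases Finset.mem_union.mp h with h | h
  · obtain ⟨x, hx, rfl⟩ := Finset.mem_image.mp h
    exact Or.inl ⟨x.1, x.2, Finset.HasAntidiagonal.mem_antidiagonal.mp hx, rfl⟩
  · obtain ⟨x, hx, rfl⟩ := Finset.mem_image.mp h
    exact Or.inr ⟨x.1, x.2, Finset.HasAntidiagonal.mem_antidiagonal.mp hx, rfl⟩

theorem co_pow_mem (i : Fin 3) (a : ℕ) : co i ^ a ∈ V a := by
  induction a with
  | zero => rw [pow_zero]; exact one_mem_V 0
  | succ a ih => rw [pow_succ']; exact co_mul_mem ih i

theorem mono_mem {a b N : ℕ} (h : a + b ≤ N) : co 0 ^ a * co 1 ^ b ∈ V N :=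
  V_mono h (V_mul (co_pow_mem 0 a) (co_pow_mem 1 b))

theorem V_succ_le (m : ℕ) : V (m + 1) ≤ V m ⊔ Submodule.span ℝ (Sf m : Set SS) := by
  induction m with
  | zero =>
    intro f hf
    refine V_succ_induction (P := fun f => f ∈ V 0 ⊔ Submodule.span ℝ (Sf 0 : Set SS))
      ?_ ?_ ?_ ?_ hf
    · intro f hf
      exact Submodule.mem_sup_left hf
    · intro i g hg
      obtain ⟨c, rfl⟩ := mem_V0.mp hg
      rw [mul_smul_comm, mul_one]
      refine Submodule.smul_mem _ _ (Submodule.mem_sup_right (Submodule.subset_span ?_))
      have h0 := mem_Sf_left (m := 0) (a := 1) (b := 0) rfl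
      have h1 := mem_Sf_left (m := 0) (a := 0) (b := 1) rfl
      have h2 := mem_Sf_right (m := 0) (a := 0) (b := 0) rfl
      simp only [pow_zero, pow_one, mul_one, one_mul] at h0 h1 h2
      fin_cases i <;> assumption
    · intro a b ha hb
      exact Submodule.add_mem _ ha hb
    · intro c a ha
      exact Submodule.smul_mem _ _ ha
  | succ m ih =>
    intro f hf
    refine V_succ_induction (P := fun f => f ∈ V (m + 1) ⊔ Submodule.span ℝ (Sf (m + 1) : Set SS))
      ?_ ?_ ?_ ?_ hf
    · intro f hf
      exact Submodule.mem_sup_left hf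
    · intro i g hg
      obtain ⟨v, hv, s, hs, rfl⟩ := Submodule.mem_sup.mp (ih hg)
      rw [mul_add]
      refine Submodule.add_mem _ (Submodule.mem_sup_left (co_mul_mem hv i)) ?_
      refine Submodule.span_induction
        (p := fun x _ => co i * x ∈ V (m + 1) ⊔ Submodule.span ℝ (Sf (m + 1) : Set SS))
        ?_ ?_ ?_ ?_ hs
      · intro x hx
        rcases Sf_cases hx with ⟨a, b, hab, rfl⟩ | ⟨a, b, hab, rfl⟩
        · fin_cases i
          · simp only [Fin.zero_eta, Fin.isValue]
            refine Submodule.mem_sup_right (Submodule.subset_span ?_)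
            have := mem_Sf_left (m := m + 1) (a := a + 1) (b := b) (by omega)
            rw [pow_succ'] at this
            rw [← mul_assoc]
            exact this
          · simp only [Fin.mk_one, Fin.isValue]
            refine Submodule.mem_sup_right (Submodule.subset_span ?_)
            have := mem_Sf_left (m := m + 1) (a := a) (b := b + 1) (by omega)
            have e : co 1 * (co 0 ^ a * co 1 ^ b) = co 0 ^ a * co 1 ^ (b + 1) := by ring
            rw [e]
            exact this
          · simp only [Fin.reduceFinMk, Fin.isValue]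
            refine Submodule.mem_sup_right (Submodule.subset_span ?_)
            have := mem_Sf_right (m := m + 1) (a := a) (b := b) (by omega)
            rw [mul_comm]
            exact this
        · fin_cases i
          · simp only [Fin.zero_eta, Fin.isValue]
            refine Submodule.mem_sup_right (Submodule.subset_span ?_)
            have := mem_Sf_right (m := m + 1) (a := a + 1) (b := b) (by omega)
            have e : co 0 * (co 0 ^ a * co 1 ^ b * co 2) = co 0 ^ (a + 1) * co 1 ^ b * co 2 := by
              ring
            rw [e]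
            exact this
          · simp only [Fin.mk_one, Fin.isValue]
            refine Submodule.mem_sup_right (Submodule.subset_span ?_)
            have := mem_Sf_right (m := m + 1) (a := a) (b := b + 1) (by omega)
            have e : co 1 * (co 0 ^ a * co 1 ^ b * co 2) = co 0 ^ a * co 1 ^ (b + 1) * co 2 := by
              ring
            rw [e]
            exact this
          · simp only [Fin.reduceFinMk, Fin.isValue]
            have e : co 2 * (co 0 ^ a * co 1 ^ b * co 2) = co 0 ^ a * co 1 ^ b -
                (co 0 ^ (a + 2) * co 1 ^ b) - (co 0 ^ a * co 1 ^ (b + 2)) := by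
              have h := co_sq'
              linear_combination (co 0 ^ a * co 1 ^ b) * h
            rw [e]
            refine Submodule.sub_mem _ (Submodule.sub_mem _
              (Submodule.mem_sup_left (mono_mem (by omega)))
              (Submodule.mem_sup_right (Submodule.subset_span
                (mem_Sf_left (m := m + 1) (a := a + 2) (b := b) (by omega)))))
              (Submodule.mem_sup_right (Submodule.subset_span
                (mem_Sf_left (m := m + 1) (a := a) (b := b + 2) (by omega))))
      · rw [mul_zero]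
        exact Submodule.zero_mem _
      · intro x y _ _ hx hy
        rw [mul_add]
        exact Submodule.add_mem _ hx hy
      · intro c x _ hx
        rw [mul_smul_comm]
        exact Submodule.smul_mem _ _ hx
    · intro a b ha hb
      exact Submodule.add_mem _ ha hb
    · intro c a ha
      exact Submodule.smul_mem _ _ ha

instance instFinV (N : ℕ) : FiniteDimensional ℝ (V N) := by
  induction N with
  | zero =>
    rw [V_zero]
    exact FiniteDimensional.span_of_finite ℝ (Set.finite_singleton 1)
  | succ m ih =>
    have h2 : FiniteDimensional ℝ (Submodule.span ℝ (Sf m : Set SS)) :=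
      FiniteDimensional.span_of_finite ℝ (Sf m).finite_toSet
    exact Submodule.finiteDimensional_of_le (V_succ_le m)

end Pool.Agent.helper68.S2
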