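import Mathlib
import Pool.Agent.helper24.S2SB

/-!
# Spectral theory on the sphere, part C: orthogonal projections
-/

set_option autoImplicit false

open MeasureTheory Metric Set Filter
open scoped ContDiff Topology

namespace Pool.Agent.helper68.S2

/-! ### Orthogonal projection on a finite-dimensional subspace -/

section PU

variable (U : Submodule ℝ SS) [FiniteDimensional ℝ U]

/-- an orthonormal basis of `U` -/
noncomputable def onb : Fin (Module.finrank ℝ U) → SS := Classical.choose (exists_onb U)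

theorem onb_mem (j : Fin (Module.finrank ℝ U)) : onb U j ∈ U :=
  (Classical.choose_spec (exists_onb U)).1 j

theorem onb_orth (j k : Fin (Module.finrank ℝ U)) :
    I (onb U j * onb U k) = if j = k then 1 else 0 :=
  (Classical.choose_spec (exists_onb U)).2.1 j k

theorem onb_sum {f : SS} (hf : f ∈ U) : f = ∑ j, I (f * onb U j) • onb U j :=
  (Classical.choose_spec (exists_onb U)).2.2 f hf

/-- orthogonal projection -/
noncomputable def PU : SS →ₗ[ℝ] SS :=
  ∑ j, (I ∘ₗ LinearMap.mulRight ℝ (onb U j)).smulRight (onb U j)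

theorem PU_apply (f : SS) : PU U f = ∑ j, I (f * onb U j) • onb U j := by
  unfold PU
  simp only [LinearMap.coe_sum, Finset.sum_apply, LinearMap.smulRight_apply,
    LinearMap.comp_apply, LinearMap.mulRight_apply]

theorem PU_mem (f : SS) : PU U f ∈ U := by
  rw [PU_apply]
  exact Submodule.sum_mem _ fun j _ => Submodule.smul_mem _ _ (onb_mem U j)

theorem PU_eq_self {f : SS} (hf : f ∈ U) : PU U f = f := by
  rw [PU_apply]
  exact (onb_sum U hf).symm

theorem PU_symm (f g : SS) : I (PU U f * g) = I (f * PU U g) := by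
  rw [PU_apply, PU_apply, Finset.sum_mul, Finset.mul_sum, map_sum, map_sum]
  refine Finset.sum_congr rfl fun j _ => ?_
  rw [smul_mul_assoc, mul_smul_comm, map_smul, map_smul, smul_eq_mul, smul_eq_mul,
    mul_comm (onb U j) g, mul_comm]

theorem PU_perp (f : SS) {g : SS} (hg : g ∈ U) : I ((f - PU U f) * g) = 0 := by
  rw [sub_mul, map_sub, PU_symm, PU_eq_self U hg, sub_self]

theorem PU_unique {f h : SS} (hh : h ∈ U) (hp : ∀ g ∈ U, I ((f - h) * g) = 0) : PU U f = h := by
  have h1 : PU U f - h ∈ U := Submodule.sub_mem _ (PU_mem U f) hh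
  have h2 : I ((PU U f - h) * (PU U f - h)) = 0 := by
    have e : (PU U f - h) * (PU U f - h) = (f - h) * (PU U f - h) -
      (f - PU U f) * (PU U f - h) := by ring
    rw [e, map_sub, hp _ h1, PU_perp U f h1, sub_zero]
  exact sub_eq_zero.mp (eq_zero_of_I_sq h2)

theorem PU_X (hU : ∀ f ∈ U, ∀ i, X i f ∈ U) (i : Fin 3) (f : SS) :
    PU U (X i f) = X i (PU U f) := by
  apply PU_unique U (hU _ (PU_mem U f) i)
  intro g hg
  rw [← map_sub, ibp, PU_perp U f (hU g hg i), neg_zero]

theorem PU_pyth (f : SS) : I (f * f) = I (PU U f * PU U f) + I ((f - PU U f) * (f - PU U f)) := by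
  have h := PU_perp U f (PU_mem U f)
  have e : f * f = PU U f * PU U f + (f - PU U f) * (f - PU U f) +
      ((f - PU U f) * PU U f + (f - PU U f) * PU U f) := by ring
  rw [e, map_add, map_add, map_add, h]
  ring

theorem PU_bessel (f : SS) : I (PU U f * PU U f) ≤ I (f * f) := by
  rw [PU_pyth U f]
  have := I_sq_nonneg (f - PU U f)
  linarith

theorem PU_best (f : SS) {g : SS} (hg : g ∈ U) :
    I ((f - PU U f) * (f - PU U f)) ≤ I ((f - g) * (f - g)) := by
  have h := PU_perp U f (Submodule.sub_mem _ (PU_mem U f) hg)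
  have e : (f - g) * (f - g) = (f - PU U f) * (f - PU U f) + (PU U f - g) * (PU U f - g) +
      ((f - PU U f) * (PU U f - g) + (f - PU U f) * (PU U f - g)) := by ring
  rw [e, map_add, map_add, map_add, h]
  have := I_sq_nonneg (PU U f - g)
  linarith

end PU

/-! ### The projections `Pi N` -/

/-- an orthonormal basis of `V N` -/
theorem exists_basis (N : ℕ) : ∃ (d : ℕ) (b : Fin d → SS), (∀ j, b j ∈ V N) ∧
    (∀ j k, I (b j * b k) = if j = k then 1 else 0) ∧
    (∀ f ∈ V N, f = ∑ j, I (f * b j) • b j) :=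
  ⟨_, exists_onb (V N)⟩

/-- orthogonal projection on `V N` -/
noncomputable def Pi (N : ℕ) : SS →ₗ[ℝ] SS := PU (V N)

theorem Pi_mem (N : ℕ) (f : SS) : Pi N f ∈ V N := PU_mem _ f
theorem Pi_eq_self {N : ℕ} {f : SS} (hf : f ∈ V N) : Pi N f = f := PU_eq_self _ hf
theorem Pi_symm (N : ℕ) (f g : SS) : I (Pi N f * g) = I (f * Pi N g) := PU_symm _ f g
theorem Pi_X (N : ℕ) (i : Fin 3) (f : SS) : Pi N (X i f) = X i (Pi N f) :=
  PU_X _ (fun _ hf i => X_mem_V hf i) i f
theorem Pi_Lap (N : ℕ) (f : SS) : Pi N (Lap f) = Lap (Pi N f) := by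
  simp only [Lap_eq, map_add, Pi_X]

/-- formula with any orthonormal basis -/
theorem Pi_eq_sum {N d : ℕ} {b : Fin d → SS} (hb : ∀ j, b j ∈ V N)
    (_ho : ∀ j k, I (b j * b k) = if j = k then 1 else 0)
    (hs : ∀ f ∈ V N, f = ∑ j, I (f * b j) • b j) (f : SS) :
    Pi N f = ∑ j, I (f * b j) • b j := by
  rw [hs (Pi N f) (Pi_mem N f)]
  refine Finset.sum_congr rfl fun j _ => ?_
  rw [Pi_symm, Pi_eq_self (hb j)]

theorem Pi_Pi {N K : ℕ} (h : N ≤ K) (f : SS) : Pi N (Pi K f) = Pi N f := by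
  symm
  apply PU_unique (V N) (Pi_mem N _)
  intro g hg
  have h1 := PU_perp (V K) f (V_mono h hg)
  have h2 := PU_perp (V N) (Pi K f) hg
  have e : (f - Pi N (Pi K f)) * g = (f - PU (V K) f) * g +
    (Pi K f - PU (V N) (Pi K f)) * g := by
    change (f - Pi N (Pi K f)) * g = (f - Pi K f) * g + (Pi K f - Pi N (Pi K f)) * g
    ring
  rw [e, map_add, h1, h2, add_zero]

theorem Pi_Pi' {N K : ℕ} (h : N ≤ K) (f : SS) : Pi K (Pi N f) = Pi N f :=
  Pi_eq_self (V_mono h (Pi_mem N f))

/-! ### Components -/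

/-- the component of degree `m` -/
noncomputable def E : ℕ → SS →ₗ[ℝ] SS
  | 0 => Pi 0
  | m + 1 => Pi (m + 1) - Pi m

theorem E_zero : E 0 = Pi 0 := rfl
theorem E_succ (m : ℕ) (f : SS) : E (m + 1) f = Pi (m + 1) f - Pi m f := rfl

theorem E_X (m : ℕ) (i : Fin 3) (f : SS) : E m (X i f) = X i (E m f) := by
  cases m with
  | zero => exact Pi_X 0 i f
  | succ m => rw [E_succ, E_succ, Pi_X, Pi_X, map_sub]

theorem E_mem (m : ℕ) (f : SS) : E m f ∈ V m := by
  cases m with
  | zero => exact Pi_mem 0 f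
  | succ m => exact Submodule.sub_mem _ (Pi_mem _ f) (V_le_succ m (Pi_mem m f))

theorem E_perp {m n : ℕ} (h : n < m) (f : SS) {g : SS} (hg : g ∈ V n) : I (E m f * g) = 0 := by
  cases m with
  | zero => omega
  | succ m =>
    have hg' : g ∈ V m := V_mono (by omega) hg
    rw [E_succ, sub_mul, map_sub, Pi_symm, Pi_symm, Pi_eq_self hg', Pi_eq_self (V_le_succ m hg'),
      sub_self]

theorem E_orth {m n : ℕ} (h : m ≠ n) (f g : SS) : I (E m f * E n g) = 0 := by
  rcases lt_or_gt_of_ne h with h | h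
  · rw [mul_comm]
    exact E_perp h g (E_mem m f)
  · exact E_perp h f (E_mem n g)

theorem Lap_E (m : ℕ) (f : SS) : Lap (E m f) = -((m : ℝ) * (m + 1)) • E m f := by
  cases m with
  | zero =>
    obtain ⟨c, hc⟩ := mem_V0.mp (E_mem 0 f)
    rw [hc, map_smul, Lap_eq]
    simp
  | succ m =>
    have h1 := Lap_congr m _ (E_mem (m + 1) f)
    set q := Lap (E (m + 1) f) + ((m + 1) * (m + 2) : ℝ) • E (m + 1) f with hq
    have h2 : I (q * q) = 0 := by
      rw [hq, add_mul, map_add, Lap_symm, smul_mul_assoc, map_smul,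
        E_perp (Nat.lt_succ_self m) f (Lap_mem_V h1), E_perp (Nat.lt_succ_self m) f h1]
      simp
    have h3 := eq_zero_of_I_sq h2
    rw [hq] at h3
    rw [eq_neg_of_add_eq_zero_left h3]
    push_cast
    rw [neg_smul]
    congr 2
    ring

theorem sum_E (N : ℕ) (f : SS) : ∑ m ∈ Finset.range (N + 1), E m f = Pi N f := by
  induction N with
  | zero => simp [E_zero]
  | succ N ih => rw [Finset.sum_range_succ, ih, E_succ]; ring

theorem I_sum_E (s : Finset ℕ) (c d : ℕ → ℝ) (f g : SS) :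
    I ((∑ m ∈ s, c m • E m f) * (∑ m ∈ s, d m • E m g)) =
    ∑ m ∈ s, c m * d m * I (E m f * E m g) := by
  rw [Finset.sum_mul_sum, map_sum]
  refine Finset.sum_congr rfl fun m hm => ?_
  rw [map_sum, Finset.sum_eq_single m]
  · rw [smul_mul_smul_comm, map_smul, smul_eq_mul]
  · intro n _ hn
    rw [smul_mul_smul_comm, map_smul, E_orth (Ne.symm hn), smul_zero]
  · intro h
    exact absurd hm h

theorem I_Pi_Pi (N : ℕ) (f : SS) :
    I (Pi N f * Pi N f) = ∑ m ∈ Finset.range (N + 1), I (E m f * E m f) := by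
  have := I_sum_E (Finset.range (N + 1)) (fun _ => 1) (fun _ => 1) f f
  simp only [one_smul, sum_E, mul_one, one_mul] at this
  exact this

theorem Lap_Pi_eq (N : ℕ) (f : SS) :
    Lap (Pi N f) = ∑ m ∈ Finset.range (N + 1), (-((m : ℝ) * (m + 1))) • E m f := by
  rw [← sum_E, map_sum]
  exact Finset.sum_congr rfl fun m _ => Lap_E m f

theorem I_Lap_Pi (N : ℕ) (f : SS) :
    I (Lap (Pi N f) * Lap (Pi N f)) =
      ∑ m ∈ Finset.range (N + 1), ((m : ℝ) * (m + 1)) ^ 2 * I (E m f * E m f) := by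
  rw [Lap_Pi_eq, I_sum_E]
  refine Finset.sum_congr rfl fun m _ => ?_
  ring

theorem I_X_Pi (N : ℕ) (f : SS) :
    ∑ i, I (X i (Pi N f) * X i (Pi N f)) =
      ∑ m ∈ Finset.range (N + 1), ((m : ℝ) * (m + 1)) * I (E m f * E m f) := by
  have h : ∑ i, I (X i (Pi N f) * X i (Pi N f)) = - I (Pi N f * Lap (Pi N f)) := by
    rw [Lap_eq, mul_add, mul_add, map_add, map_add, Fin.sum_univ_three, ibp, ibp, ibp]
    ring
  rw [h, Lap_Pi_eq]
  have := I_sum_E (Finset.range (N + 1)) (fun _ => 1) (fun m => -((m : ℝ) * (m + 1))) f f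
  simp only [one_smul, sum_E, one_mul] at this
  rw [this, ← Finset.sum_neg_distrib]
  refine Finset.sum_congr rfl fun m _ => ?_
  ring

end Pool.Agent.helper68.S2
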