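import Mathlib
import Pool.Agent.helper24.S2SC

/-!
# Spectral theory on the sphere, part D: density, Parseval, spectral gaps
-/

set_option autoImplicit false

open MeasureTheory Metric Set Filter
open scoped ContDiff Topology

namespace Pool.Agent.helper68.S2

/-- restrictions of polynomials, as a subalgebra of the continuous functions -/
noncomputable def polyAlg : Subalgebra ℝ C(Sph, ℝ) where
  carrier := {g | ∃ N, ∃ h ∈ V N, ∀ p, h p = g p}
  mul_mem' := by
    rintro a b ⟨N, f, hf, hfa⟩ ⟨K, g, hg, hgb⟩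
    exact ⟨N + K, f * g, V_mul hf hg, fun p => by rw [ss_mul, hfa, hgb]; rfl⟩
  add_mem' := by
    rintro a b ⟨N, f, hf, hfa⟩ ⟨K, g, hg, hgb⟩
    exact ⟨N + K, f + g, Submodule.add_mem _ (V_mono (by omega) hf) (V_mono (by omega) hg),
      fun p => by rw [ss_add, hfa, hgb]; rfl⟩
  algebraMap_mem' := by
    intro r
    exact ⟨0, algebraMap ℝ SS r, by
      rw [Algebra.algebraMap_eq_smul_one]
      exact Submodule.smul_mem _ _ (one_mem_V 0), fun p => rfl⟩

theorem polyAlg_sep : polyAlg.SeparatesPoints := by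
  intro p q hpq
  have h : ∃ i : Fin 3, (p : E3) i ≠ (q : E3) i := by
    by_contra hcon
    push Not at hcon
    exact hpq (Subtype.ext (PiLp.ext hcon))
  obtain ⟨i, hi⟩ := h
  refine ⟨fun x => co i x, ⟨⟨fun x => co i x, continuous_ss (co i)⟩,
    ⟨1, co i, co_mem_V i (le_refl 1), fun p => rfl⟩, rfl⟩, hi⟩

theorem dense_V (f : SS) {ε : ℝ} (hε : 0 < ε) : ∃ N, ∃ g ∈ V N, ∀ p, |f p - g p| < ε := by
  obtain ⟨g, hg⟩ := ContinuousMap.exists_mem_subalgebra_near_continuous_of_separatesPoints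
    polyAlg polyAlg_sep (fun p => f p) (continuous_ss f) ε hε
  obtain ⟨N, h, hh, hhg⟩ := g.2
  refine ⟨N, h, hh, fun p => ?_⟩
  have := hg p
  rw [Real.norm_eq_abs, abs_sub_comm] at this
  rw [hhg]
  exact this

theorem Pi_err_anti {N K : ℕ} (h : N ≤ K) (f : SS) :
    I ((f - Pi K f) * (f - Pi K f)) ≤ I ((f - Pi N f) * (f - Pi N f)) :=
  PU_best (V K) f (V_mono h (Pi_mem N f))

theorem tendsto_Pi (f : SS) :
    Tendsto (fun N => I ((f - Pi N f) * (f - Pi N f))) atTop (𝓝 0) := by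
  rw [Metric.tendsto_atTop]
  intro ε hε
  have hpi := Real.pi_pos
  obtain ⟨N, g, hg, hfg⟩ := dense_V f (ε := √(ε / (8 * Real.pi))) (by positivity)
  refine ⟨N, fun K hK => ?_⟩
  have h1 := PU_best (V K) f (V_mono hK hg)
  have h2 : I ((f - g) * (f - g)) ≤ ε / (8 * Real.pi) * (4 * Real.pi) := by
    refine (le_abs_self _).trans (abs_I_le fun p => ?_)
    rw [ss_mul, ss_sub, abs_mul, ← sq]
    calc |f p - g p| ^ 2 ≤ √(ε / (8 * Real.pi)) ^ 2 := by
          have := hfg p
          gcongr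
      _ = _ := Real.sq_sqrt (by positivity)
  have h3 : ε / (8 * Real.pi) * (4 * Real.pi) = ε / 2 := by
    field_simp
    ring
  have h4 := I_sq_nonneg (f - Pi K f)
  rw [Real.dist_eq, sub_zero, abs_of_nonneg h4]
  change I ((f - Pi K f) * (f - Pi K f)) ≤ _ at h1
  linarith

theorem tendsto_nm (f : SS) : Tendsto (fun N => I (Pi N f * Pi N f)) atTop (𝓝 (I (f * f))) := by
  have h := (tendsto_const_nhds (x := I (f * f))).sub (tendsto_Pi f)
  rw [sub_zero] at h
  refine h.congr fun N => ?_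
  have : I (f * f) = I (Pi N f * Pi N f) + I ((f - Pi N f) * (f - Pi N f)) := PU_pyth (V N) f
  rw [this]
  ring

theorem E_sq_nonneg (m : ℕ) (f : SS) : 0 ≤ I (E m f * E m f) := I_sq_nonneg _

/-- the tail of a smooth function -/
theorem Pi_tail (N : ℕ) (f : SS) :
    (N + 1 : ℝ) ^ 2 * I ((f - Pi N f) * (f - Pi N f)) ≤ I (Lap f * Lap f) := by
  have key : ∀ K, N ≤ K → (N + 1 : ℝ) ^ 2 * (I (Pi K f * Pi K f) - I (Pi N f * Pi N f)) ≤
      I (Lap f * Lap f) := by
    intro K hK
    have h1 : I (Lap (Pi K f) * Lap (Pi K f)) ≤ I (Lap f * Lap f) := by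
      rw [← Pi_Lap]
      exact PU_bessel (V K) (Lap f)
    refine le_trans ?_ h1
    rw [I_Lap_Pi, I_Pi_Pi, I_Pi_Pi]
    have h2 : Finset.range (K + 1) = Finset.range (N + 1) ∪ Finset.Ico (N + 1) (K + 1) := by
      ext x
      simp only [Finset.mem_range, Finset.mem_union, Finset.mem_Ico]
      omega
    have h3 : Disjoint (Finset.range (N + 1)) (Finset.Ico (N + 1) (K + 1)) := by
      rw [Finset.disjoint_left]
      intro x hx hx'
      simp only [Finset.mem_range, Finset.mem_Ico] at hx hx'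
      omega
    rw [h2, Finset.sum_union h3, Finset.sum_union h3, add_sub_cancel_left, Finset.mul_sum]
    have h4 : 0 ≤ ∑ m ∈ Finset.range (N + 1), ((m : ℝ) * (m + 1)) ^ 2 * I (E m f * E m f) :=
      Finset.sum_nonneg fun m _ => mul_nonneg (sq_nonneg _) (E_sq_nonneg m f)
    refine (Finset.sum_le_sum fun m hm => ?_).trans (le_add_of_nonneg_left h4)
    have hm' : (N : ℝ) + 1 ≤ m := by
      have := (Finset.mem_Ico.mp hm).1
      exact_mod_cast this
    have hN : (0 : ℝ) ≤ N := Nat.cast_nonneg N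
    refine mul_le_mul_of_nonneg_right ?_ (E_sq_nonneg m f)
    apply pow_le_pow_left₀ (by positivity)
    nlinarith
  have h5 : I (f * f) - I (Pi N f * Pi N f) = I ((f - Pi N f) * (f - Pi N f)) := by
    have : I (f * f) = I (Pi N f * Pi N f) + I ((f - Pi N f) * (f - Pi N f)) := PU_pyth (V N) f
    rw [this]
    ring
  rw [← h5]
  refine le_of_tendsto (((tendsto_nm f).sub_const _).const_mul _) ?_
  filter_upwards [eventually_ge_atTop N] with K hK
  exact key K hK

theorem E_zero_apply (f : SS) : E 0 f = (I f / (4 * Real.pi)) • (1 : SS) := by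
  rw [E_zero]
  apply PU_unique (V 0) (mem_V0.mpr ⟨_, rfl⟩)
  intro g hg
  obtain ⟨c, rfl⟩ := mem_V0.mp hg
  have hpi := Real.pi_pos
  rw [mul_smul_comm, mul_one, map_smul, map_sub, map_smul, I_one, smul_eq_mul, smul_eq_mul]
  field_simp
  ring

theorem gap2 {f : SS} (h : I f = 0) : 2 * I (f * f) ≤ ∑ i, I (X i f * X i f) := by
  have key : ∀ N, 2 * I (Pi N f * Pi N f) ≤ ∑ i, I (X i f * X i f) := by
    intro N
    have h1 : ∑ i, I (X i (Pi N f) * X i (Pi N f)) ≤ ∑ i, I (X i f * X i f) := by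
      refine Finset.sum_le_sum fun i _ => ?_
      rw [← Pi_X]
      exact PU_bessel (V N) (X i f)
    refine le_trans ?_ h1
    rw [I_X_Pi, I_Pi_Pi, Finset.mul_sum]
    refine Finset.sum_le_sum fun m _ => ?_
    rcases Nat.eq_zero_or_pos m with rfl | hm
    · rw [E_zero_apply, h]
      simp
    · refine mul_le_mul_of_nonneg_right ?_ (E_sq_nonneg m f)
      have : (1 : ℝ) ≤ m := by exact_mod_cast hm
      nlinarith
  exact le_of_tendsto' ((tendsto_nm f).const_mul 2) key

theorem E_one_eq_zero {f : SS} (h : I f = 0) (h' : ∀ i, I (f * co i) = 0) : E 1 f = 0 := by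
  have hp : ∀ g ∈ V 1, I (f * g) = 0 := by
    intro g hg
    refine V_succ_induction (P := fun g => I (f * g) = 0) ?_ ?_ ?_ ?_ hg
    · intro g hg
      obtain ⟨c, rfl⟩ := mem_V0.mp hg
      rw [mul_smul_comm, mul_one, map_smul, h, smul_zero]
    · intro i g hg
      obtain ⟨c, rfl⟩ := mem_V0.mp hg
      rw [mul_smul_comm, mul_one, mul_smul_comm, map_smul, h' i, smul_zero]
    · intro a b ha hb
      rw [mul_add, map_add, ha, hb, add_zero]
    · intro c a ha
      rw [mul_smul_comm, map_smul, ha, smul_zero]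
  apply eq_zero_of_I_sq
  have h1 : I (E 1 f * E 1 f) = I (f * E 1 f) := by
    have h2 := Pi_symm 1 f (E 1 f)
    have h3 := Pi_symm 0 f (E 1 f)
    have h4 : Pi 0 (E 1 f) = 0 := by
      change Pi 0 (Pi 1 f - Pi 0 f) = 0
      rw [map_sub, Pi_Pi (Nat.zero_le 1), Pi_eq_self (Pi_mem 0 f), sub_self]
    have h5 : Pi 1 (E 1 f) = E 1 f := Pi_eq_self (E_mem 1 f)
    rw [h5] at h2
    rw [h4, mul_zero, map_zero] at h3
    have h6 : E 1 f * E 1 f = Pi 1 f * E 1 f - Pi 0 f * E 1 f := by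
      rw [← sub_mul]
      rfl
    rw [h6, map_sub, h2, h3, sub_zero]
  rw [h1]
  exact hp _ (E_mem 1 f)

theorem gap6 {f : SS} (h : I f = 0) (h' : ∀ i, I (f * co i) = 0) :
    6 * ∑ i, I (X i f * X i f) ≤ I (Lap f * Lap f) := by
  have key : ∀ N, 6 * ∑ i, I (Pi N (X i f) * Pi N (X i f)) ≤ I (Lap f * Lap f) := by
    intro N
    have h1 : I (Lap (Pi N f) * Lap (Pi N f)) ≤ I (Lap f * Lap f) := by
      rw [← Pi_Lap]
      exact PU_bessel (V N) (Lap f)
    refine le_trans ?_ h1
    simp only [Pi_X]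
    rw [I_X_Pi, I_Lap_Pi, Finset.mul_sum]
    refine Finset.sum_le_sum fun m _ => ?_
    rcases Nat.lt_or_ge m 2 with hm | hm
    · interval_cases m
      · simp
      · rw [E_one_eq_zero h h']
        simp
    · rw [← mul_assoc]
      refine mul_le_mul_of_nonneg_right ?_ (E_sq_nonneg m f)
      have h2 : (2 : ℝ) ≤ m := by exact_mod_cast hm
      have h3 : 6 ≤ (m : ℝ) * (m + 1) := by nlinarith
      nlinarith
  exact le_of_tendsto' ((tendsto_finsetSum _ fun i _ => tendsto_nm (X i f)).const_mul 6) key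

end Pool.Agent.helper68.S2
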