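import Mathlib
import Pool.Agent.helper24.S2SD

/-!
# Spectral theory on the sphere: reproducing kernels and the Sobolev embedding

The whole of module S is available by importing this file.
-/

set_option autoImplicit false

open MeasureTheory Metric Set Filter
open scoped ContDiff Topology

namespace Pool.Agent.helper68.S2

/-! ### Reproducing kernel -/

theorem eq_const_of_X {f : SS} (h : ∀ i, X i f = 0) : f = (I f / (4 * Real.pi)) • (1 : SS) := by
  have hpi := Real.pi_pos
  set g := f - (I f / (4 * Real.pi)) • (1 : SS) with hg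
  have h1 : I g = 0 := by
    rw [hg, map_sub, map_smul, I_one, smul_eq_mul]
    field_simp
    ring
  have h2 : ∀ i, X i g = 0 := by
    intro i
    rw [hg, map_sub, h i, X_smul, X_one_S, smul_zero, sub_zero]
  have h3 := gap2 h1
  simp only [h2, mul_zero, map_zero, Finset.sum_const_zero] at h3
  have h4 : I (g * g) = 0 := le_antisymm (by linarith) (I_sq_nonneg g)
  exact sub_eq_zero.mp (eq_zero_of_I_sq h4)

theorem kernel_const (U : Submodule ℝ SS) [FiniteDimensional ℝ U]
    (hU : ∀ f ∈ U, ∀ i, X i f ∈ U) :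
    ∑ j, onb U j * onb U j = ((Module.finrank ℝ U : ℝ) / (4 * Real.pi)) • (1 : SS) := by
  have h1 : ∀ i, X i (∑ j, onb U j * onb U j) = 0 := by
    intro i
    have e1 : ∀ j, X i (onb U j) = ∑ k, I (X i (onb U j) * onb U k) • onb U k := fun j =>
      onb_sum U (hU _ (onb_mem U j) i)
    have e2 : X i (∑ j, onb U j * onb U j) = ∑ j, X i (onb U j) * onb U j +
        ∑ j, X i (onb U j) * onb U j := by
      rw [map_sum, ← Finset.sum_add_distrib]
      refine Finset.sum_congr rfl fun j _ => ?_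
      rw [X_mul]
      ring
    have e3 : ∑ j, X i (onb U j) * onb U j =
        ∑ j, ∑ k, I (X i (onb U j) * onb U k) • (onb U k * onb U j) := by
      refine Finset.sum_congr rfl fun j _ => ?_
      conv_lhs => rw [e1 j]
      rw [Finset.sum_mul]
      refine Finset.sum_congr rfl fun k _ => ?_
      rw [smul_mul_assoc]
    have e4 : ∑ j, X i (onb U j) * onb U j = - ∑ j, X i (onb U j) * onb U j := by
      conv_lhs => rw [e3, Finset.sum_comm]
      rw [e3, ← Finset.sum_neg_distrib]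
      refine Finset.sum_congr rfl fun j _ => ?_
      rw [← Finset.sum_neg_distrib]
      refine Finset.sum_congr rfl fun k _ => ?_
      rw [ibp, mul_comm (onb U k) (X i (onb U j)), mul_comm (onb U k) (onb U j), neg_smul]
    rw [e2]
    nth_rewrite 1 [e4]
    ring
  have h2 := eq_const_of_X h1
  rw [h2]
  congr 2
  rw [map_sum]
  simp [onb_orth]

theorem sup_U (U : Submodule ℝ SS) [FiniteDimensional ℝ U]
    (hU : ∀ f ∈ U, ∀ i, X i f ∈ U) {f : SS} (hf : f ∈ U) (p : Sph) :
    (f p) ^ 2 ≤ (Module.finrank ℝ U : ℝ) / (4 * Real.pi) * I (f * f) := by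
  have h1 : f p = ∑ j, I (f * onb U j) * onb U j p := by
    conv_lhs => rw [onb_sum U hf]
    rw [ss_sum]
    rfl
  have h2 : I (f * f) = ∑ j, I (f * onb U j) ^ 2 := by
    conv_lhs => rw [onb_sum U hf]
    rw [Finset.sum_mul_sum, map_sum]
    refine Finset.sum_congr rfl fun j _ => ?_
    rw [map_sum, Finset.sum_eq_single j]
    · rw [smul_mul_smul_comm, map_smul, onb_orth, if_pos rfl, smul_eq_mul, mul_one, sq]
    · intro k _ hk
      rw [smul_mul_smul_comm, map_smul, onb_orth, if_neg (Ne.symm hk), smul_zero]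
    · intro h
      exact absurd (Finset.mem_univ j) h
  have h3 : ∑ j, (onb U j p) ^ 2 = (Module.finrank ℝ U : ℝ) / (4 * Real.pi) := by
    have h4 := congrArg (fun g : SS => g p) (kernel_const U hU)
    simp only [ss_sum, ss_mul, ss_smul, ss_one, mul_one] at h4
    rw [← h4]
    exact Finset.sum_congr rfl fun j _ => sq _
  rw [h1, h2, ← h3, mul_comm (∑ j, (onb U j p) ^ 2)]
  exact Finset.sum_mul_sq_le_sq_mul_sq _ _ _

/-- the space of spherical harmonics of degree `m` -/
noncomputable def H (m : ℕ) : Submodule ℝ SS := LinearMap.range (E m)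

theorem H_le (m : ℕ) : H m ≤ V m := by
  rintro _ ⟨f, rfl⟩
  exact E_mem m f

instance instFinH (m : ℕ) : FiniteDimensional ℝ (H m) :=
  Submodule.finiteDimensional_of_le (H_le m)

theorem H_X (m : ℕ) : ∀ f ∈ H m, ∀ i, X i f ∈ H m := by
  rintro _ ⟨f, rfl⟩ i
  exact ⟨X i f, E_X m i f⟩

theorem E_Pi (m : ℕ) (f : SS) : E m (Pi m f) = E m f := by
  cases m with
  | zero => exact Pi_eq_self (Pi_mem 0 f)
  | succ m =>
    rw [E_succ, E_succ, Pi_eq_self (Pi_mem _ f), Pi_Pi (Nat.le_succ m)]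

theorem finrank_H (m : ℕ) : Module.finrank ℝ (H m) ≤ 2 * m + 1 := by
  cases m with
  | zero =>
    have h1 : Module.finrank ℝ (H 0) ≤ Module.finrank ℝ (V 0) :=
      Submodule.finrank_mono (H_le 0)
    have h2 : Module.finrank ℝ (V 0) ≤ 1 := by
      rw [V_zero]
      have h3 : Module.finrank ℝ (Submodule.span ℝ (({1} : Finset SS) : Set SS)) ≤ 1 :=
        finrank_span_finset_le_card (R := ℝ) (M := SS) {1}
      rwa [Finset.coe_singleton] at h3
    omega
  | succ m =>
    have h1 : H (m + 1) ≤ (Submodule.span ℝ (Sf m : Set SS)).map (E (m + 1)) := by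
      rintro _ ⟨f, rfl⟩
      rw [← E_Pi]
      obtain ⟨v, hv, s, hs, hvs⟩ := Submodule.mem_sup.mp (V_succ_le m (Pi_mem (m + 1) f))
      rw [← hvs, map_add]
      have h2 : E (m + 1) v = 0 := by
        rw [E_succ, Pi_eq_self hv, Pi_eq_self (V_le_succ m hv), sub_self]
      rw [h2, zero_add]
      exact Submodule.mem_map_of_mem hs
    have h3 : FiniteDimensional ℝ (Submodule.span ℝ (Sf m : Set SS)) :=
      FiniteDimensional.span_of_finite ℝ (Sf m).finite_toSet
    have h4 := Submodule.finrank_mono h1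
    have h5 := Submodule.finrank_map_le (E (m + 1)) (Submodule.span ℝ (Sf m : Set SS))
    have h6 := finrank_span_finset_le_card (R := ℝ) (M := SS) (Sf m)
    have h7 := card_Sf m
    change Set.finrank ℝ (Sf m : Set SS) ≤ _ at h6
    unfold Set.finrank at h6
    omega

theorem sup_E (m : ℕ) (f : SS) (p : Sph) : |E m f p| ≤ √(2 * m + 1) * nm (E m f) := by
  have h := sup_U (H m) (H_X m) (f := E m f) ⟨f, rfl⟩ p
  have h2 : (Module.finrank ℝ (H m) : ℝ) / (4 * Real.pi) ≤ 2 * m + 1 := by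
    have h3 : (Module.finrank ℝ (H m) : ℝ) ≤ 2 * m + 1 := by exact_mod_cast finrank_H m
    have h4 : (1 : ℝ) ≤ 4 * Real.pi := by
      have := Real.pi_gt_three
      linarith
    exact (div_le_self (Nat.cast_nonneg _) h4).trans h3
  apply abs_le_of_sq_le_sq _ (mul_nonneg (Real.sqrt_nonneg _) (nm_nonneg _))
  rw [mul_pow, nm_sq, Real.sq_sqrt (by positivity)]
  exact h.trans (mul_le_mul_of_nonneg_right h2 (I_sq_nonneg _))

theorem sum_odd (m : ℕ) : ∑ k ∈ Finset.range m, (2 * (k : ℝ) + 1) = (m : ℝ) ^ 2 := by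
  induction m with
  | zero => simp
  | succ m ih =>
    rw [Finset.sum_range_succ, ih]
    push_cast
    ring

theorem sum_tele {m : ℕ} (hm : 1 ≤ m) (K : ℕ) (hK : m ≤ K) :
    ∑ k ∈ Finset.Ico m K, (2 * (k : ℝ) + 1) / ((k : ℝ) * (k + 1)) ^ 2 =
      1 / (m : ℝ) ^ 2 - 1 / (K : ℝ) ^ 2 := by
  induction K, hK using Nat.le_induction with
  | base => simp
  | succ K hK ih =>
    rw [Finset.sum_Ico_succ_top hK, ih]
    have hK' : (K : ℝ) ≠ 0 := by
      have : 0 < K := by omega
      exact_mod_cast this.ne'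
    have hK2 : (K : ℝ) + 1 ≠ 0 := by positivity
    have hm' : (m : ℝ) ≠ 0 := by
      have : 0 < m := by omega
      exact_mod_cast this.ne'
    push_cast
    field_simp
    ring

theorem sup_Pi (f : SS) (p : Sph) (m : ℕ) (hm : 1 ≤ m) (N : ℕ) :
    |Pi N f p| ≤ m * nm f + (1 / m) * nm (Lap f) := by
  have hm0 : (0 : ℝ) < m := by exact_mod_cast hm
  have habs : |Pi N f p| ≤ ∑ k ∈ Finset.range (N + 1), √(2 * (k : ℝ) + 1) * nm (E k f) := by
    rw [← sum_E, ss_sum]
    refine (Finset.abs_sum_le_sum_abs _ _).trans ?_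
    exact Finset.sum_le_sum fun k _ => sup_E k f p
  have hterm : ∀ k : ℕ, 0 ≤ √(2 * (k : ℝ) + 1) * nm (E k f) := fun k =>
    mul_nonneg (Real.sqrt_nonneg _) (nm_nonneg _)
  have hsplit : ∑ k ∈ Finset.range (N + 1), √(2 * (k : ℝ) + 1) * nm (E k f) ≤
      ∑ k ∈ Finset.range m, √(2 * (k : ℝ) + 1) * nm (E k f) +
      ∑ k ∈ Finset.Ico m (m + N + 1), √(2 * (k : ℝ) + 1) * nm (E k f) := by
    have h1 : Finset.range (N + 1) ⊆ Finset.range m ∪ Finset.Ico m (m + N + 1) := by
      intro x hx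
      simp only [Finset.mem_range, Finset.mem_union, Finset.mem_Ico] at hx ⊢
      omega
    refine (Finset.sum_le_sum_of_subset_of_nonneg h1 fun k _ _ => hterm k).trans ?_
    rw [Finset.sum_union]
    rw [Finset.disjoint_left]
    intro x hx hx'
    simp only [Finset.mem_range, Finset.mem_Ico] at hx hx'
    omega
  have hfirst : ∑ k ∈ Finset.range m, √(2 * (k : ℝ) + 1) * nm (E k f) ≤ m * nm f := by
    refine (Real.sum_mul_le_sqrt_mul_sqrt _ _ _).trans ?_
    have h1 : ∑ k ∈ Finset.range m, √(2 * (k : ℝ) + 1) ^ 2 = (m : ℝ) ^ 2 := by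
      rw [← sum_odd]
      exact Finset.sum_congr rfl fun k _ => Real.sq_sqrt (by positivity)
    rw [h1, Real.sqrt_sq hm0.le]
    refine mul_le_mul_of_nonneg_left ?_ hm0.le
    unfold nm
    apply Real.sqrt_le_sqrt
    obtain ⟨m', rfl⟩ : ∃ m', m = m' + 1 := ⟨m - 1, by omega⟩
    have h2 := I_Pi_Pi m' f
    have h3 : I (Pi m' f * Pi m' f) ≤ I (f * f) := PU_bessel (V m') f
    rw [h2] at h3
    refine le_trans (le_of_eq (Finset.sum_congr rfl fun k _ => ?_)) h3
    exact Real.sq_sqrt (I_sq_nonneg _)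
  have hsecond : ∑ k ∈ Finset.Ico m (m + N + 1), √(2 * (k : ℝ) + 1) * nm (E k f) ≤
      (1 / m) * nm (Lap f) := by
    have h1 : ∀ k ∈ Finset.Ico m (m + N + 1), √(2 * (k : ℝ) + 1) * nm (E k f) =
        (√(2 * (k : ℝ) + 1) / ((k : ℝ) * (k + 1))) * (((k : ℝ) * (k + 1)) * nm (E k f)) := by
      intro k hk
      have hk1 : 1 ≤ k := hm.trans (Finset.mem_Ico.mp hk).1
      have hk0 : (k : ℝ) ≠ 0 := by
        have : 0 < k := hk1
        exact_mod_cast this.ne'
      have hk2 : (k : ℝ) + 1 ≠ 0 := by positivity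
      field_simp
    rw [Finset.sum_congr rfl h1]
    refine (Real.sum_mul_le_sqrt_mul_sqrt _ _ _).trans ?_
    have h2 : √(∑ k ∈ Finset.Ico m (m + N + 1),
        (√(2 * (k : ℝ) + 1) / ((k : ℝ) * (k + 1))) ^ 2) ≤ 1 / m := by
      apply Real.sqrt_le_iff.mpr
      refine ⟨by positivity, ?_⟩
      have h3 := sum_tele hm (m + N + 1) (by omega)
      have h4 : ∑ k ∈ Finset.Ico m (m + N + 1),
          (√(2 * (k : ℝ) + 1) / ((k : ℝ) * (k + 1))) ^ 2 =
          ∑ k ∈ Finset.Ico m (m + N + 1), (2 * (k : ℝ) + 1) / ((k : ℝ) * (k + 1)) ^ 2 := by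
        refine Finset.sum_congr rfl fun k _ => ?_
        rw [div_pow, Real.sq_sqrt (by positivity)]
      rw [h4, h3, one_div_pow]
      have : (0 : ℝ) ≤ 1 / ((m + N + 1 : ℕ) : ℝ) ^ 2 := by positivity
      linarith
    have h5 : √(∑ k ∈ Finset.Ico m (m + N + 1), (((k : ℝ) * (k + 1)) * nm (E k f)) ^ 2) ≤
        nm (Lap f) := by
      unfold nm
      apply Real.sqrt_le_sqrt
      have h6 : I (Lap (Pi (m + N) f) * Lap (Pi (m + N) f)) ≤ I (Lap f * Lap f) := by
        rw [← Pi_Lap]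
        exact PU_bessel (V (m + N)) (Lap f)
      rw [I_Lap_Pi] at h6
      refine le_trans ?_ h6
      have h7 : ∀ k ∈ Finset.Ico m (m + N + 1), (((k : ℝ) * (k + 1)) * √(I (E k f * E k f))) ^ 2 =
          ((k : ℝ) * (k + 1)) ^ 2 * I (E k f * E k f) := by
        intro k _
        rw [mul_pow, Real.sq_sqrt (I_sq_nonneg _)]
      rw [Finset.sum_congr rfl h7]
      refine Finset.sum_le_sum_of_subset_of_nonneg ?_ fun k _ _ =>
        mul_nonneg (sq_nonneg _) (I_sq_nonneg _)
      intro x hx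
      simp only [Finset.mem_range, Finset.mem_Ico] at hx ⊢
      omega
    exact mul_le_mul h2 h5 (Real.sqrt_nonneg _) (by positivity)
  linarith

theorem le_of_approx {f : SS} {g : ℕ → SS} {B : ℝ} (hg : ∀ N q, |g N q| ≤ B)
    (h : Tendsto (fun N => I ((f - g N) * (f - g N))) atTop (𝓝 0)) (p : Sph) : |f p| ≤ B := by
  have hc : Continuous fun q : Sph => (max (|f q| - B) 0) ^ 2 :=
    (((continuous_ss f).abs.sub continuous_const).max continuous_const).pow 2
  have h1 : ∀ N, ∫ q, (max (|f q| - B) 0) ^ 2 ∂σ ≤ I ((f - g N) * (f - g N)) := by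
    intro N
    rw [I_apply]
    refine integral_mono (integrable_cont hc) (integrable_ss _) fun q => ?_
    have h2 : max (|f q| - B) 0 ≤ |f q - g N q| := by
      apply max_le _ (abs_nonneg _)
      have := hg N q
      have := abs_sub_abs_le_abs_sub (f q) (g N q)
      linarith
    have h3 : 0 ≤ max (|f q| - B) 0 := le_max_right _ _
    change max (|f q| - B) 0 ^ 2 ≤ (f q - g N q) * (f q - g N q)
    rw [← sq, ← sq_abs (f q - g N q)]
    exact pow_le_pow_left₀ h3 h2 2
  have h4 : ∫ q, (max (|f q| - B) 0) ^ 2 ∂σ ≤ 0 := ge_of_tendsto' h h1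
  have h5 : ∫ q, (max (|f q| - B) 0) ^ 2 ∂σ = 0 :=
    le_antisymm h4 (integral_nonneg fun q => sq_nonneg _)
  have h6 := (integral_eq_zero_iff_of_nonneg (μ := σ) (f := fun q : Sph => (max (|f q| - B) 0) ^ 2)
    (fun q => sq_nonneg _) (integrable_cont hc)).mp h5
  have h7 : (fun q : Sph => (max (|f q| - B) 0) ^ 2) = fun _ => (0 : ℝ) :=
    (Continuous.ae_eq_iff_eq σ hc continuous_const).mp h6
  have h8 := congrFun h7 p
  have h9 : max (|f p| - B) 0 = 0 := by
    simpa using h8
  have h10 := le_max_left (|f p| - B) 0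
  linarith

/-- Sobolev embedding with a parameter -/
theorem sup_bound (f : SS) (p : Sph) (m : ℕ) (hm : 1 ≤ m) :
    |f p| ≤ m * √(I (f * f)) + (1 / m) * √(I (Lap f * Lap f)) :=
  le_of_approx (fun N q => sup_Pi f q m hm N) (tendsto_Pi f) p

end Pool.Agent.helper68.S2
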