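import Mathlib
import Pool.Agent.helper68.S2.Curv
import Pool.Agent.helper9.S2.Norms

/-!
# Module C: exponential convergence of the flow
-/

set_option autoImplicit false

open MeasureTheory Metric Set Filter
open scoped ContDiff Topology

namespace Pool.Agent.helper68.S2

namespace Cv

/-- Polyak–Łojasiewicz inequality (module P) -/
def PLStat : Prop := ∀ c C : ℝ, 0 < c → ∃ B, ∀ u : SS, (∀ p, |u p| ≤ C) →
  (∀ i p, |X i u p| ≤ C) → (∀ p, c ≤ Pc u p) → (∀ p, Pc u p ≤ C) → |Dn u| ≤ B * Yn u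

/-- uniform regularity (module R) -/
def RegStat : Prop := ∀ (u₀ : SS) (s : ℕ), ∃ B, ∀ (T : ℝ) (u F : ℝ → SS),
  IsFlow (Icc 0 T) u F → u 0 = u₀ → ∀ t ∈ Icc (0 : ℝ) T, NN s (u t) ≤ B ∧ NN s (F t) ≤ B

/-- compactness (module L1) -/
def UltraStat : Prop := ∀ (U : Ultrafilter ℕ) (f : ℕ → SS),
  (∀ w, ∃ C, ∀ i p, |Xw w (f i) p| ≤ C) →
  ∃ g : SS, ∀ w, TendstoUniformly (fun i p => Xw w (f i) p) (Xw w g) (U : Filter ℕ)

/-! ### The Lyapunov function -/

theorem Fq_flow {J : Set ℝ} {u F : ℝ → SS} (h : IsFlow J u F) {t : ℝ} (ht : t ∈ J) :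
    Fq (u t) = F t := (h.F_eq ht).symm

theorem Yn_flow {J : Set ℝ} {u F : ℝ → SS} (h : IsFlow J u F) {t : ℝ} (ht : t ∈ J) :
    Yn (u t) = 4 * Real.pi * (av (u t) (F t) - 1) := by
  unfold Yn
  rw [Fq_flow h ht]
  have e : (F t - 1) * (F t - 1) * Pc (u t) = F t * (F t * Pc (u t)) - (F t * Pc (u t)) -
    (F t * Pc (u t)) + Pc (u t) := by ring
  have hA := (ar_pos (u t)).ne'
  have h1 : I (F t * Ex 2 (u t)) = av (u t) (F t) * ar (u t) := by
    unfold av
    rw [div_mul_cancel₀ _ hA]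
  have h2 : I (Ex 2 (u t)) = ar (u t) := rfl
  rw [e, h.eq t ht, map_add, map_sub, map_sub, mul_smul_comm, map_smul, map_smul, I_Pc, h1, h2]
  unfold lam
  simp only [smul_eq_mul]
  field_simp
  ring

theorem dDn {J : Set ℝ} {u F : ℝ → SS} (h : IsFlow J u F) (hJ : Convex ℝ J) {t : ℝ} (ht : t ∈ J) :
    HasDerivWithinAt (fun s => Dn (u s)) (-(Yn (u t)) / (2 * Real.pi)) J t := by
  have h1 := h.dEn hJ ht
  have h2 := h.dar hJ ht
  have hA := ar_pos (u t)
  have hpi := Real.pi_pos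
  have h3 := (h2.div_const (4 * Real.pi)).log (by positivity)
  have h4 := (h1.div_const (4 * Real.pi)).sub h3
  refine h4.congr_deriv ?_
  rw [Yn_flow h ht]
  field_simp
  ring

theorem Yn_nonneg {u : SS} (hP : ∀ p, 0 ≤ Pc u p) : 0 ≤ Yn u := by
  unfold Yn
  refine I_nonneg fun p => ?_
  rw [ss_mul, ss_mul]
  exact mul_nonneg (mul_self_nonneg _) (hP p)

/-! ### Real analysis -/

theorem anti_Ici {f f' : ℝ → ℝ} {a : ℝ} (ha : 0 ≤ a)
    (hd : ∀ t ∈ Ici (0 : ℝ), HasDerivWithinAt f (f' t) (Ici 0) t)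
    (hf' : ∀ t, a ≤ t → f' t ≤ 0) : AntitoneOn f (Ici a) := by
  have hsub : Ici a ⊆ Ici (0 : ℝ) := Ici_subset_Ici.mpr ha
  refine antitoneOn_of_hasDerivWithinAt_nonpos (convex_Ici a)
    (f' := f') (fun t ht => ((hd t (hsub ht)).continuousWithinAt).mono hsub) ?_ ?_
  · intro t ht
    exact (hd t (hsub (interior_subset ht))).mono (interior_subset.trans hsub)
  · intro t ht
    exact hf' t (interior_subset ht)

/-- the Lyapunov function is nonnegative and decays exponentially -/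
theorem lyap {D Y : ℝ → ℝ} {B R : ℝ} (hB : 0 < B)
    (hd : ∀ t ∈ Ici (0 : ℝ), HasDerivWithinAt D (-(Y t) / (2 * Real.pi)) (Ici 0) t)
    (hDY : ∀ t, 0 ≤ t → |D t| ≤ B * Y t) (hDR : ∀ t, 0 ≤ t → |D t| ≤ R) :
    (∀ t, 0 ≤ t → 0 ≤ D t) ∧
      (∀ t, 0 ≤ t → D t ≤ D 0 * Real.exp (-(1 / (2 * Real.pi * B)) * t)) := by
  have hpi := Real.pi_pos
  have hY : ∀ t, 0 ≤ t → 0 ≤ Y t := by
    intro t ht
    have := (abs_nonneg _).trans (hDY t ht)
    by_contra hcon
    push Not at hcon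
    nlinarith
  have hanti : AntitoneOn D (Ici 0) := anti_Ici le_rfl hd fun t ht => by
    have := hY t ht
    have : 0 ≤ Y t / (2 * Real.pi) := by positivity
    rw [neg_div]
    linarith
  have hpos : ∀ t, 0 ≤ t → 0 ≤ D t := by
    intro t0 ht0
    by_contra hcon
    push Not at hcon
    set δ := -D t0 / (2 * Real.pi * B) with hδ
    have hδ0 : 0 < δ := div_pos (by linarith) (by positivity)
    have hg : AntitoneOn (fun t => D t + δ * t) (Ici t0) := by
      refine anti_Ici (f' := fun t => -(Y t) / (2 * Real.pi) + δ * 1) ht0 (fun t ht =>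
        (hd t ht).add ((hasDerivWithinAt_id t _).const_mul δ)) fun t ht => ?_
      have ht' : 0 ≤ t := ht0.trans ht
      have h1 : D t ≤ D t0 := hanti ht0 ht' ht
      have h2 : -D t0 ≤ B * Y t := by
        have := hDY t ht'
        have := neg_abs_le (D t)
        linarith
      have h3 : δ ≤ Y t / (2 * Real.pi) := by
        rw [hδ, div_le_div_iff₀ (by positivity) (by positivity)]
        nlinarith
      rw [neg_div, mul_one]
      linarith
    set t1 := t0 + (R + D t0 + 1) / δ + (|R| + |D t0|) / δ with ht1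
    have hR0 : 0 ≤ R := (abs_nonneg _).trans (hDR 0 le_rfl)
    have hRD : 0 ≤ R + D t0 := by
      have := hDR t0 ht0
      have := neg_abs_le (D t0)
      linarith
    have ht01 : t0 ≤ t1 := by
      rw [ht1]
      have h1 : 0 ≤ (R + D t0 + 1) / δ := div_nonneg (by linarith) hδ0.le
      have h2 : 0 ≤ (|R| + |D t0|) / δ := by positivity
      linarith
    have h5 := hg (mem_Ici.mpr le_rfl) ht01 ht01
    simp only at h5
    have h6 : δ * t1 = δ * t0 + (R + D t0 + 1) + (|R| + |D t0|) := by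
      rw [ht1]
      field_simp
    rw [h6] at h5
    have h7 := hDR t1 (ht0.trans ht01)
    have h8 := neg_abs_le (D t1)
    have h9 := abs_nonneg R
    have h10 := abs_nonneg (D t0)
    have h11 := neg_abs_le (D t0)
    linarith
  refine ⟨hpos, fun t ht => ?_⟩
  set γ := 1 / (2 * Real.pi * B) with hγ
  have hg : AntitoneOn (fun t => D t * Real.exp (γ * t)) (Ici 0) := by
    refine anti_Ici (f' := fun t => -(Y t) / (2 * Real.pi) * Real.exp (γ * t) +
      D t * (Real.exp (γ * t) * (γ * 1))) le_rfl (fun t ht =>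
      (hd t ht).mul (((hasDerivWithinAt_id t _).const_mul γ).exp)) fun t ht => ?_
    have h1 : D t ≤ B * Y t := (le_abs_self _).trans (hDY t ht)
    have h2 : D t * γ ≤ Y t / (2 * Real.pi) := by
      rw [hγ, mul_one_div, div_le_div_iff₀ (by positivity) (by positivity)]
      nlinarith
    have h3 := Real.exp_pos (γ * t)
    have e : -(Y t) / (2 * Real.pi) * Real.exp (γ * t) + D t * (Real.exp (γ * t) * (γ * 1)) =
        (D t * γ - Y t / (2 * Real.pi)) * Real.exp (γ * t) := by ring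
    rw [e]
    exact mul_nonpos_of_nonpos_of_nonneg (by linarith) h3.le
  have h1 := hg (mem_Ici.mpr le_rfl) ht ht
  simp only [mul_zero, Real.exp_zero, mul_one] at h1
  have h2 : D t = D t * Real.exp (γ * t) * Real.exp (-γ * t) := by
    rw [mul_assoc, ← Real.exp_add]
    have : γ * t + -γ * t = 0 := by ring
    rw [this, Real.exp_zero, mul_one]
  rw [h2]
  exact mul_le_mul_of_nonneg_right h1 (Real.exp_pos _).le

/-- the differential inequality giving the Cauchy property -/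
theorem cauchy_ode {D Y g g' : ℝ → ℝ} {B c s : ℝ} (hB : 0 < B) (hc : 0 < c) (hs : 0 ≤ s)
    (hd : ∀ t ∈ Ici (0 : ℝ), HasDerivWithinAt D (-(Y t) / (2 * Real.pi)) (Ici 0) t)
    (hDY : ∀ t, 0 ≤ t → |D t| ≤ B * Y t) (hD : ∀ t, 0 ≤ t → 0 ≤ D t)
    (hg : ∀ t ∈ Ici (0 : ℝ), HasDerivWithinAt g (g' t) (Ici 0) t) (hg0 : ∀ t, 0 ≤ t → 0 ≤ g t)
    (hg' : ∀ t, 0 ≤ t → ∀ ε : ℝ, 0 < ε → g' t ≤ ε * g t + ε⁻¹ * (Y t / c)) (hgs : g s = 0)
    {t : ℝ} (hst : s ≤ t) :
    g t ≤ 8 * Real.pi / (3 * c) * Real.exp (4 * (2 * Real.pi * B)) * D s := by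
  have hpi := Real.pi_pos
  set γ := 1 / (2 * Real.pi * B) with hγ
  have hγ0 : 0 < γ := by positivity
  set K := 8 * Real.pi / (3 * c) with hK
  have hK0 : 0 < K := by positivity
  set e1 : ℝ → ℝ := fun t => Real.exp (γ / 4 * (t - s)) with he1
  set e2 : ℝ → ℝ := fun t => Real.exp (-(γ / 4) * (t - s)) with he2
  have he1' : ∀ t ∈ Ici (0 : ℝ), HasDerivWithinAt e1 (e1 t * (γ / 4 * 1)) (Ici 0) t := fun t _ =>
    (((hasDerivWithinAt_id t _).sub_const s).const_mul (γ / 4)).exp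
  have he2' : ∀ t ∈ Ici (0 : ℝ), HasDerivWithinAt e2 (e2 t * (-(γ / 4) * 1)) (Ici 0) t :=
    fun t _ => (((hasDerivWithinAt_id t _).sub_const s).const_mul (-(γ / 4))).exp
  have he12 : ∀ t, (e2 t)⁻¹ = e1 t := by
    intro t
    simp only [he1, he2]
    rw [← Real.exp_neg]
    congr 1
    ring
  -- the function Φ
  have hΦ : ∀ t ∈ Ici (0 : ℝ), HasDerivWithinAt (fun t => g t + K * (e1 t * D t))
      (g' t + K * (e1 t * (γ / 4 * 1) * D t + e1 t * (-(Y t) / (2 * Real.pi)))) (Ici 0) t :=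
    fun t ht => (hg t ht).add (((he1' t ht).mul (hd t ht)).const_mul K)
  have hΦ' : ∀ t, 0 ≤ t → g' t + K * (e1 t * (γ / 4 * 1) * D t + e1 t * (-(Y t) / (2 * Real.pi)))
      ≤ e2 t * (g t + K * (e1 t * D t)) := by
    intro t ht
    have h1 := hg' t ht (e2 t) (Real.exp_pos _)
    rw [he12] at h1
    have h2 : D t ≤ B * Y t := (le_abs_self _).trans (hDY t ht)
    have h3 : γ / 4 * D t ≤ Y t / (8 * Real.pi) := by
      rw [hγ, le_div_iff₀ (by positivity)]
      have : 1 / (2 * Real.pi * B) / 4 * D t * (8 * Real.pi) = D t / B := by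
        field_simp
        ring
      rw [this, div_le_iff₀ hB]
      linarith
    have he : 0 < e1 t := Real.exp_pos _
    have he' : 0 < e2 t := Real.exp_pos _
    have h4 : K * (e1 t * (γ / 4 * 1) * D t + e1 t * (-(Y t) / (2 * Real.pi))) ≤
        -(e1 t * (Y t / c)) := by
      have h5 : K * (e1 t * (γ / 4 * 1) * D t + e1 t * (-(Y t) / (2 * Real.pi))) =
          e1 t * K * (γ / 4 * D t - Y t / (2 * Real.pi)) := by ring
      have h6 : -(e1 t * (Y t / c)) = e1 t * K * (Y t / (8 * Real.pi) - Y t / (2 * Real.pi)) := by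
        rw [hK]
        field_simp
        ring
      rw [h5, h6]
      refine mul_le_mul_of_nonneg_left (by linarith) (by positivity)
    have h7 : 0 ≤ e2 t * (K * (e1 t * D t)) := by
      have := hD t ht
      positivity
    have h8 : e2 t * (g t + K * (e1 t * D t)) = e2 t * g t + e2 t * (K * (e1 t * D t)) := by ring
    rw [h8]
    linarith
  -- the integrating factor
  have hΨ : AntitoneOn (fun t => (g t + K * (e1 t * D t)) * Real.exp (4 / γ * e2 t)) (Ici s) := by
    refine anti_Ici (f' := fun t =>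
      (g' t + K * (e1 t * (γ / 4 * 1) * D t + e1 t * (-(Y t) / (2 * Real.pi)))) *
        Real.exp (4 / γ * e2 t) + (g t + K * (e1 t * D t)) *
        (Real.exp (4 / γ * e2 t) * (4 / γ * (e2 t * (-(γ / 4) * 1))))) hs (fun t ht =>
        (hΦ t ht).mul (((he2' t ht).const_mul (4 / γ)).exp)) fun t ht => ?_
    have h1 := hΦ' t (hs.trans ht)
    have h2 := Real.exp_pos (4 / γ * e2 t)
    have e : (g' t + K * (e1 t * (γ / 4 * 1) * D t + e1 t * (-(Y t) / (2 * Real.pi)))) *
        Real.exp (4 / γ * e2 t) + (g t + K * (e1 t * D t)) *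
        (Real.exp (4 / γ * e2 t) * (4 / γ * (e2 t * (-(γ / 4) * 1)))) =
        ((g' t + K * (e1 t * (γ / 4 * 1) * D t + e1 t * (-(Y t) / (2 * Real.pi)))) -
          e2 t * (g t + K * (e1 t * D t))) * Real.exp (4 / γ * e2 t) := by
      field_simp
      ring
    rw [e]
    exact mul_nonpos_of_nonpos_of_nonneg (by linarith) h2.le
  have h1 := hΨ (mem_Ici.mpr le_rfl) hst hst
  simp only at h1
  have hes1 : e1 s = 1 := by simp [he1]
  have hes2 : e2 s = 1 := by simp [he2]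
  rw [hgs, hes1, hes2, zero_add, one_mul, mul_one] at h1
  have ht0 : 0 ≤ t := hs.trans hst
  have h2 : 0 ≤ g t + K * (e1 t * D t) := by
    have := hg0 t ht0
    have := hD t ht0
    have : 0 < e1 t := Real.exp_pos _
    positivity
  have h3 : 1 ≤ Real.exp (4 / γ * e2 t) := by
    apply Real.one_le_exp
    have : 0 < e2 t := Real.exp_pos _
    positivity
  have h4 : g t + K * (e1 t * D t) ≤ K * D s * Real.exp (4 / γ) :=
    (le_mul_of_one_le_right h2 h3).trans h1
  have h5 : 0 ≤ K * (e1 t * D t) := by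
    have := hD t ht0
    have : 0 < e1 t := Real.exp_pos _
    positivity
  have h6 : 4 / γ = 4 * (2 * Real.pi * B) := by
    rw [hγ]
    field_simp
  rw [h6] at h4
  linarith


/-! ### `L²` Cauchy estimate -/

section conv

variable {u F : ℝ → SS}

theorem flow_bounds (h : IsFlow (Ici 0) u F) : ∃ c C : ℝ, 0 < c ∧ 0 < C ∧ ∀ t, 0 ≤ t → ∀ p,
    |u t p| ≤ C ∧ gr (u t) p ≤ C ∧ c ≤ F t p ∧ F t p ≤ C ∧ c ≤ Pc (u t) p ∧ Pc (u t) p ≤ C := by
  obtain ⟨c, C, hc, h1⟩ := bounds_all (u 0)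
  have h2 : ∀ t, 0 ≤ t → ∀ p, |u t p| ≤ C ∧ gr (u t) p ≤ C ∧ c ≤ F t p ∧ F t p ≤ C ∧
      c ≤ Pc (u t) p ∧ Pc (u t) p ≤ C := fun t ht =>
    h1 t u F (h.mono Icc_subset_Ici_self) rfl t ⟨ht, le_rfl⟩
  refine ⟨c, C, hc, ?_, h2⟩
  obtain ⟨_, _, h3, h4, _⟩ := h2 0 le_rfl (proj 0)
  linarith

theorem l2_cauchy (hPL : PLStat) (h : IsFlow (Ici 0) u F) : ∃ K γ : ℝ, 0 ≤ K ∧ 0 < γ ∧
    ∀ s t, 0 ≤ s → s ≤ t → M 0 (u t - u s) ≤ K * Real.exp (-γ * s) := by
  obtain ⟨c, C, hc, hC, hb⟩ := flow_bounds h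
  obtain ⟨B0, hB0⟩ := hPL c (C + 1) hc
  have hpi := Real.pi_pos
  set B := max B0 1 with hB
  have hBpos : 0 < B := lt_of_lt_of_le one_pos (le_max_right _ _)
  have hY0 : ∀ t, 0 ≤ t → 0 ≤ Yn (u t) := fun t ht =>
    Yn_nonneg fun p => (hc.le.trans (hb t ht p).2.2.2.2.1)
  have hDY : ∀ t, 0 ≤ t → |Dn (u t)| ≤ B * Yn (u t) := by
    intro t ht
    refine (hB0 (u t) (fun p => ?_) (fun i p => ?_) (fun p => (hb t ht p).2.2.2.2.1)
      (fun p => ?_)).trans (mul_le_mul_of_nonneg_right (le_max_left _ _) (hY0 t ht))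
    · have := (hb t ht p).1
      linarith
    · have h1 := (hb t ht p).2.1
      rw [gr_apply] at h1
      have h2 : (X i (u t) p) ^ 2 ≤ C := by
        have h3 := sq_nonneg (X 0 (u t) p)
        have h4 := sq_nonneg (X 1 (u t) p)
        have h5 := sq_nonneg (X 2 (u t) p)
        fin_cases i
        · change (X 0 (u t) p) ^ 2 ≤ C
          linarith
        · change (X 1 (u t) p) ^ 2 ≤ C
          linarith
        · change (X 2 (u t) p) ^ 2 ≤ C
          linarith
      apply abs_le_of_sq_le_sq _ (by linarith)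
      nlinarith
    · have := (hb t ht p).2.2.2.2.2
      linarith
  have hYR : ∀ t, 0 ≤ t → Yn (u t) ≤ (C + 1) ^ 2 * C * (4 * Real.pi) := by
    intro t ht
    unfold Yn
    rw [Fq_flow h ht]
    refine (le_abs_self _).trans (abs_I_le fun p => ?_)
    obtain ⟨_, _, h3, h4, h5, h6⟩ := hb t ht p
    rw [ss_mul, ss_mul, ss_sub, ss_one, abs_mul, abs_mul_self]
    have h7 : (F t p - 1) * (F t p - 1) ≤ (C + 1) ^ 2 := by
      rw [← sq]
      apply sq_le_sq'
      · linarith
      · linarith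
    have h8 : |Pc (u t) p| ≤ C := by
      rw [abs_of_nonneg (hc.le.trans h5)]
      exact h6
    exact mul_le_mul h7 h8 (abs_nonneg _) (by positivity)
  have hd : ∀ t ∈ Ici (0 : ℝ), HasDerivWithinAt (fun s => Dn (u s))
      (-(Yn (u t)) / (2 * Real.pi)) (Ici 0) t := fun t ht => dDn h (convex_Ici 0) ht
  obtain ⟨hpos, hdec⟩ := lyap (D := fun t => Dn (u t)) (Y := fun t => Yn (u t))
    (R := B * ((C + 1) ^ 2 * C * (4 * Real.pi))) hBpos hd hDY
    (fun t ht => (hDY t ht).trans (mul_le_mul_of_nonneg_left (hYR t ht) hBpos.le))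
  refine ⟨8 * Real.pi / (3 * c) * Real.exp (4 * (2 * Real.pi * B)) * Dn (u 0),
    1 / (2 * Real.pi * B), mul_nonneg (by positivity) (hpos 0 le_rfl), by positivity,
    fun s t hs hst => ?_⟩
  have hg : ∀ t ∈ Ici (0 : ℝ), HasDerivWithinAt (fun t => M 0 (u t - u s))
      (I ((F t - 1) * (u t - u s) + (u t - u s) * (F t - 1))) (Ici 0) t := by
    intro t ht
    have h1 : CD (Ici 0) (fun t => u t - u s) (fun t => (F t - 1) - 0) := h.du.sub (CD.const (u s))
    have h1' : CD (Ici 0) (fun t => u t - u s) (fun t => F t - 1) :=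
      h1.congr (fun _ _ => rfl) fun t _ => by rw [sub_zero]
    have h2 : CC (Ici 0) (fun t => u t - u s) := h.cu.sub (CC.const (u s))
    have h3 : CC (Ici 0) (fun t => F t - 1) := h.cF.sub (CC.const 1)
    exact I_deriv (v := fun t => (F t - 1) * (u t - u s) + (u t - u s) * (F t - 1))
      (convex_Ici 0) ((h1'.mul h1') 0) (((h3.mul h2).add (h2.mul h3)) 0) ht
  have hg' : ∀ t, 0 ≤ t → ∀ ε : ℝ, 0 < ε → I ((F t - 1) * (u t - u s) + (u t - u s) * (F t - 1)) ≤
      ε * M 0 (u t - u s) + ε⁻¹ * (Yn (u t) / c) := by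
    intro t ht ε hε
    have h1 : I ((F t - 1) * (F t - 1)) ≤ Yn (u t) / c := by
      rw [le_div_iff₀ hc]
      unfold Yn
      rw [Fq_flow h ht]
      have e : I ((F t - 1) * (F t - 1)) * c = I (c • ((F t - 1) * (F t - 1))) := by
        rw [map_smul, smul_eq_mul, mul_comm]
      rw [e]
      apply I_mono
      intro p
      have h5 := (hb t ht p).2.2.2.2.1
      rw [ss_smul, ss_mul, ss_mul, ss_mul]
      have := mul_self_nonneg ((F t - 1 : SS) p)
      nlinarith
    have h2 : 0 ≤ I ((ε • (u t - u s) - (F t - 1)) * (ε • (u t - u s) - (F t - 1))) :=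
      I_nonneg fun p => mul_self_nonneg _
    have e : ∀ a b : SS, (ε • a - b) * (ε • a - b) =
        (ε * ε) • (a * a) - ε • (b * a + a * b) + b * b := by
      intro a b
      rw [sub_mul, mul_sub, mul_sub, smul_mul_smul_comm, smul_mul_assoc, mul_smul_comm, smul_add]
      ring
    rw [e, map_add, map_sub, map_smul, map_smul, smul_eq_mul, smul_eq_mul] at h2
    have h3 : ε * I ((F t - 1) * (u t - u s) + (u t - u s) * (F t - 1)) ≤
        ε * (ε * M 0 (u t - u s) + ε⁻¹ * (Yn (u t) / c)) := by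
      have h4 : ε * (ε * M 0 (u t - u s) + ε⁻¹ * (Yn (u t) / c)) =
          ε * ε * I ((u t - u s) * (u t - u s)) + Yn (u t) / c := by
        rw [M_zero]
        field_simp
      rw [h4]
      linarith
    exact le_of_mul_le_mul_left h3 hε
  have key := cauchy_ode (D := fun t => Dn (u t)) (Y := fun t => Yn (u t))
    (g := fun t => M 0 (u t - u s)) hBpos hc hs hd hDY hpos hg
    (fun t _ => M_nonneg 0 _) hg' (by simp [M_zero]) hst
  refine key.trans ?_
  rw [mul_assoc _ (Dn (u 0))]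
  exact mul_le_mul_of_nonneg_left (hdec s hs) (by positivity)

/-! ### Higher norms -/

theorem M_sub_le (s : ℕ) (f g : SS) : M s (f - g) ≤ 2 * M s f + 2 * M s g := by
  have h := M_add_le s f ((-1 : ℝ) • g)
  rw [M_smul] at h
  have e : f + (-1 : ℝ) • g = f - g := by
    rw [neg_one_smul]
    ring
  rw [e] at h
  linarith

theorem NN_sub_le (s : ℕ) (f g : SS) : NN s (f - g) ≤ 2 * NN s f + 2 * NN s g := by
  unfold NN
  rw [Finset.mul_sum, Finset.mul_sum, ← Finset.sum_add_distrib]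
  exact Finset.sum_le_sum fun k _ => M_sub_le k f g

theorem NN_succ_le (n : ℕ) (f : SS) : NN (n + 1) f ≤ NN n f + √(NN n f) * √(NN (n + 2) f) := by
  have h0 : NN (n + 1) f = NN n f + M (n + 1) f := by
    unfold NN
    rw [Finset.sum_range_succ _ (n + 1)]
  rw [h0]
  have h1 := M_interp n f
  have h2 := Real.sqrt_le_sqrt (M_le_NN (le_refl n) f)
  have h3 := Real.sqrt_le_sqrt (M_le_NN (le_refl (n + 2)) f)
  have h4 : √(M n f) * √(M (n + 2) f) ≤ √(NN n f) * √(NN (n + 2) f) :=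
    mul_le_mul h2 h3 (Real.sqrt_nonneg _) (Real.sqrt_nonneg _)
  linarith

theorem reg_bound (hreg : RegStat) (h : IsFlow (Ici 0) u F) (n : ℕ) :
    ∃ B, 0 ≤ B ∧ ∀ t, 0 ≤ t → NN n (u t) ≤ B := by
  obtain ⟨B, hB⟩ := hreg (u 0) n
  have h1 : ∀ t, 0 ≤ t → NN n (u t) ≤ B := fun t ht =>
    (hB t u F (h.mono Icc_subset_Ici_self) rfl t ⟨ht, le_rfl⟩).1
  exact ⟨B, (NN_nonneg _ _).trans (h1 0 le_rfl), h1⟩

theorem nn_cauchy (hPL : PLStat) (hreg : RegStat) (h : IsFlow (Ici 0) u F) (n : ℕ) :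
    ∃ K c : ℝ, 0 ≤ K ∧ 0 < c ∧
    ∀ s t, 0 ≤ s → s ≤ t → NN n (u t - u s) ≤ K * Real.exp (-c * s) := by
  induction n with
  | zero =>
    obtain ⟨K, γ, hK, hγ, h1⟩ := l2_cauchy hPL h
    exact ⟨K, γ, hK, hγ, fun s t hs hst => by rw [NN_zero]; exact h1 s t hs hst⟩
  | succ n ih =>
    obtain ⟨K, c, hK, hc, h1⟩ := ih
    obtain ⟨B, hB, h2⟩ := reg_bound hreg h (n + 2)
    refine ⟨K + √K * √(4 * B), c / 2, by positivity, by positivity, fun s t hs hst => ?_⟩
    have h3 := h1 s t hs hst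
    have h4 : NN (n + 2) (u t - u s) ≤ 4 * B := by
      have h5 := NN_sub_le (n + 2) (u t) (u s)
      have h6 := h2 t (hs.trans hst)
      have h7 := h2 s hs
      linarith
    have h5 := NN_succ_le n (u t - u s)
    have h6 : √(NN n (u t - u s)) ≤ √K * Real.exp (-(c / 2) * s) := by
      refine (Real.sqrt_le_sqrt h3).trans (le_of_eq ?_)
      rw [Real.sqrt_mul hK]
      congr 1
      rw [Real.sqrt_eq_rpow, ← Real.exp_mul]
      congr 1
      ring
    have h7 : √(NN (n + 2) (u t - u s)) ≤ √(4 * B) := Real.sqrt_le_sqrt h4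
    have h8 : √(NN n (u t - u s)) * √(NN (n + 2) (u t - u s)) ≤
        √K * Real.exp (-(c / 2) * s) * √(4 * B) :=
      mul_le_mul h6 h7 (Real.sqrt_nonneg _) (by positivity)
    have h9 : Real.exp (-c * s) ≤ Real.exp (-(c / 2) * s) := by
      apply Real.exp_le_exp.mpr
      nlinarith
    have h10 : K * Real.exp (-c * s) ≤ K * Real.exp (-(c / 2) * s) :=
      mul_le_mul_of_nonneg_left h9 hK
    calc NN (n + 1) (u t - u s) ≤ K * Real.exp (-(c / 2) * s) +
          √K * Real.exp (-(c / 2) * s) * √(4 * B) := by linarith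
      _ = _ := by ring

theorem NN_Xw_le (w : List (Fin 3)) (s : ℕ) (f : SS) : NN s (Xw w f) ≤ NN (s + w.length) f := by
  induction w generalizing f with
  | nil => exact le_refl _
  | cons i w ih =>
    rw [Xw_cons, List.length_cons]
    refine (ih (X i f)).trans ?_
    have := NN_X_le (s + w.length) f i
    rw [← add_assoc]
    exact this

theorem Xw_sup {A : ℝ} (hA : SupB A) (w : List (Fin 3)) (f : SS) (p : Sph) :
    |Xw w f p| ≤ √(2 * A ^ 2) * √(NN (2 + w.length) f) := by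
  rw [← Real.sqrt_mul (by positivity)]
  apply Real.le_sqrt_of_sq_le
  refine (hA.sup_le (Xw w f) p).trans ?_
  exact mul_le_mul_of_nonneg_left (NN_Xw_le w 2 f) (by positivity)

theorem word_cauchy {A : ℝ} (hA : SupB A) (hPL : PLStat) (hreg : RegStat)
    (h : IsFlow (Ici 0) u F) (w : List (Fin 3)) :
    ∃ K c : ℝ, 0 < c ∧ ∀ s t, 0 ≤ s → s ≤ t → ∀ p,
      |Xw w (u t) p - Xw w (u s) p| ≤ K * Real.exp (-c * s) := by
  obtain ⟨K, c, hK, hc, h1⟩ := nn_cauchy hPL hreg h (2 + w.length)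
  refine ⟨√(2 * A ^ 2) * √K, c / 2, by positivity, fun s t hs hst p => ?_⟩
  have h2 := Xw_sup hA w (u t - u s) p
  rw [Xw_sub, ss_sub] at h2
  refine h2.trans ?_
  rw [mul_assoc]
  refine mul_le_mul_of_nonneg_left ?_ (Real.sqrt_nonneg _)
  refine (Real.sqrt_le_sqrt (h1 s t hs hst)).trans (le_of_eq ?_)
  rw [Real.sqrt_mul hK]
  congr 1
  rw [Real.sqrt_eq_rpow, ← Real.exp_mul]
  congr 1
  ring

theorem tendsto_exp_neg {K c : ℝ} (hc : 0 < c) :
    Tendsto (fun t : ℝ => K * Real.exp (-c * t)) atTop (𝓝 0) := by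
  have h1 : Tendsto (fun t : ℝ => Real.exp (-c * t)) atTop (𝓝 0) := by
    apply Real.tendsto_exp_atBot.comp
    exact tendsto_id.const_mul_atTop_of_neg (by linarith)
  have h2 := h1.const_mul K
  rw [mul_zero] at h2
  exact h2

/-- exponential `C^∞` convergence of every global flow -/
theorem conv {A : ℝ} (hA : SupB A) (hPL : PLStat) (hreg : RegStat) (hul : UltraStat)
    {u F : ℝ → SS} (h : IsFlow (Ici 0) u F) :
    ∃ g : SS, (∀ w, ∃ K c : ℝ, 0 < c ∧ ∀ t, 0 ≤ t → ∀ p,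
      |Xw w (u t) p - Xw w g p| ≤ K * Real.exp (-c * t)) ∧ (∀ p, 0 < Pc g p) ∧ Fq g = 1 := by
  obtain ⟨c, C, hc, hC, hb⟩ := flow_bounds h
  obtain ⟨g, hg⟩ := hul (hyperfilter ℕ) (fun n => u n) (by
    intro w
    obtain ⟨B, hB, h2⟩ := reg_bound hreg h (2 + w.length)
    refine ⟨√(2 * A ^ 2) * √B, fun n p => ?_⟩
    refine (Xw_sup hA w (u n) p).trans ?_
    exact mul_le_mul_of_nonneg_left (Real.sqrt_le_sqrt (h2 n (Nat.cast_nonneg n)))
      (Real.sqrt_nonneg _))
  have hlim : ∀ w p, Tendsto (fun n : ℕ => Xw w (u n) p) (hyperfilter ℕ : Filter ℕ)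
      (𝓝 (Xw w g p)) := fun w p => (hg w).tendsto_at p
  have hle : (hyperfilter ℕ : Filter ℕ) ≤ atTop := Nat.hyperfilter_le_atTop
  -- exponential convergence
  have hexp : ∀ w, ∃ K c : ℝ, 0 < c ∧ ∀ t, 0 ≤ t → ∀ p,
      |Xw w (u t) p - Xw w g p| ≤ K * Real.exp (-c * t) := by
    intro w
    obtain ⟨K, c, hc, h1⟩ := word_cauchy hA hPL hreg h w
    refine ⟨K, c, hc, fun t ht p => ?_⟩
    have h2 : Tendsto (fun n : ℕ => |Xw w (u t) p - Xw w (u n) p|) (hyperfilter ℕ : Filter ℕ)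
        (𝓝 |Xw w (u t) p - Xw w g p|) := ((hlim w p).const_sub _).abs
    refine le_of_tendsto h2 ?_
    have h3 : ∀ᶠ n : ℕ in atTop, t ≤ n := by
      obtain ⟨N, hN⟩ := exists_nat_ge t
      filter_upwards [eventually_ge_atTop N] with n hn
      exact hN.trans (by exact_mod_cast hn)
    filter_upwards [hle h3] with n hn
    rw [abs_sub_comm]
    exact h1 t n ht hn p
  refine ⟨g, hexp, ?_⟩
  -- convergence of all words along `atTop`
  have hlimT : ∀ w p, Tendsto (fun t : ℝ => Xw w (u t) p) atTop (𝓝 (Xw w g p)) := by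
    intro w p
    obtain ⟨K, c, hc, h1⟩ := hexp w
    rw [tendsto_iff_norm_sub_tendsto_zero]
    refine squeeze_zero' (Eventually.of_forall fun t => norm_nonneg _) ?_
      (tendsto_exp_neg (K := K) hc)
    filter_upwards [eventually_ge_atTop 0] with t ht
    exact h1 t ht p
  have hPlim : ∀ p, Tendsto (fun t : ℝ => Pc (u t) p) atTop (𝓝 (Pc g p)) := by
    intro p
    have e : ∀ f : SS, Pc f p = 1 - (Xw [0, 0] f p + Xw [1, 1] f p + Xw [2, 2] f p) := by
      intro f
      unfold Pc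
      rw [Lap_eq]
      rfl
    simp only [e]
    exact (((hlimT [0, 0] p).add (hlimT [1, 1] p)).add (hlimT [2, 2] p)).const_sub 1
  have hPpos : ∀ p, 0 < Pc g p := by
    intro p
    refine lt_of_lt_of_le hc (ge_of_tendsto (hPlim p) ?_)
    filter_upwards [eventually_ge_atTop 0] with t ht
    exact (hb t ht p).2.2.2.2.1
  refine ⟨hPpos, ?_⟩
  -- convergence of the area
  have har : Tendsto (fun t : ℝ => ar (u t)) atTop (𝓝 (ar g)) := by
    obtain ⟨K, c, hc, h1⟩ := hexp []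
    obtain ⟨C', hC', hC''⟩ := exists_le (Ex 2 g)
    rw [tendsto_iff_norm_sub_tendsto_zero]
    have h2 : Tendsto (fun t : ℝ => C' * (2 * (2 * (K * Real.exp (-c * t)))) * (4 * Real.pi))
        atTop (𝓝 0) := by
      have := ((((tendsto_exp_neg (K := K) hc).const_mul 2).const_mul 2).const_mul C').mul_const
        (4 * Real.pi)
      simpa using this
    refine squeeze_zero' (Eventually.of_forall fun t => norm_nonneg _) ?_ h2
    have h3 : ∀ᶠ t : ℝ in atTop, K * Real.exp (-c * t) < 1 / 2 :=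
      (tendsto_exp_neg (K := K) hc).eventually_lt_const (by norm_num)
    filter_upwards [eventually_ge_atTop 0, h3] with t ht ht3
    unfold ar
    rw [← map_sub, Real.norm_eq_abs]
    refine abs_I_le fun p => ?_
    rw [ss_sub, Ex_apply, Ex_apply]
    have h4 : |u t p - g p| ≤ K * Real.exp (-c * t) := h1 t ht p
    have h5 : Real.exp (2 * u t p) - Real.exp (2 * g p) =
        Real.exp (2 * g p) * (Real.exp (2 * (u t p - g p)) - 1) := by
      rw [mul_sub, ← Real.exp_add]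
      congr 1
      · congr 1
        ring
      · ring
    have h6 : |2 * (u t p - g p)| ≤ 2 * (K * Real.exp (-c * t)) := by
      rw [abs_mul, abs_two]
      linarith
    have h7 : |Real.exp (2 * (u t p - g p)) - 1| ≤ 2 * |2 * (u t p - g p)| :=
      Real.abs_exp_sub_one_le (h6.trans (by linarith))
    have h8 : Real.exp (2 * g p) ≤ C' := by
      have := hC'' p
      rwa [Ex_apply] at this
    rw [h5, abs_mul, abs_of_pos (Real.exp_pos _)]
    exact mul_le_mul h8 (h7.trans (by linarith)) (abs_nonneg _) hC'.le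
  have hFlim : ∀ p, Tendsto (fun t : ℝ => F t p) atTop (𝓝 (Fq g p)) := by
    intro p
    have e1 : Fq g p = lam g * Real.exp (2 * g p) / Pc g p := by
      unfold Fq
      rw [ss_smul, ss_mul, Ex_apply, Inv_apply hPpos]
      rw [mul_div_assoc, div_eq_mul_inv]
    rw [e1]
    have h1 : Tendsto (fun t : ℝ => lam (u t) * Real.exp (2 * u t p) / Pc (u t) p) atTop
        (𝓝 (lam g * Real.exp (2 * g p) / Pc g p)) := by
      refine Tendsto.div (Tendsto.mul ?_ ?_) (hPlim p) (hPpos p).ne'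
      · unfold lam
        exact tendsto_const_nhds.div har (ar_pos g).ne'
      · exact (Real.continuous_exp.tendsto _).comp ((hlimT [] p).const_mul 2)
    refine h1.congr' ?_
    filter_upwards [eventually_ge_atTop 0] with t ht
    exact (h.F_apply ht p).symm
  apply ssext
  intro p
  rw [ss_one]
  -- mean value theorem
  have hmv : ∀ n : ℕ, ∃ ξ : ℝ, (n : ℝ) < ξ ∧ F ξ p - 1 = u (n + 1) p - u n p := by
    intro n
    have hn : (0 : ℝ) ≤ n := Nat.cast_nonneg n
    have hder : ∀ t ∈ Ioo (n : ℝ) (n + 1), HasDerivAt (fun t => u t p) (F t p - 1) t := by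
      intro t ht
      have ht0 : 0 < t := lt_of_le_of_lt hn ht.1
      have h1 := (h.du 0).zero (mem_Ici.mpr ht0.le) p
      have h2 := h1.hasDerivAt (Ici_mem_nhds ht0)
      exact h2
    have hcont : ContinuousOn (fun t => u t p) (Icc (n : ℝ) (n + 1)) := by
      intro t ht
      have ht0 : (0 : ℝ) ≤ t := hn.trans ht.1
      have h1 := ((h.du 0).zero (mem_Ici.mpr ht0) p).continuousWithinAt
      exact h1.mono (Icc_subset_Ici_self.trans (Ici_subset_Ici.mpr hn))
    obtain ⟨ξ, hξ, h3⟩ := exists_hasDerivAt_eq_slope (fun t => u t p) (fun t => F t p - 1)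
      (by linarith : (n : ℝ) < n + 1) hcont hder
    refine ⟨ξ, hξ.1, ?_⟩
    rw [h3]
    simp
  choose ξ hξ1 hξ2 using hmv
  have hξt : Tendsto ξ atTop atTop := by
    refine tendsto_atTop_mono (fun n => (hξ1 n).le) tendsto_natCast_atTop_atTop
  have h1 : Tendsto (fun n => F (ξ n) p - 1) atTop (𝓝 (Fq g p - 1)) :=
    ((hFlim p).comp hξt).sub_const 1
  have h2 : Tendsto (fun n : ℕ => u (n + 1) p - u n p) atTop (𝓝 (g p - g p)) := by
    have h3 : Tendsto (fun t : ℝ => u t p) atTop (𝓝 (g p)) := hlimT [] p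
    have h4 : Tendsto (fun n : ℕ => (n : ℝ) + 1) atTop atTop :=
      tendsto_atTop_add_const_right _ _ tendsto_natCast_atTop_atTop
    exact (h3.comp h4).sub (h3.comp tendsto_natCast_atTop_atTop)
  have h3 : Tendsto (fun n => F (ξ n) p - 1) atTop (𝓝 (g p - g p)) :=
    h2.congr fun n => (hξ2 n).symm
  have h4 := tendsto_nhds_unique h1 h3
  linarith

end conv

end Cv

/-- `D' = - Y / (2π)` along the flow -/
theorem dDn {J : Set ℝ} {u F : ℝ → SS} (h : IsFlow J u F) (hJ : Convex ℝ J) {t : ℝ} (ht : t ∈ J) :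
    HasDerivWithinAt (fun s => Dn (u s)) (-(Yn (u t)) / (2 * Real.pi)) J t := Cv.dDn h hJ ht

/-- exponential `C^∞` convergence of every global flow -/
theorem conv {A : ℝ} (hA : SupB A) (hPL : Cv.PLStat) (hreg : Cv.RegStat) (hul : Cv.UltraStat)
    {u F : ℝ → SS} (h : IsFlow (Ici 0) u F) :
    ∃ g : SS, (∀ w, ∃ K c : ℝ, 0 < c ∧ ∀ t, 0 ≤ t → ∀ p,
      |Xw w (u t) p - Xw w g p| ≤ K * Real.exp (-c * t)) ∧ (∀ p, 0 < Pc g p) ∧ Fq g = 1 :=
  Cv.conv hA hPL hreg hul h

end Pool.Agent.helper68.S2
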