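import Pool.Agent.helper9.ConeField
import Pool.Agent.helper95.GMC.Ker
import Pool.Agent.helper95.GMC.Setting

/-!
Module E1: existence of the logarithmically correlated Gaussian field on `[0,1]`, indexed by
bounded measurable functions.
-/

open MeasureTheory ProbabilityTheory Filter Topology Set
open scoped ENNReal NNReal

namespace Pool.Agent.helper95.GMC

namespace LogField

open Pool.Agent.helper9.GMC

/-- the Hilbert space -/
noncomputable abbrev HH := Lp ℝ 2 (volume : Measure (ℝ × ℝ))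

/-- indicator of a cone -/
noncomputable def iv (i : ℕ) (x : ℝ) : HH :=
  indicatorConstLp 2 (measurableSet_cone i x) (volume_cone_ne_top i x) (1 : ℝ)

lemma inner_iv (i j : ℕ) (x y : ℝ) : (inner ℝ (iv i x) (iv j y) : ℝ) = if i = j then kap i (x - y) else 0 := by
  unfold iv
  rw [L2.real_inner_indicatorConstLp_one_indicatorConstLp_one (measurableSet_cone i x)
      (measurableSet_cone j y) (volume_cone_ne_top i x) (volume_cone_ne_top j y)]
  split_ifs with hij
  · subst hij
    exact volume_real_cone_inter i x y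
  · rw [cone_disjoint hij]
    simp

/-- sum of the layers `0..J` -/
noncomputable def ev (J : ℕ) (x : ℝ) : HH := ∑ i ∈ Finset.range (J + 1), iv i x

lemma inner_ev {J J' : ℕ} (h : J ≤ J') (x y : ℝ) : (inner ℝ (ev J x) (ev J' y) : ℝ) = K J (x - y) := by
  unfold ev
  rw [sum_inner, ← sum_kap]
  refine Finset.sum_congr rfl fun i hi => ?_
  rw [inner_sum, Finset.sum_eq_single i]
  · rw [inner_iv, if_pos rfl]
  · intro j _ hj
    rw [inner_iv, if_neg (Ne.symm hj)]
  · intro hi'
    exfalso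
    apply hi'
    rw [Finset.mem_range] at hi ⊢
    omega

lemma norm_ev_sq (J : ℕ) (x : ℝ) : ‖ev J x‖ ^ 2 = K J 0 := by
  rw [← real_inner_self_eq_norm_sq, inner_ev le_rfl, sub_self]

lemma norm_ev_sub_sq (J : ℕ) (x y : ℝ) : ‖ev J x - ev J y‖ ^ 2 = 2 * (K J 0 - K J (x - y)) := by
  rw [norm_sub_sq_real, norm_ev_sq, norm_ev_sq, inner_ev le_rfl]
  ring

lemma continuous_ev (J : ℕ) : Continuous (ev J) := by
  rw [continuous_iff_continuousAt]
  intro y
  rw [ContinuousAt, tendsto_iff_norm_sub_tendsto_zero]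
  have h1 : ∀ x, ‖ev J x - ev J y‖ ≤ √(2 * (2 ^ J * |x - y|)) := by
    intro x
    apply Real.le_sqrt_of_sq_le
    rw [norm_ev_sub_sq]
    have := K_zero_sub_le J (x - y)
    rw [K_zero]
    linarith
  refine squeeze_zero (fun _ => norm_nonneg _) h1 ?_
  have h2 : Continuous fun x : ℝ => √(2 * (2 ^ J * |x - y|)) := by fun_prop
  have h3 := h2.tendsto y
  simpa using h3

lemma test_integrable {f : ℝ → ℝ} (hf : IsTest (Set.Icc 0 1) f) : Integrable f := by
  obtain ⟨h1, ⟨B, hB⟩, h3⟩ := hf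
  have h4 : IntegrableOn f (Set.Icc 0 1) := by
    refine Measure.integrableOn_of_bounded (M := B) (by simp) h1.aestronglyMeasurable ?_
    exact ae_of_all _ fun x => by rw [Real.norm_eq_abs]; exact hB x
  exact (integrableOn_iff_integrable_of_support_subset (fun x hx => by
    by_contra hcon
    exact hx (h3 x hcon))).mp h4

lemma integrable_ev {f : ℝ → ℝ} (hf : IsTest (Set.Icc 0 1) f) (J : ℕ) :
    Integrable (fun x => f x • ev J x) := by
  refine ((test_integrable hf).norm.mul_const (√(K J 0))).mono'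
    (hf.1.aestronglyMeasurable.smul (continuous_ev J).aestronglyMeasurable)
    (ae_of_all _ fun x => ?_)
  rw [norm_smul]
  refine mul_le_mul_of_nonneg_left ?_ (norm_nonneg _)
  apply Real.le_sqrt_of_sq_le
  rw [norm_ev_sq]

/-- regularised vector -/
noncomputable def vec (J : ℕ) (f : ℝ → ℝ) : HH := ∫ x, f x • ev J x

/-- covariance -/
noncomputable def AJ (J : ℕ) (f g : ℝ → ℝ) : ℝ := ∫ u, ∫ v, f u * g v * K J (u - v)

lemma inner_vec {f g : ℝ → ℝ} (hf : IsTest (Set.Icc 0 1) f) (hg : IsTest (Set.Icc 0 1) g)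
    {J J' : ℕ} (h : J ≤ J') : (inner ℝ (vec J f) (vec J' g) : ℝ) = AJ J f g := by
  have e1 : (inner ℝ (vec J' g) (vec J f) : ℝ) = ∫ x, (inner ℝ (vec J' g) (f x • ev J x) : ℝ) :=
    (integral_inner (integrable_ev hf J) _).symm
  have e2 : ∀ x, (inner ℝ (ev J x) (vec J' g) : ℝ) = ∫ y, (inner ℝ (ev J x) (g y • ev J' y) : ℝ) := fun x =>
    (integral_inner (integrable_ev hg J') _).symm
  rw [real_inner_comm, e1]
  unfold AJ
  refine integral_congr_ae (ae_of_all _ fun x => ?_)
  simp only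
  rw [real_inner_smul_right, real_inner_comm, e2, ← integral_const_mul]
  refine integral_congr_ae (ae_of_all _ fun y => ?_)
  simp only
  rw [real_inner_smul_right, inner_ev h]
  ring

/-- dominating function -/
noncomputable def LL (z : ℝ) : ℝ := if |z| ≤ 1 then |Real.log (|z|)| else 0

lemma K_le_LL (J : ℕ) {z : ℝ} (hz : z ≠ 0) : |K J z| ≤ LL z := by
  rw [abs_of_nonneg (K_nonneg J z)]
  unfold LL
  split_ifs with h
  · exact (K_le_neg_log J hz h).trans (neg_le_abs _)
  · push Not at h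
    rw [K_of_one_le h.le]

lemma log_eq_LL {z : ℝ} (h : |z| ≤ 1) : |Real.log (1 / |z|)| = LL z := by
  unfold LL
  rw [if_pos h, one_div, Real.log_inv, abs_neg]

lemma integrable_LL : Integrable LL := by
  have h1 : IntegrableOn (fun z : ℝ => |Real.log (|z|)|) (Set.Icc (-1) 1) := by
    have h2 : IntervalIntegrable (fun z : ℝ => Real.log z) volume (-1) 1 :=
      intervalIntegral.intervalIntegrable_log'
    have h3 := h2.abs
    rw [intervalIntegrable_iff_integrableOn_Icc_of_le (by norm_num)] at h3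
    refine h3.congr_fun (fun z _ => ?_) measurableSet_Icc
    simp only [Real.log_abs]
  have h4 := h1.integrable_indicator measurableSet_Icc
  refine h4.congr (ae_of_all _ fun z => ?_)
  unfold LL
  by_cases hz : |z| ≤ 1
  · rw [if_pos hz, Set.indicator_of_mem]
    exact abs_le.mp hz
  · rw [if_neg hz, Set.indicator_of_notMem]
    exact fun h => hz (abs_le.mpr h)

lemma LL_nonneg (z : ℝ) : 0 ≤ LL z := by
  unfold LL
  split_ifs
  · exact abs_nonneg _
  · exact le_rfl

lemma tendsto_K {z : ℝ} (hz : z ≠ 0) (h : |z| ≤ 1) :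
    Tendsto (fun J => K J z) atTop (𝓝 (Real.log (1 / |z|))) := by
  have h1 : ∀ᶠ J : ℕ in atTop, ((2 : ℝ) ^ J)⁻¹ ≤ |z| := by
    have h2 : Tendsto (fun J : ℕ => ((2 : ℝ) ^ J)⁻¹) atTop (𝓝 0) := by
      have := tendsto_pow_atTop_nhds_zero_of_lt_one (r := (2 : ℝ)⁻¹) (by norm_num) (by norm_num)
      refine this.congr fun J => ?_
      rw [inv_pow]
    exact (h2.eventually_lt_const (abs_pos.mpr hz)).mono fun J hJ => hJ.le
  refine tendsto_const_nhds.congr' ?_
  filter_upwards [h1] with J hJ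
  rw [K_of_ge hJ h, one_div, Real.log_inv]

lemma tendsto_AJ {f g : ℝ → ℝ} (hf : IsTest (Set.Icc 0 1) f) (hg : IsTest (Set.Icc 0 1) g) :
    Tendsto (fun J => AJ J f g) atTop (𝓝 (∫ u, ∫ v, f u * g v * Real.log (1 / |u - v|))) := by
  obtain ⟨hf1, ⟨B, hB⟩, hf3⟩ := id hf
  obtain ⟨hg1, ⟨B', hB'⟩, hg3⟩ := id hg
  have hB0 : 0 ≤ B := (abs_nonneg _).trans (hB 0)
  have hB0' : 0 ≤ B' := (abs_nonneg _).trans (hB' 0)
  have hLu : ∀ u : ℝ, Integrable (fun v => LL (u - v)) := fun u => integrable_LL.comp_sub_left u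
  have hdom : ∀ (J : ℕ) (u : ℝ), ∀ᵐ v : ℝ, ‖f u * g v * K J (u - v)‖ ≤ |f u| * (B' * LL (u - v)) := by
    intro J u
    have h1 : ∀ᵐ v : ℝ, v ≠ u := by
      have : (volume : Measure ℝ) {v | ¬ v ≠ u} = 0 := by
        simp
      exact this
    filter_upwards [h1] with v hv
    have hz : u - v ≠ 0 := sub_ne_zero.mpr (Ne.symm hv)
    rw [norm_mul, norm_mul, Real.norm_eq_abs, Real.norm_eq_abs, Real.norm_eq_abs, mul_assoc]
    refine mul_le_mul_of_nonneg_left ?_ (abs_nonneg _)
    exact mul_le_mul (hB' v) (K_le_LL J hz) (abs_nonneg _) hB0'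
  unfold AJ
  refine tendsto_integral_of_dominated_convergence (fun u => |f u| * (B' * ∫ z, LL z)) ?_ ?_ ?_ ?_
  · intro J
    have h1 : Measurable (fun q : ℝ × ℝ => f q.1 * g q.2 * K J (q.1 - q.2)) :=
      ((hf1.comp measurable_fst).mul (hg1.comp measurable_snd)).mul
        ((measurable_K J).comp (measurable_fst.sub measurable_snd))
    exact (h1.stronglyMeasurable.integral_prod_right (ν := (volume : Measure ℝ))).aestronglyMeasurable
  · exact (test_integrable hf).abs.mul_const _
  · intro J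
    refine ae_of_all _ fun u => ?_
    refine (norm_integral_le_of_norm_le (((hLu u).const_mul B').const_mul |f u|) (hdom J u)).trans ?_
    rw [integral_const_mul, integral_const_mul, integral_sub_left_eq_self LL volume u]
  · refine ae_of_all _ fun u => ?_
    by_cases hu : u ∈ Set.Icc (0 : ℝ) 1
    swap
    · have : f u = 0 := hf3 u hu
      simp [this]
    refine tendsto_integral_of_dominated_convergence (fun v => |f u| * (B' * LL (u - v))) ?_
      (((hLu u).const_mul B').const_mul |f u|) (fun J => hdom J u) ?_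
    · intro J
      exact ((hg1.const_mul (f u)).mul ((measurable_K J).comp (measurable_const.sub
        measurable_id))).aestronglyMeasurable
    · have h1 : ∀ᵐ v : ℝ, v ≠ u := by
        have : (volume : Measure ℝ) {v | ¬ v ≠ u} = 0 := by
          simp
        exact this
      filter_upwards [h1] with v hv
      by_cases hv' : v ∈ Set.Icc (0 : ℝ) 1
      · have hz : u - v ≠ 0 := sub_ne_zero.mpr (Ne.symm hv)
        have hz1 : |u - v| ≤ 1 := by
          rw [abs_le]
          constructor <;> linarith [hu.1, hu.2, hv'.1, hv'.2]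
        exact (tendsto_K hz hz1).const_mul _
      · have : g v = 0 := hg3 v hv'
        simp [this]

lemma AJ_symm_norm {f : ℝ → ℝ} (hf : IsTest (Set.Icc 0 1) f) {J J' : ℕ} (h : J ≤ J') :
    ‖vec J f - vec J' f‖ ^ 2 = AJ J' f f - AJ J f f := by
  rw [norm_sub_sq_real, ← real_inner_self_eq_norm_sq, ← real_inner_self_eq_norm_sq,
    inner_vec hf hf le_rfl, inner_vec hf hf le_rfl, inner_vec hf hf h]
  ring

lemma cauchy_vec {f : ℝ → ℝ} (hf : IsTest (Set.Icc 0 1) f) : CauchySeq (fun J => vec J f) := by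
  rw [Metric.cauchySeq_iff]
  intro ε hε
  have h1 := (tendsto_AJ hf hf).cauchySeq
  rw [Metric.cauchySeq_iff] at h1
  obtain ⟨N, hN⟩ := h1 (ε ^ 2) (by positivity)
  refine ⟨N, fun J hJ J' hJ' => ?_⟩
  have key : ∀ J J' : ℕ, N ≤ J → N ≤ J' → J ≤ J' → dist (vec J f) (vec J' f) < ε := by
    intro J J' hJ hJ' hle
    rw [dist_eq_norm]
    have h2 := AJ_symm_norm hf hle
    have h3 := hN J' hJ' J hJ
    rw [Real.dist_eq] at h3
    have h4 : ‖vec J f - vec J' f‖ ^ 2 < ε ^ 2 := by
      rw [h2]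
      exact (le_abs_self _).trans_lt h3
    exact lt_of_pow_lt_pow_left₀ 2 hε.le h4
  rcases le_total J J' with h | h
  · exact key J J' hJ hJ' h
  · rw [dist_comm]
    exact key J' J hJ' hJ h

open Classical in
/-- the vector representing `f` -/
noncomputable def hv (f : ℝ → ℝ) : HH :=
  if hf : IsTest (Set.Icc 0 1) f then
    Classical.choose (cauchySeq_tendsto_of_complete (cauchy_vec hf)) else 0

lemma tendsto_vec {f : ℝ → ℝ} (hf : IsTest (Set.Icc 0 1) f) :
    Tendsto (fun J => vec J f) atTop (𝓝 (hv f)) := by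
  unfold hv
  rw [dif_pos hf]
  exact Classical.choose_spec (cauchySeq_tendsto_of_complete (cauchy_vec hf))

lemma inner_hv {f g : ℝ → ℝ} (hf : IsTest (Set.Icc 0 1) f) (hg : IsTest (Set.Icc 0 1) g) :
    (inner ℝ (hv f) (hv g) : ℝ) = ∫ u, ∫ v, f u * g v * Real.log (1 / |u - v|) := by
  have h1 : Tendsto (fun J => (inner ℝ (vec J f) (vec J g) : ℝ)) atTop (𝓝 (inner ℝ (hv f) (hv g) : ℝ)) :=
    (tendsto_vec hf).inner (tendsto_vec hg)
  have h2 := h1.congr fun J => inner_vec hf hg (le_refl J)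
  exact tendsto_nhds_unique h2 (tendsto_AJ hf hg)

end LogField

open Pool.Agent.helper9.GMC in
theorem exists_logField : ∃ (Ω : Type) (_ : MeasurableSpace Ω) (P : Measure Ω)
    (_ : IsProbabilityMeasure P) (W : (ℝ → ℝ) → Ω → ℝ), IsLogField P (Set.Icc 0 1) W := by
  obtain ⟨w, W, hW⟩ := exists_isonormal (Lp ℝ 2 (volume : Measure (ℝ × ℝ)))
  refine ⟨w → ℝ, inferInstance, PP w, inferInstance, fun f ω => W (LogField.hv f) ω, ?_, ?_, ?_⟩
  · exact process_W W hW (fun f : {f : ℝ → ℝ // IsTest (Set.Icc 0 1) f} => LogField.hv f)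
  · intro f _
    exact integral_W W hW _
  · intro f g hf hg
    have h1 := cov_W W hW (LogField.hv f) (LogField.hv g)
    rw [LogField.inner_hv hf hg] at h1
    exact h1

end Pool.Agent.helper95.GMC
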