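import Mathlib
import Pool.Agent.helper95.GMC.Defs

/-!
# Killed Gaussian random walk (module W for MP_d68443_pr)
-/

open MeasureTheory ProbabilityTheory Filter Topology Set
open scoped ENNReal NNReal

namespace Pool.Agent.helper95.GMC

/-- the step variance -/
noncomputable def vv : ℝ≥0 := ⟨Real.log 2, (Real.log_pos one_lt_two).le⟩

lemma vv_coe : (vv : ℝ) = Real.log 2 := rfl

lemma vv_pos : (0 : ℝ) < (vv : ℝ) := Real.log_pos one_lt_two

lemma vv_ne : vv ≠ 0 := by
  intro h
  have := vv_pos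
  rw [h] at this
  simp at this

lemma phi_eq (s : ℝ) : phi s = gaussianPDF 0 vv s := rfl

@[fun_prop]
lemma phi_meas : Measurable phi := measurable_gaussianPDF 0 vv

lemma phi_neg (s : ℝ) : phi (-s) = phi s := by
  simp only [phi_eq, gaussianPDF, gaussianPDFReal]
  norm_num

lemma phi_sub_comm (a b : ℝ) : phi (a - b) = phi (b - a) := by
  rw [← phi_neg, neg_sub]

/-- the Gaussian law of the step -/
noncomputable def gm : Measure ℝ := gaussianReal 0 vv

instance : IsProbabilityMeasure gm := by unfold gm; infer_instance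

lemma gm_eq : gm = volume.withDensity phi := by
  unfold gm
  rw [gaussianReal_of_var_ne_zero _ vv_ne]
  rfl

lemma lintegral_gm {f : ℝ → ℝ≥0∞} (hf : Measurable f) :
    ∫⁻ s, f s ∂gm = ∫⁻ s, f s * phi s := by
  rw [gm_eq, lintegral_withDensity_eq_lintegral_mul _ phi_meas hf]
  simp [mul_comm]

lemma lintegral_phi : ∫⁻ s, phi s = 1 := by
  have := lintegral_gm (f := fun _ => 1) measurable_const
  simpa using this.symm

/-- unconstrained step -/
noncomputable def Pk (f : ℝ → ℝ≥0∞) : ℝ → ℝ≥0∞ := fun u => ∫⁻ s, f (u + s) ∂gm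

lemma Pk_eq {f : ℝ → ℝ≥0∞} (hf : Measurable f) (u : ℝ) :
    Pk f u = ∫⁻ w, f w * phi (u - w) := by
  unfold Pk
  rw [lintegral_gm (by fun_prop)]
  rw [← lintegral_add_left_eq_self (fun w => f w * phi (u - w)) u]
  refine lintegral_congr fun s => ?_
  rw [← phi_neg s]
  congr 2
  ring

lemma Tk_eq {f : ℝ → ℝ≥0∞} (hf : Measurable f) (u : ℝ) :
    Tk f u = Pk ((Ici (0:ℝ)).indicator f) u := by
  rw [Pk_eq (hf.indicator measurableSet_Ici)]
  unfold Tk
  rw [← lintegral_indicator measurableSet_Ici]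
  refine lintegral_congr fun w => ?_
  by_cases hw : w ∈ Ici (0:ℝ)
  · simp [hw]
  · simp [hw]

@[fun_prop]
lemma Pk_meas {f : ℝ → ℝ≥0∞} (hf : Measurable f) : Measurable (Pk f) := by
  unfold Pk
  exact Measurable.lintegral_prod_right (f := fun u s => f (u + s))
    (hf.comp (measurable_fst.add measurable_snd))

@[fun_prop]
lemma Tk_meas {f : ℝ → ℝ≥0∞} (hf : Measurable f) : Measurable (Tk f) := by
  have : Tk f = Pk ((Ici (0:ℝ)).indicator f) := funext (Tk_eq hf)
  rw [this]
  exact Pk_meas (hf.indicator measurableSet_Ici)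

lemma Tk_iter_meas {f : ℝ → ℝ≥0∞} (hf : Measurable f) (k : ℕ) : Measurable (Tk^[k] f) := by
  induction k with
  | zero => simpa
  | succ k ih => rw [Function.iterate_succ_apply']; exact Tk_meas ih

lemma Pk_iter_meas {f : ℝ → ℝ≥0∞} (hf : Measurable f) (k : ℕ) : Measurable (Pk^[k] f) := by
  induction k with
  | zero => simpa
  | succ k ih => rw [Function.iterate_succ_apply']; exact Pk_meas ih

lemma pk_meas (k : ℕ) : Measurable (pk k) := Tk_iter_meas measurable_const k

lemma pk_zero (u : ℝ) : pk 0 u = 1 := rfl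

lemma pk_succ (k : ℕ) (u : ℝ) : pk (k + 1) u = Tk (pk k) u := by
  unfold pk
  rw [Function.iterate_succ_apply']

/-- `Tk` only sees the values on `[0,∞)` -/
lemma Tk_congr {f g : ℝ → ℝ≥0∞} (h : ∀ w, 0 ≤ w → f w = g w) : Tk f = Tk g := by
  funext u
  unfold Tk
  refine setLIntegral_congr_fun measurableSet_Ici fun w hw => ?_
  rw [h w hw]

lemma Tk_mono {f g : ℝ → ℝ≥0∞} (h : ∀ w, 0 ≤ w → f w ≤ g w) (u : ℝ) : Tk f u ≤ Tk g u := by
  unfold Tk
  refine setLIntegral_mono' measurableSet_Ici fun w hw => ?_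
  gcongr
  exact h w hw

lemma Tk_iter_mono {f g : ℝ → ℝ≥0∞} (h : ∀ w, 0 ≤ w → f w ≤ g w) (k : ℕ) (u : ℝ) (hu : 0 ≤ u) :
    (Tk^[k] f) u ≤ (Tk^[k] g) u := by
  induction k generalizing u with
  | zero => simpa using h u hu
  | succ k ih =>
    rw [Function.iterate_succ_apply', Function.iterate_succ_apply']
    exact Tk_mono (fun w hw => ih w hw) u

lemma Tk_le_Pk {f : ℝ → ℝ≥0∞} (hf : Measurable f) (u : ℝ) : Tk f u ≤ Pk f u := by
  rw [Pk_eq hf]
  unfold Tk
  exact setLIntegral_le_lintegral _ _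

lemma Pk_mono {f g : ℝ → ℝ≥0∞} (h : ∀ w, f w ≤ g w) (u : ℝ) : Pk f u ≤ Pk g u :=
  lintegral_mono fun _ => h _

lemma Tk_iter_le_Pk_iter {f : ℝ → ℝ≥0∞} (hf : Measurable f) (k : ℕ) (u : ℝ) :
    (Tk^[k] f) u ≤ (Pk^[k] f) u := by
  induction k generalizing u with
  | zero => simp
  | succ k ih =>
    rw [Function.iterate_succ_apply', Function.iterate_succ_apply']
    calc Tk (Tk^[k] f) u ≤ Pk (Tk^[k] f) u := Tk_le_Pk (Tk_iter_meas hf k) u
      _ ≤ _ := Pk_mono ih u

/-- explicit form of the unconstrained iterates -/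
lemma Pk_iter_eq {f : ℝ → ℝ≥0∞} (hf : Measurable f) (k : ℕ) (u : ℝ) :
    (Pk^[k] f) u = ∫⁻ s, f (u + s) ∂(gaussianReal 0 (k * vv)) := by
  induction k generalizing u with
  | zero => simp
  | succ k ih =>
    rw [Function.iterate_succ_apply']
    have h1 : gaussianReal 0 ((k + 1 : ℕ) * vv) = (gaussianReal 0 vv) ∗ (gaussianReal 0 (k * vv)) := by
      rw [gaussianReal_conv_gaussianReal]
      congr 1
      · simp
      · push_cast; ring
    rw [h1, Measure.lintegral_conv (by fun_prop)]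
    unfold Pk
    refine lintegral_congr fun s => ?_
    have := ih (u + s)
    unfold Pk at this
    rw [this]
    refine lintegral_congr fun t => ?_
    rw [add_assoc]

/-- sup bound for the unconstrained iterates -/
lemma Pk_iter_le_int {f : ℝ → ℝ≥0∞} (hf : Measurable f) (k : ℕ) (hk : 1 ≤ k) (u : ℝ) :
    (Pk^[k] f) u ≤ ENNReal.ofReal ((√(2 * Real.pi * (k * Real.log 2)))⁻¹) * ∫⁻ w, f w := by
  rw [Pk_iter_eq hf]
  have hv : (k : ℝ≥0) * vv ≠ 0 := by
    have : (k : ℝ≥0) ≠ 0 := by exact_mod_cast (by omega : k ≠ 0)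
    exact mul_ne_zero this vv_ne
  rw [gaussianReal_of_var_ne_zero _ hv,
    lintegral_withDensity_eq_lintegral_mul _ (measurable_gaussianPDF _ _) (by fun_prop)]
  rw [← lintegral_add_left_eq_self f u, ← lintegral_const_mul _ (by fun_prop)]
  refine lintegral_mono fun s => ?_
  simp only [Pi.mul_apply]
  gcongr
  unfold gaussianPDF gaussianPDFReal
  refine ENNReal.ofReal_le_ofReal ?_
  have hvc : (((k : ℝ≥0) * vv : ℝ≥0) : ℝ) = k * Real.log 2 := by
    push_cast
    rw [vv_coe]
  rw [hvc]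
  have h1 : Real.exp (-(s - 0) ^ 2 / (2 * (k * Real.log 2))) ≤ 1 := by
    rw [Real.exp_le_one_iff]
    have : 0 ≤ (s - 0) ^ 2 / (2 * (k * Real.log 2)) := by
      have := Real.log_pos one_lt_two
      positivity
    rw [neg_div]
    linarith
  have h2 : 0 ≤ (√(2 * Real.pi * (k * Real.log 2)))⁻¹ := by positivity
  nlinarith

lemma rearr {a b c d : ℝ≥0∞} (h : a ≤ b) (h' : c ≤ d) : a * d + b * c ≤ a * c + b * d := by
  obtain ⟨e, rfl⟩ := exists_add_of_le h
  calc a * d + (a + e) * c = (a * d + a * c) + e * c := by ring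
    _ ≤ (a * d + a * c) + e * d := by gcongr
    _ = _ := by ring

/-- Chebyshev association inequality -/
lemma assoc {μ : Measure ℝ} [IsProbabilityMeasure μ] {f g : ℝ → ℝ≥0∞} (hf : Monotone f)
    (hg : Monotone g) : (∫⁻ x, f x ∂μ) * (∫⁻ x, g x ∂μ) ≤ ∫⁻ x, f x * g x ∂μ := by
  have hfm : Measurable f := hf.measurable
  have hgm : Measurable g := hg.measurable
  have key : ∀ x y, f x * g y + f y * g x ≤ f x * g x + f y * g y := by
    intro x y
    rcases le_total x y with h | h
    · exact rearr (hf h) (hg h)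
    · have := rearr (hf h) (hg h)
      rw [add_comm (f x * g y), add_comm (f x * g x)]
      exact this
  have h2 : ∫⁻ x, ∫⁻ y, (f x * g y + f y * g x) ∂μ ∂μ ≤
      ∫⁻ x, ∫⁻ y, (f x * g x + f y * g y) ∂μ ∂μ :=
    lintegral_mono fun x => lintegral_mono fun y => key x y
  have hl : ∫⁻ x, ∫⁻ y, (f x * g y + f y * g x) ∂μ ∂μ =
      2 * ((∫⁻ x, f x ∂μ) * (∫⁻ x, g x ∂μ)) := by
    have : ∀ x, ∫⁻ y, (f x * g y + f y * g x) ∂μ =
        f x * (∫⁻ y, g y ∂μ) + (∫⁻ y, f y ∂μ) * g x := by
      intro x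
      rw [lintegral_add_left (by fun_prop), lintegral_const_mul _ hgm, lintegral_mul_const _ hfm]
    simp_rw [this]
    rw [lintegral_add_left (by fun_prop), lintegral_mul_const _ hfm, lintegral_const_mul _ hgm]
    ring
  have hr : ∫⁻ x, ∫⁻ y, (f x * g x + f y * g y) ∂μ ∂μ =
      2 * ∫⁻ x, f x * g x ∂μ := by
    have : ∀ x, ∫⁻ y, (f x * g x + f y * g y) ∂μ =
        f x * g x + (∫⁻ y, f y * g y ∂μ) := by
      intro x
      rw [lintegral_add_left (by fun_prop)]
      simp
    simp_rw [this]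
    rw [lintegral_add_left (by fun_prop)]
    simp only [lintegral_const, measure_univ, mul_one]
    ring
  rw [hl, hr] at h2
  exact (ENNReal.mul_le_mul_iff_right (by simp) (by simp)).1 h2

/-! ### the superharmonic function `w + C` -/

lemma pdf_int (u : ℝ) : Integrable (fun w => gaussianPDFReal u vv w * w) := by
  have h : Integrable (fun x : ℝ => x) (gaussianReal u vv) := by
    have := memLp_id_gaussianReal' (μ := u) (v := vv) 1 (by simp)
    exact this.integrable le_rfl
  rw [gaussianReal_of_var_ne_zero _ vv_ne, integrable_withDensity_iff_integrable_smul'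
    (measurable_gaussianPDF _ _) (ae_of_all _ fun _ => gaussianPDF_lt_top)] at h
  simpa using h

lemma pdf_int2 (u C : ℝ) : Integrable (fun w => gaussianPDFReal u vv w * (w + C)) := by
  have h1 := pdf_int u
  have h2 := (integrable_gaussianPDFReal u vv).mul_const C
  refine (h1.add h2).congr (ae_of_all _ fun w => ?_)
  simp only [Pi.add_apply]
  ring

lemma pdf_integral (u C : ℝ) : ∫ w, gaussianPDFReal u vv w * (w + C) = u + C := by
  have h1 : ∫ w, gaussianPDFReal u vv w * w = u := by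
    have := integral_id_gaussianReal (μ := u) (v := vv)
    rw [integral_gaussianReal_eq_integral_smul vv_ne] at this
    simpa using this
  have h2 := integral_gaussianPDFReal_eq_one u vv_ne
  have : ∀ w, gaussianPDFReal u vv w * (w + C) =
      gaussianPDFReal u vv w * w + gaussianPDFReal u vv w * C := fun w => by ring
  simp_rw [this]
  rw [integral_add (pdf_int u) ((integrable_gaussianPDFReal u vv).mul_const C), h1,
    integral_mul_const, h2]
  ring

lemma pdf_shift (u w : ℝ) : gaussianPDFReal u vv w =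
    gaussianPDFReal 0 vv w * (Real.exp (-u ^ 2 / (2 * vv)) * Real.exp (u * w / vv)) := by
  unfold gaussianPDFReal
  rw [← Real.exp_add, mul_assoc (√(2 * Real.pi * vv))⁻¹, ← Real.exp_add]
  congr 2
  have := vv_pos
  field_simp
  ring

lemma neg_part_nonneg (C : ℝ) (hC : 0 ≤ ∫ w in Iio (0:ℝ), gaussianPDFReal 0 vv w * (w + C))
    (u : ℝ) (hu : 0 ≤ u) : 0 ≤ ∫ w in Iio (0:ℝ), gaussianPDFReal u vv w * (w + C) := by
  set K : ℝ := Real.exp (-u ^ 2 / (2 * vv)) * Real.exp (u * (-C) / vv) with hK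
  have hK0 : 0 ≤ K := by positivity
  calc (0:ℝ) ≤ K * ∫ w in Iio (0:ℝ), gaussianPDFReal 0 vv w * (w + C) := mul_nonneg hK0 hC
    _ = ∫ w in Iio (0:ℝ), K * (gaussianPDFReal 0 vv w * (w + C)) := by
        rw [integral_const_mul]
    _ ≤ _ := by
        refine setIntegral_mono_on ((pdf_int2 0 C).integrableOn.const_mul K)
          (pdf_int2 u C).integrableOn measurableSet_Iio fun w _ => ?_
        rw [pdf_shift u w, hK]
        have h0 := gaussianPDFReal_nonneg 0 vv w
        have hv := vv_pos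
        have h1 : (w + C) * Real.exp (u * (-C) / vv) ≤ (w + C) * Real.exp (u * w / vv) := by
          rcases le_total 0 (w + C) with h | h
          · gcongr
            linarith
          · apply mul_le_mul_of_nonpos_left _ h
            gcongr
            linarith
        have h2 : 0 ≤ gaussianPDFReal 0 vv w * Real.exp (-u ^ 2 / (2 * vv)) := by positivity
        nlinarith [mul_le_mul_of_nonneg_left h1 h2]

lemma exists_C : ∃ C : ℝ, 0 ≤ C ∧ 0 ≤ ∫ w in Iio (0:ℝ), gaussianPDFReal 0 vv w * (w + C) := by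
  set a : ℝ := ∫ w in Iio (0:ℝ), gaussianPDFReal 0 vv w * w
  set b : ℝ := ∫ w in Iio (0:ℝ), gaussianPDFReal 0 vv w
  have hb : 0 < b := by
    refine (setIntegral_pos_iff_support_of_nonneg_ae (ae_of_all _ fun w =>
      gaussianPDFReal_nonneg 0 vv w) (integrable_gaussianPDFReal 0 vv).integrableOn).2 ?_
    have : Function.support (gaussianPDFReal 0 vv) = univ := by
      ext w
      simp [(gaussianPDFReal_pos 0 vv w vv_ne).ne']
    rw [this]
    simp
  refine ⟨|a| / b, by positivity, ?_⟩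
  have : ∀ w, gaussianPDFReal 0 vv w * (w + |a| / b) =
      gaussianPDFReal 0 vv w * w + gaussianPDFReal 0 vv w * (|a| / b) := fun w => by ring
  simp_rw [this]
  rw [integral_add (pdf_int 0).integrableOn
    ((integrable_gaussianPDFReal 0 vv).mul_const _).integrableOn, integral_mul_const]
  change 0 ≤ a + b * (|a| / b)
  have : b * (|a| / b) = |a| := by field_simp
  rw [this]
  linarith [neg_abs_le a]

lemma superharm : ∃ C : ℝ, 0 ≤ C ∧ ∀ u : ℝ, 0 ≤ u →
    Tk (fun w => ENNReal.ofReal (w + C)) u ≤ ENNReal.ofReal (u + C) := by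
  obtain ⟨C, hC0, hC⟩ := exists_C
  refine ⟨C, hC0, fun u hu => ?_⟩
  have h1 := neg_part_nonneg C hC u hu
  have h2 := pdf_integral u C
  have h3 : ∫ w in Ici (0:ℝ), gaussianPDFReal u vv w * (w + C) ≤ u + C := by
    have := integral_add_compl (measurableSet_Ici (a := (0:ℝ))) (pdf_int2 u C)
    rw [compl_Ici, h2] at this
    linarith
  unfold Tk
  calc ∫⁻ w in Ici (0:ℝ), ENNReal.ofReal (w + C) * phi (u - w)
      = ∫⁻ w in Ici (0:ℝ), ENNReal.ofReal (gaussianPDFReal u vv w * (w + C)) := by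
        refine setLIntegral_congr_fun measurableSet_Ici fun w hw => ?_
        have hw0 : (0:ℝ) ≤ w := hw
        rw [phi_eq, ENNReal.ofReal_mul (gaussianPDFReal_nonneg _ _ _), mul_comm]
        congr 1
        unfold gaussianPDF
        congr 1
        unfold gaussianPDFReal
        congr 3
        ring
    _ = ENNReal.ofReal (∫ w in Ici (0:ℝ), gaussianPDFReal u vv w * (w + C)) := by
        rw [ofReal_integral_eq_lintegral_ofReal (pdf_int2 u C).integrableOn]
        refine (ae_restrict_iff' measurableSet_Ici).2 (ae_of_all _ fun w hw => ?_)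
        have hw0 : (0:ℝ) ≤ w := hw
        have := gaussianPDFReal_nonneg u vv w
        simp only [Pi.zero_apply]
        positivity
    _ ≤ _ := ENNReal.ofReal_le_ofReal h3

/-! ### monotonicity and association -/

lemma indicator_mono {f : ℝ → ℝ≥0∞} (hf : Monotone f) : Monotone ((Ici (0:ℝ)).indicator f) := by
  intro a b hab
  by_cases ha : a ∈ Ici (0:ℝ)
  · have hb : b ∈ Ici (0:ℝ) := le_trans ha hab
    simp only [ha, hb, indicator_of_mem]
    exact hf hab
  · simp [ha]

lemma Pk_monotone {f : ℝ → ℝ≥0∞} (hf : Monotone f) : Monotone (Pk f) := by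
  intro a b hab
  exact lintegral_mono fun s => hf (by linarith)

lemma Tk_monotone {f : ℝ → ℝ≥0∞} (hf : Monotone f) : Monotone (Tk f) := by
  have : Tk f = Pk ((Ici (0:ℝ)).indicator f) := funext (Tk_eq hf.measurable)
  rw [this]
  exact Pk_monotone (indicator_mono hf)

lemma pk_monotone (k : ℕ) : Monotone (pk k) := by
  induction k with
  | zero => exact monotone_const
  | succ k ih =>
    have : pk (k + 1) = Tk (pk k) := funext (pk_succ k)
    rw [this]
    exact Tk_monotone ih

lemma Pk_iter_monotone {f : ℝ → ℝ≥0∞} (hf : Monotone f) (k : ℕ) : Monotone (Pk^[k] f) := by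
  induction k with
  | zero => simpa
  | succ k ih => rw [Function.iterate_succ_apply']; exact Pk_monotone ih

lemma Tk_iter_ge {f : ℝ → ℝ≥0∞} (hf : Monotone f) (k : ℕ) (u : ℝ) :
    pk k u * (Pk^[k] f) u ≤ (Tk^[k] f) u := by
  induction k generalizing u with
  | zero => simp [pk_zero]
  | succ k ih =>
    rw [Function.iterate_succ_apply', Function.iterate_succ_apply', pk_succ]
    calc Tk (pk k) u * Pk (Pk^[k] f) u
        = (∫⁻ s, (Ici (0:ℝ)).indicator (pk k) (u + s) ∂gm) * (∫⁻ s, (Pk^[k] f) (u + s) ∂gm) := by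
          rw [Tk_eq (pk_meas k)]
          rfl
      _ ≤ ∫⁻ s, (Ici (0:ℝ)).indicator (pk k) (u + s) * (Pk^[k] f) (u + s) ∂gm := by
          refine assoc (f := fun s => (Ici (0:ℝ)).indicator (pk k) (u + s))
            (g := fun s => (Pk^[k] f) (u + s)) ?_ ?_
          · exact (indicator_mono (pk_monotone k)).comp (fun a b h => by simpa using h)
          · exact (Pk_iter_monotone hf k).comp (fun a b h => by simpa using h)
      _ ≤ ∫⁻ s, (Ici (0:ℝ)).indicator (Tk^[k] f) (u + s) ∂gm := by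
          refine lintegral_mono fun s => ?_
          by_cases h : u + s ∈ Ici (0:ℝ)
          · simp only [h, indicator_of_mem]
            exact ih (u + s)
          · simp [h]
      _ = _ := by
          rw [Tk_eq (Tk_iter_meas hf.measurable k)]
          rfl

/-! ### the survival bound -/

lemma posm_ne_zero : ∫⁻ s, ENNReal.ofReal s ∂gm ≠ 0 := by
  intro h
  rw [lintegral_eq_zero_iff (by fun_prop)] at h
  have h1 : ∀ᵐ s ∂(volume : Measure ℝ), ENNReal.ofReal s = 0 := by
    have := gaussianReal_absolutelyContinuous' 0 vv_ne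
    exact this.ae_le h
  have h2 : volume (Ioi (0:ℝ)) = 0 := by
    refine measure_mono_null (fun x hx => ?_) (ae_iff.1 h1)
    simpa using hx
  simp at h2

lemma Pk_iter_ofReal_ge (k : ℕ) (u : ℝ) (hu : 0 ≤ u) :
    ENNReal.ofReal (√k) * ∫⁻ s, ENNReal.ofReal s ∂gm ≤ (Pk^[k] ENNReal.ofReal) u := by
  rw [Pk_iter_eq (by fun_prop)]
  have h1 : gaussianReal 0 (k * vv) = gm.map (fun x => √k * x) := by
    unfold gm
    rw [gaussianReal_map_const_mul]
    congr 1
    · simp
    · ext
      simp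
  rw [h1, lintegral_map (by fun_prop) (by fun_prop), ← lintegral_const_mul _ (by fun_prop)]
  refine lintegral_mono fun s => ?_
  rw [← ENNReal.ofReal_mul (by positivity)]
  exact ENNReal.ofReal_le_ofReal (by linarith)

theorem pk_le : ∃ C : ℝ≥0, ∀ (k : ℕ) (u : ℝ), 0 ≤ u →
    pk k u ≤ C * ENNReal.ofReal ((1 + u) / √(k + 1)) := by
  obtain ⟨C, hC0, hC⟩ := superharm
  set m : ℝ≥0∞ := ∫⁻ s, ENNReal.ofReal s ∂gm with hm
  have hm0 : m ≠ 0 := posm_ne_zero
  -- survival probabilities are at most one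
  have hle1 : ∀ (k : ℕ) (u : ℝ), pk k u ≤ 1 := by
    intro k u
    unfold pk
    refine (Tk_iter_le_Pk_iter measurable_const k u).trans ?_
    rw [Pk_iter_eq measurable_const]
    simp
  -- iterates of the superharmonic function
  have hit : ∀ (k : ℕ) (u : ℝ), 0 ≤ u →
      (Tk^[k] (fun w => ENNReal.ofReal (w + C))) u ≤ ENNReal.ofReal (u + C) := by
    intro k
    induction k with
    | zero => intro u _; simp
    | succ k ih =>
      intro u hu
      rw [Function.iterate_succ_apply']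
      exact (Tk_mono (fun w hw => ih w hw) u).trans (hC u hu)
  have hmain : ∀ (k : ℕ) (u : ℝ), 0 ≤ u →
      pk k u * (ENNReal.ofReal (√k) * m) ≤ ENNReal.ofReal (u + C) := by
    intro k u hu
    calc pk k u * (ENNReal.ofReal (√k) * m) ≤ pk k u * (Pk^[k] ENNReal.ofReal) u := by
          gcongr
          exact Pk_iter_ofReal_ge k u hu
      _ ≤ (Tk^[k] ENNReal.ofReal) u := Tk_iter_ge (fun a b h => ENNReal.ofReal_le_ofReal h) k u
      _ ≤ (Tk^[k] (fun w => ENNReal.ofReal (w + C))) u := by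
          refine Tk_iter_mono (fun w hw => ?_) k u hu
          exact ENNReal.ofReal_le_ofReal (by linarith)
      _ ≤ _ := hit k u hu
  -- a positive real lower bound for `m`
  obtain ⟨c, hc0, hcm⟩ : ∃ c : ℝ, 0 < c ∧ ENNReal.ofReal c ≤ m := by
    obtain ⟨c, hc1, hc2⟩ := ENNReal.lt_iff_exists_nnreal_btwn.1 (pos_iff_ne_zero.2 hm0)
    refine ⟨c, ?_, ?_⟩
    · exact_mod_cast hc1
    · simpa using hc2.le
  refine ⟨Real.toNNReal (1 + (1 + C) * 2 / c), fun k u hu => ?_⟩
  rw [show ((Real.toNNReal (1 + (1 + C) * 2 / c) : ℝ≥0) : ℝ≥0∞) =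
    ENNReal.ofReal (1 + (1 + C) * 2 / c) from rfl, ← ENNReal.ofReal_mul (by positivity)]
  have hpt : pk k u ≠ ⊤ := ne_top_of_le_ne_top ENNReal.one_ne_top (hle1 k u)
  rw [← ENNReal.ofReal_toReal hpt]
  refine ENNReal.ofReal_le_ofReal ?_
  have h1 : (pk k u).toReal ≤ 1 := by
    have := ENNReal.toReal_mono ENNReal.one_ne_top (hle1 k u)
    simpa using this
  have h2 : (pk k u).toReal * (√k * c) ≤ u + C := by
    have h3 : pk k u * (ENNReal.ofReal (√k) * ENNReal.ofReal c) ≤ ENNReal.ofReal (u + C) := by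
      refine le_trans ?_ (hmain k u hu)
      gcongr
    have h4 := ENNReal.toReal_mono ENNReal.ofReal_ne_top h3
    rw [ENNReal.toReal_mul, ENNReal.toReal_mul, ENNReal.toReal_ofReal (by positivity),
      ENNReal.toReal_ofReal hc0.le, ENNReal.toReal_ofReal (by positivity)] at h4
    exact h4
  have h0 : 0 ≤ (pk k u).toReal := ENNReal.toReal_nonneg
  rcases Nat.eq_zero_or_pos k with rfl | hk
  · simp only [Nat.cast_zero, zero_add, Real.sqrt_one, div_one]
    have : 0 ≤ (1 + C) * 2 / c := by positivity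
    nlinarith
  · have hk1 : (1:ℝ) ≤ k := by exact_mod_cast hk
    have hs1 : √((k:ℝ) + 1) ≤ 2 * √k := by
      rw [Real.sqrt_le_left (by positivity), mul_pow, Real.sq_sqrt (by positivity)]
      linarith
    have hs0 : 0 < √((k:ℝ) + 1) := by positivity
    have hsk : 0 < √(k:ℝ) := by positivity
    rw [mul_div_assoc', le_div_iff₀ hs0]
    have h5 : (pk k u).toReal * √((k:ℝ) + 1) ≤ (pk k u).toReal * (2 * √k) := by gcongr
    have h6 : (pk k u).toReal * (2 * √k) ≤ 2 * (u + C) / c := by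
      rw [le_div_iff₀ hc0]
      linarith
    have h7 : 2 * (u + C) / c ≤ (1 + (1 + C) * 2 / c) * (1 + u) := by
      rw [div_le_iff₀ hc0]
      have : (1 + (1 + C) * 2 / c) * (1 + u) * c = (c + (1 + C) * 2) * (1 + u) := by
        field_simp
      rw [this]
      nlinarith [mul_nonneg hC0 hu]
    linarith

/-! ### symmetry and the ballot bound -/

lemma Tk_symm {f g : ℝ → ℝ≥0∞} (hf : Measurable f) (hg : Measurable g) :
    ∫⁻ u in Ici (0:ℝ), g u * Tk f u = ∫⁻ w in Ici (0:ℝ), f w * Tk g w := by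
  unfold Tk
  have h1 : ∀ u, g u * ∫⁻ w in Ici (0:ℝ), f w * phi (u - w) =
      ∫⁻ w in Ici (0:ℝ), g u * (f w * phi (u - w)) := fun u => by
    rw [lintegral_const_mul _ (by fun_prop)]
  have h2 : ∀ u, f u * ∫⁻ w in Ici (0:ℝ), g w * phi (u - w) =
      ∫⁻ w in Ici (0:ℝ), f u * (g w * phi (u - w)) := fun u => by
    rw [lintegral_const_mul _ (by fun_prop)]
  simp_rw [h1, h2]
  rw [lintegral_lintegral_swap (by fun_prop)]
  refine lintegral_congr fun w => lintegral_congr fun u => ?_
  rw [phi_sub_comm u w]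
  ring

lemma Tk_iter_symm {f g : ℝ → ℝ≥0∞} (hf : Measurable f) (hg : Measurable g) (k : ℕ) :
    ∫⁻ u in Ici (0:ℝ), g u * (Tk^[k] f) u = ∫⁻ w in Ici (0:ℝ), f w * (Tk^[k] g) w := by
  induction k generalizing g with
  | zero =>
    simp only [Function.iterate_zero, id_eq]
    exact lintegral_congr fun w => mul_comm _ _
  | succ k ih =>
    rw [Function.iterate_succ_apply', Tk_symm (Tk_iter_meas hf k) hg]
    rw [show (∫⁻ w in Ici (0:ℝ), (Tk^[k] f) w * Tk g w) =
      ∫⁻ w in Ici (0:ℝ), Tk g w * (Tk^[k] f) w from lintegral_congr fun w => mul_comm _ _]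
    rw [ih (Tk_meas hg), Function.iterate_succ_apply]

lemma lintegral_Tk_iter {f : ℝ → ℝ≥0∞} (hf : Measurable f) (k : ℕ) :
    ∫⁻ u in Ici (0:ℝ), (Tk^[k] f) u = ∫⁻ w in Ici (0:ℝ), f w * pk k w := by
  have := Tk_iter_symm hf (measurable_const (a := (1:ℝ≥0∞))) k
  simp only [one_mul] at this
  exact this

lemma Tk_iter_le_int {f : ℝ → ℝ≥0∞} (hf : Measurable f) (k : ℕ) (hk : 1 ≤ k) (u : ℝ)
    (hu : 0 ≤ u) :
    (Tk^[k] f) u ≤ ENNReal.ofReal ((√(2 * Real.pi * (k * Real.log 2)))⁻¹) *
      ∫⁻ w in Ici (0:ℝ), f w := by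
  calc (Tk^[k] f) u ≤ (Tk^[k] ((Ici (0:ℝ)).indicator f)) u := by
        refine Tk_iter_mono (fun w hw => ?_) k u hu
        have : w ∈ Ici (0:ℝ) := hw
        simp [this]
    _ ≤ (Pk^[k] ((Ici (0:ℝ)).indicator f)) u :=
        Tk_iter_le_Pk_iter (hf.indicator measurableSet_Ici) k u
    _ ≤ _ := Pk_iter_le_int (hf.indicator measurableSet_Ici) k hk u
    _ = _ := by rw [lintegral_indicator measurableSet_Ici]

lemma Tk_const_mul {f : ℝ → ℝ≥0∞} (hf : Measurable f) (c : ℝ≥0∞) (u : ℝ) :
    Tk (fun w => c * f w) u = c * Tk f u := by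
  unfold Tk
  rw [← lintegral_const_mul _ (by fun_prop)]
  refine lintegral_congr fun w => ?_
  ring

lemma Tk_iter_const (k : ℕ) (c : ℝ≥0∞) (u : ℝ) : (Tk^[k] (fun _ => c)) u = c * pk k u := by
  induction k generalizing u with
  | zero => simp [pk_zero]
  | succ k ih =>
    rw [Function.iterate_succ_apply', pk_succ, ← Tk_const_mul (pk_meas k)]
    congr 1
    funext w
    exact ih w

theorem Tk_iter_le : ∃ C : ℝ≥0, ∀ (k : ℕ), 1 ≤ k → ∀ (f : ℝ → ℝ≥0∞), Measurable f →
    ∀ u : ℝ, 0 ≤ u →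
    (Tk^[k] f) u ≤ C * ENNReal.ofReal ((1 + u) / ((k : ℝ) * √k)) *
      ∫⁻ w in Set.Ici (0 : ℝ), f w * ENNReal.ofReal (1 + w) := by
  obtain ⟨C, hC⟩ := pk_le
  refine ⟨C * C * 9, fun k hk f hf u hu => ?_⟩
  set a := k / 3 with ha
  set b := k - 2 * (k / 3) with hb
  have hk3 : k = a + (b + a) := by omega
  have hb1 : 1 ≤ b := by omega
  have hkR : (1:ℝ) ≤ k := by exact_mod_cast hk
  have ha3 : (k:ℝ) ≤ 3 * (a + 1) := by
    have : k ≤ 3 * (a + 1) := by omega
    exact_mod_cast this
  have hb3 : (k:ℝ) ≤ 3 * b := by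
    have : k ≤ 3 * b := by omega
    exact_mod_cast this
  set F : ℝ≥0∞ := ∫⁻ w in Set.Ici (0 : ℝ), f w * ENNReal.ofReal (1 + w) with hF
  have hs1 : (0:ℝ) < √((a:ℝ) + 1) := by positivity
  -- the inner factor
  have h1 : ∫⁻ w in Ici (0:ℝ), (Tk^[a] f) w ≤
      C * ENNReal.ofReal (1 / √((a:ℝ) + 1)) * F := by
    rw [lintegral_Tk_iter hf a, hF, ← lintegral_const_mul _ (by fun_prop)]
    refine setLIntegral_mono' measurableSet_Ici fun w hw => ?_
    have hw0 : (0:ℝ) ≤ w := hw
    calc f w * pk a w ≤ f w * (C * ENNReal.ofReal ((1 + w) / √((a:ℝ) + 1))) := by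
          gcongr
          exact hC a w hw
      _ = _ := by
          rw [show (1 + w) / √((a:ℝ) + 1) = (1 / √((a:ℝ) + 1)) * (1 + w) by ring,
            ENNReal.ofReal_mul (by positivity)]
          ring
  -- the middle factor
  have h2 : ∀ w, 0 ≤ w → (Tk^[b] (Tk^[a] f)) w ≤
      ENNReal.ofReal ((√(2 * Real.pi * (b * Real.log 2)))⁻¹) *
        (C * ENNReal.ofReal (1 / √((a:ℝ) + 1)) * F) := by
    intro w hw
    refine (Tk_iter_le_int (Tk_iter_meas hf a) b hb1 w hw).trans ?_
    gcongr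
  have h3 : (Tk^[k] f) u ≤ (ENNReal.ofReal ((√(2 * Real.pi * (b * Real.log 2)))⁻¹) *
        (C * ENNReal.ofReal (1 / √((a:ℝ) + 1)) * F)) * pk a u := by
    rw [hk3, Function.iterate_add_apply, Function.iterate_add_apply, ← Tk_iter_const]
    exact Tk_iter_mono h2 a u hu
  have h4 : (Tk^[k] f) u ≤ (ENNReal.ofReal ((√(2 * Real.pi * (b * Real.log 2)))⁻¹) *
        (C * ENNReal.ofReal (1 / √((a:ℝ) + 1)) * F)) *
        (C * ENNReal.ofReal ((1 + u) / √((a:ℝ) + 1))) := by
    refine h3.trans ?_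
    gcongr
    exact hC a u hu
  refine h4.trans ?_
  have h5 : ENNReal.ofReal ((√(2 * Real.pi * (b * Real.log 2)))⁻¹) *
      ENNReal.ofReal (1 / √((a:ℝ) + 1)) * ENNReal.ofReal ((1 + u) / √((a:ℝ) + 1)) ≤
      9 * ENNReal.ofReal ((1 + u) / ((k : ℝ) * √k)) := by
    rw [← ENNReal.ofReal_mul (by positivity), ← ENNReal.ofReal_mul (by positivity),
      show (9:ℝ≥0∞) = ENNReal.ofReal 9 by simp, ← ENNReal.ofReal_mul (by norm_num)]
    refine ENNReal.ofReal_le_ofReal ?_
    have e1 : 1 / √((a:ℝ) + 1) * ((1 + u) / √((a:ℝ) + 1)) = (1 + u) / ((a:ℝ) + 1) := by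
      rw [div_mul_div_comm, Real.mul_self_sqrt (by positivity), one_mul]
    rw [mul_assoc, e1]
    have e2 : (1 + u) / ((a:ℝ) + 1) ≤ 3 * (1 + u) / k := by
      rw [div_le_div_iff₀ (by positivity) (by positivity)]
      nlinarith
    have e3 : (√(2 * Real.pi * (b * Real.log 2)))⁻¹ ≤ 3 / √k := by
      rw [inv_eq_one_div, div_le_div_iff₀ (by positivity) (by positivity), one_mul]
      have hlog : (1:ℝ) / 2 ≤ Real.log 2 := by
        have := Real.log_two_gt_d9
        linarith
      have hpi := Real.pi_gt_three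
      calc √(k:ℝ) ≤ √(3 ^ 2 * (2 * Real.pi * (b * Real.log 2))) := by
            apply Real.sqrt_le_sqrt
            have hb0 : (0:ℝ) ≤ b := by positivity
            have : (b:ℝ) * (1 / 2) ≤ b * Real.log 2 := by gcongr
            have h0 : 0 ≤ (b:ℝ) * Real.log 2 := by positivity
            nlinarith [mul_le_mul_of_nonneg_right hpi.le h0]
        _ = 3 * √(2 * Real.pi * (b * Real.log 2)) := by
            rw [Real.sqrt_mul (by norm_num), Real.sqrt_sq (by norm_num)]
    calc (√(2 * Real.pi * (b * Real.log 2)))⁻¹ * ((1 + u) / ((a:ℝ) + 1))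
        ≤ (3 / √k) * (3 * (1 + u) / k) := by gcongr
      _ = _ := by
          have : (0:ℝ) < √k := by positivity
          field_simp
          ring
  calc (ENNReal.ofReal ((√(2 * Real.pi * (b * Real.log 2)))⁻¹) *
        (C * ENNReal.ofReal (1 / √((a:ℝ) + 1)) * F)) *
        (C * ENNReal.ofReal ((1 + u) / √((a:ℝ) + 1)))
      = (C * C) * F * (ENNReal.ofReal ((√(2 * Real.pi * (b * Real.log 2)))⁻¹) *
      ENNReal.ofReal (1 / √((a:ℝ) + 1)) * ENNReal.ofReal ((1 + u) / √((a:ℝ) + 1))) := by ring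
    _ ≤ (C * C) * F * (9 * ENNReal.ofReal ((1 + u) / ((k : ℝ) * √k))) := by gcongr
    _ = _ := by
        push_cast
        ring

/-! ### decomposition at the minimum -/

lemma Tk_add {f g : ℝ → ℝ≥0∞} (hf : Measurable f) (u : ℝ) :
    Tk (fun w => f w + g w) u = Tk f u + Tk g u := by
  unfold Tk
  rw [← lintegral_add_left (by fun_prop)]
  refine lintegral_congr fun w => ?_
  ring

lemma Tk_sum {ι : Type*} (s : Finset ι) {f : ι → ℝ → ℝ≥0∞} (hf : ∀ i, Measurable (f i)) (u : ℝ) :
    Tk (fun w => ∑ i ∈ s, f i w) u = ∑ i ∈ s, Tk (f i) u := by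
  unfold Tk
  rw [← lintegral_finsetSum _ (fun i _ => by fun_prop)]
  refine lintegral_congr fun w => ?_
  rw [Finset.sum_mul]

/-- Gaussian distribution function (in `ℝ≥0∞`) -/
noncomputable def PhiF (x : ℝ) : ℝ≥0∞ := ∫⁻ y in Iic x, phi y

lemma PhiF_eq (u v : ℝ) : PhiF (u - v) = ∫⁻ w in Ici v, phi (u - w) := by
  unfold PhiF
  rw [← lintegral_indicator measurableSet_Iic, ← lintegral_indicator measurableSet_Ici,
    ← lintegral_sub_left_eq_self (fun y => (Iic (u - v)).indicator phi y) u]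
  refine lintegral_congr fun w => ?_
  by_cases hw : v ≤ w
  · rw [indicator_of_mem (show u - w ∈ Iic (u - v) by rw [mem_Iic]; linarith),
      indicator_of_mem (show w ∈ Ici v from hw)]
  · rw [indicator_of_notMem (show u - w ∉ Iic (u - v) by rw [mem_Iic]; intro h; exact hw (by linarith)),
      indicator_of_notMem (show w ∉ Ici v from hw)]

lemma PhiF_add (u v : ℝ) (hu : 0 ≤ u) :
    PhiF (u - v) = PhiF (0 - v) + ∫⁻ s in Icc 0 u, phi (s - v) := by
  unfold PhiF
  have h1 : Iic (u - v) = Iic (0 - v) ∪ Ioc (0 - v) (u - v) := by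
    rw [Iic_union_Ioc_eq_Iic (by linarith)]
  rw [h1, lintegral_union measurableSet_Ioc (by
    rw [Set.disjoint_left]; intro x hx hx'; exact absurd hx'.1 (not_lt.2 hx))]
  congr 1
  rw [restrict_Ioc_eq_restrict_Icc, ← lintegral_indicator measurableSet_Icc,
    ← lintegral_indicator measurableSet_Icc,
    ← lintegral_sub_right_eq_self (fun y => (Icc (0 - v) (u - v)).indicator phi y) v]
  refine lintegral_congr fun w => ?_
  by_cases hw : w ∈ Icc 0 u
  · rw [indicator_of_mem (by simpa using hw), indicator_of_mem hw]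
  · rw [indicator_of_notMem (by simpa using hw), indicator_of_notMem hw]

lemma Icc_int_eq {h : ℝ → ℝ≥0∞} (w : ℝ) :
    ∫⁻ v in Icc 0 w, h v = ∫⁻ v in Ici (0:ℝ), (if v ≤ w then h v else 0) := by
  rw [← lintegral_indicator measurableSet_Icc, ← lintegral_indicator measurableSet_Ici]
  refine lintegral_congr fun v => ?_
  by_cases h1 : 0 ≤ v <;> by_cases h2 : v ≤ w <;> simp [h1, h2, indicator]

lemma Tk_integral {h : ℝ → ℝ≥0∞} (hh : Measurable h) (h0 : ℝ≥0∞) (u : ℝ) :
    Tk (fun w => h0 + ∫⁻ v in Icc 0 w, h v) u =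
      h0 * PhiF u + ∫⁻ v in Ici (0:ℝ), h v * PhiF (u - v) := by
  have hm : Measurable (fun w : ℝ => ∫⁻ v in Icc 0 w, h v) := by
    simp_rw [Icc_int_eq]
    refine Measurable.lintegral_prod_right (f := fun w v => if v ≤ w then h v else 0) ?_
    refine Measurable.ite (measurableSet_le measurable_snd measurable_fst) ?_ measurable_const
    exact hh.comp measurable_snd
  have h1 : Tk (fun w => h0 + ∫⁻ v in Icc 0 w, h v) u =
      Tk (fun _ => h0) u + Tk (fun w => ∫⁻ v in Icc 0 w, h v) u := Tk_add measurable_const u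
  rw [h1]
  congr 1
  · unfold Tk
    rw [lintegral_const_mul _ (by fun_prop)]
    have := PhiF_eq u 0
    rw [sub_zero] at this
    rw [this]
  · unfold Tk
    have h2 : ∀ w, (∫⁻ v in Icc 0 w, h v) * phi (u - w) =
        ∫⁻ v in Ici (0:ℝ), (if v ≤ w then h v else 0) * phi (u - w) := by
      intro w
      rw [Icc_int_eq, lintegral_mul_const]
      exact Measurable.ite measurableSet_Iic hh measurable_const
    simp_rw [h2]
    rw [lintegral_lintegral_swap]
    · refine setLIntegral_congr_fun measurableSet_Ici fun v hv => ?_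
      have hv0 : (0:ℝ) ≤ v := hv
      rw [PhiF_eq, ← lintegral_const_mul _ (by fun_prop)]
      rw [← lintegral_indicator measurableSet_Ici, ← lintegral_indicator measurableSet_Ici]
      refine lintegral_congr fun w => ?_
      by_cases hw : v ≤ w
      · rw [indicator_of_mem (show w ∈ Ici (0:ℝ) from hv0.trans hw),
          indicator_of_mem (show w ∈ Ici v from hw)]
        simp [hw]
      · rw [indicator_of_notMem (show w ∉ Ici v from hw)]
        by_cases hw0 : w ∈ Ici (0:ℝ)
        · simp [hw0, hw]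
        · simp [hw0]
    · refine Measurable.aemeasurable ?_
      refine Measurable.mul ?_ (phi_meas.comp (measurable_const.sub measurable_fst))
      refine Measurable.ite (measurableSet_le measurable_snd measurable_fst) ?_ measurable_const
      exact hh.comp measurable_snd

lemma Tk_decomp {h : ℝ → ℝ≥0∞} (hh : Measurable h) (h0 : ℝ≥0∞) (u : ℝ) (hu : 0 ≤ u) :
    Tk (fun w => h0 + ∫⁻ v in Icc 0 w, h v) u =
      Tk (fun w => h0 + ∫⁻ v in Icc 0 w, h v) 0 +
        ∫⁻ s in Icc 0 u, (h0 * phi s + Tk h s) := by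
  rw [Tk_integral hh, Tk_integral hh]
  have e1 : PhiF u = PhiF 0 + ∫⁻ s in Icc 0 u, phi s := by
    have := PhiF_add u 0 hu
    simpa using this
  have e2 : ∫⁻ v in Ici (0:ℝ), h v * PhiF (u - v) =
      (∫⁻ v in Ici (0:ℝ), h v * PhiF (0 - v)) +
        ∫⁻ v in Ici (0:ℝ), ∫⁻ s in Icc 0 u, h v * phi (s - v) := by
    rw [← lintegral_add_right _ (by fun_prop)]
    refine lintegral_congr fun v => ?_
    rw [PhiF_add u v hu, mul_add, lintegral_const_mul _ (by fun_prop)]
  have e3 : ∫⁻ v in Ici (0:ℝ), ∫⁻ s in Icc 0 u, h v * phi (s - v) =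
      ∫⁻ s in Icc 0 u, Tk h s := by
    rw [lintegral_lintegral_swap (by fun_prop)]
    rfl
  rw [e2, e3, e1, lintegral_add_left (by fun_prop), lintegral_const_mul _ (by fun_prop), mul_add]
  ring

/-- density part in the decomposition at the minimum -/
noncomputable def Gk : ℕ → ℝ → ℝ≥0∞
  | 0 => fun _ => 0
  | (k + 1) => fun s => pk k 0 * phi s + Tk (Gk k) s

lemma Gk_meas (k : ℕ) : Measurable (Gk k) := by
  induction k with
  | zero => exact measurable_const
  | succ k ih =>
    unfold Gk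
    exact (phi_meas.const_mul _).add (Tk_meas ih)

lemma pk_decomp (k : ℕ) (u : ℝ) (hu : 0 ≤ u) : pk k u = pk k 0 + ∫⁻ v in Icc 0 u, Gk k v := by
  induction k generalizing u with
  | zero => simp [pk_zero, Gk]
  | succ k ih =>
    have h1 : ∀ u, pk (k + 1) u = Tk (fun w => pk k 0 + ∫⁻ v in Icc 0 w, Gk k v) u := by
      intro u
      rw [pk_succ]
      exact congrFun (Tk_congr fun w hw => ih w hw) u
    rw [h1 u, h1 0, Tk_decomp (Gk_meas k) _ u hu]
    rfl

lemma Gk_eq (k : ℕ) (s : ℝ) :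
    Gk k s = ∑ j ∈ Finset.range k, pk (k - 1 - j) 0 * (Tk^[j] phi) s := by
  induction k generalizing s with
  | zero => simp [Gk]
  | succ k ih =>
    have h1 : Gk k = fun s => ∑ j ∈ Finset.range k, pk (k - 1 - j) 0 * (Tk^[j] phi) s :=
      funext ih
    have h2 : Gk (k + 1) s = pk k 0 * phi s +
        Tk (fun s => ∑ j ∈ Finset.range k, pk (k - 1 - j) 0 * (Tk^[j] phi) s) s := by
      rw [← h1]
      rfl
    rw [Finset.sum_range_succ', h2,
      Tk_sum (Finset.range k) (f := fun j s => pk (k - 1 - j) 0 * (Tk^[j] phi) s)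
        (fun j => (Tk_iter_meas phi_meas j).const_mul _), add_comm]
    congr 1
    refine Finset.sum_congr rfl fun j hj => ?_
    rw [Finset.mem_range] at hj
    rw [Tk_const_mul (Tk_iter_meas phi_meas j), Function.iterate_succ_apply']
    congr 2
    omega

/-- integrated record densities -/
noncomputable def Aj (j : ℕ) (u : ℝ) : ℝ≥0∞ := ∫⁻ v in Icc 0 u, (Tk^[j] phi) v

lemma pk_decomp' (k : ℕ) (u : ℝ) (hu : 0 ≤ u) :
    pk k u = pk k 0 + ∑ j ∈ Finset.range k, pk (k - 1 - j) 0 * Aj j u := by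
  rw [pk_decomp k u hu]
  congr 1
  simp_rw [Gk_eq]
  rw [lintegral_finsetSum _ (fun j _ => (Tk_iter_meas phi_meas j).const_mul _)]
  refine Finset.sum_congr rfl fun j _ => ?_
  rw [lintegral_const_mul _ (Tk_iter_meas phi_meas j)]
  rfl

lemma pk_le_one (k : ℕ) (u : ℝ) : pk k u ≤ 1 := by
  unfold pk
  refine (Tk_iter_le_Pk_iter measurable_const k u).trans ?_
  rw [Pk_iter_eq measurable_const]
  simp

lemma iSup_Pk {f : ℝ → ℝ≥0∞} (hf : Monotone f) (hs : ⨆ n : ℕ, f n = 1) :
    ⨆ n : ℕ, Pk f n = 1 := by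
  unfold Pk
  rw [← lintegral_iSup]
  · have : ∀ s : ℝ, ⨆ n : ℕ, f (n + s) = 1 := by
      intro s
      refine le_antisymm (iSup_le fun n => ?_) ?_
      · obtain ⟨m, hm⟩ := exists_nat_ge ((n:ℝ) + s)
        calc f (n + s) ≤ f m := hf hm
          _ ≤ ⨆ n : ℕ, f n := le_iSup (fun n : ℕ => f n) m
          _ = 1 := hs
      · rw [← hs]
        refine iSup_le fun n => ?_
        obtain ⟨m, hm⟩ := exists_nat_ge ((n:ℝ) - s)
        exact (hf (by linarith)).trans (le_iSup (fun n : ℕ => f (n + s)) m)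
    simp_rw [this]
    simp
  · intro n
    exact hf.measurable.comp (measurable_const.add measurable_id)
  · intro a b hab s
    exact hf (by simpa using hab)

lemma iSup_pk (k : ℕ) : ⨆ n : ℕ, pk k n = 1 := by
  induction k with
  | zero => simp [pk_zero]
  | succ k ih =>
    have h1 : ∀ n : ℕ, pk (k + 1) n = Pk ((Ici (0:ℝ)).indicator (pk k)) n := by
      intro n
      rw [pk_succ, Tk_eq (pk_meas k)]
    simp_rw [h1]
    refine iSup_Pk (indicator_mono (pk_monotone k)) ?_
    rw [← ih]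
    refine iSup_congr fun n => ?_
    simp

lemma Gk_total (k : ℕ) : pk k 0 + ∫⁻ v in Ici (0:ℝ), Gk k v = 1 := by
  have h1 : ∀ n : ℕ, pk k n = pk k 0 + ∫⁻ v in Icc (0:ℝ) n, Gk k v := fun n =>
    pk_decomp k n (by positivity)
  have h2 : ⨆ n : ℕ, ∫⁻ v in Icc (0:ℝ) n, Gk k v = ∫⁻ v in Ici (0:ℝ), Gk k v := by
    have h3 : Ici (0:ℝ) = ⋃ n : ℕ, Icc (0:ℝ) n := by
      ext x
      simp only [mem_Ici, mem_iUnion, mem_Icc, exists_and_left]
      exact ⟨fun h => ⟨h, exists_nat_ge x⟩, fun h => h.1⟩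
    rw [h3, setLIntegral_iUnion_of_directed]
    refine Monotone.directed_le fun a b hab => ?_
    exact Icc_subset_Icc_right (by exact_mod_cast hab)
  rw [← h2, ENNReal.add_iSup, ← iSup_pk k]
  exact iSup_congr fun n => (h1 n).symm

/-- Sparre Andersen convolution identity -/
lemma pk_conv (k : ℕ) : ∑ p ∈ Finset.HasAntidiagonal.antidiagonal k, pk p.1 0 * pk p.2 0 = 1 := by
  have h1 := Gk_total k
  have h2 : ∫⁻ v in Ici (0:ℝ), Gk k v =
      ∑ j ∈ Finset.range k, pk (k - 1 - j) 0 * pk (j + 1) 0 := by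
    simp_rw [Gk_eq]
    rw [lintegral_finsetSum _ (fun j _ => (Tk_iter_meas phi_meas j).const_mul _)]
    refine Finset.sum_congr rfl fun j _ => ?_
    rw [lintegral_const_mul _ (Tk_iter_meas phi_meas j), lintegral_Tk_iter phi_meas, pk_succ]
    congr 1
    unfold Tk
    refine lintegral_congr fun w => ?_
    rw [phi_sub_comm, sub_zero]
    ring
  rw [h2] at h1
  rw [Finset.Nat.sum_antidiagonal_eq_sum_range_succ_mk, Finset.sum_range_succ', ← h1, add_comm]
  congr 1
  · simp [pk_zero]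
  · refine Finset.sum_congr rfl fun j _ => ?_
    rw [mul_comm]
    congr 2
    omega

/-! ### central binomial coefficients -/

/-- normalised central binomial coefficients -/
noncomputable def cb (k : ℕ) : ℝ := (Nat.centralBinom k : ℝ) / 4 ^ k

lemma cb_zero : cb 0 = 1 := by simp [cb]

lemma cb_succ (k : ℕ) : 2 * ((k:ℝ) + 1) * cb (k + 1) = (2 * k + 1) * cb k := by
  have h := Nat.succ_mul_centralBinom_succ k
  have h' : ((k:ℝ) + 1) * (Nat.centralBinom (k + 1) : ℝ) =
      2 * (2 * k + 1) * (Nat.centralBinom k : ℝ) := by exact_mod_cast h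
  unfold cb
  rw [pow_succ]
  have : (0:ℝ) < 4 ^ k := by positivity
  field_simp
  linarith

lemma cb_conv (k : ℕ) : ∑ p ∈ Finset.HasAntidiagonal.antidiagonal k, cb p.1 * cb p.2 = 1 := by
  induction k with
  | zero => simp [cb_zero]
  | succ k ih =>
    set S := ∑ p ∈ Finset.HasAntidiagonal.antidiagonal (k + 1), cb p.1 * cb p.2 with hS
    have h1 : ((k:ℝ) + 1) * S = 2 * ∑ p ∈ Finset.HasAntidiagonal.antidiagonal (k + 1),
        (p.1 : ℝ) * (cb p.1 * cb p.2) := by
      have e1 : ∑ p ∈ Finset.HasAntidiagonal.antidiagonal (k + 1), (p.2 : ℝ) * (cb p.1 * cb p.2) =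
          ∑ p ∈ Finset.HasAntidiagonal.antidiagonal (k + 1), (p.1 : ℝ) * (cb p.1 * cb p.2) := by
        rw [← Finset.Nat.sum_antidiagonal_swap]
        refine Finset.sum_congr rfl fun p _ => ?_
        simp only [Prod.fst_swap, Prod.snd_swap]
        ring
      rw [two_mul]
      nth_rw 2 [← e1]
      rw [← Finset.sum_add_distrib, hS, Finset.mul_sum]
      refine Finset.sum_congr rfl fun p hp => ?_
      rw [Finset.HasAntidiagonal.mem_antidiagonal] at hp
      have : ((k:ℝ) + 1) = p.1 + p.2 := by exact_mod_cast hp.symm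
      rw [this]
      ring
    have h2 : 2 * ∑ p ∈ Finset.HasAntidiagonal.antidiagonal (k + 1),
        (p.1 : ℝ) * (cb p.1 * cb p.2) =
        ∑ p ∈ Finset.HasAntidiagonal.antidiagonal k, (2 * (p.1:ℝ) + 1) * (cb p.1 * cb p.2) := by
      rw [Finset.Nat.sum_antidiagonal_succ]
      simp only [Nat.cast_zero, zero_mul, zero_add]
      rw [Finset.mul_sum]
      refine Finset.sum_congr rfl fun p _ => ?_
      have := cb_succ p.1
      push_cast
      linear_combination cb p.2 * this
    have h3 : ∑ p ∈ Finset.HasAntidiagonal.antidiagonal k, (2 * (p.1:ℝ) + 1) * (cb p.1 * cb p.2) =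
        ((k:ℝ) + 1) * ∑ p ∈ Finset.HasAntidiagonal.antidiagonal k, cb p.1 * cb p.2 := by
      have e1 : ∑ p ∈ Finset.HasAntidiagonal.antidiagonal k, (p.2 : ℝ) * (cb p.1 * cb p.2) =
          ∑ p ∈ Finset.HasAntidiagonal.antidiagonal k, (p.1 : ℝ) * (cb p.1 * cb p.2) := by
        rw [← Finset.Nat.sum_antidiagonal_swap]
        refine Finset.sum_congr rfl fun p _ => ?_
        simp only [Prod.fst_swap, Prod.snd_swap]
        ring
      have e2 : ∑ p ∈ Finset.HasAntidiagonal.antidiagonal k, (2 * (p.1:ℝ) + 1) * (cb p.1 * cb p.2) =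
          (∑ p ∈ Finset.HasAntidiagonal.antidiagonal k, (p.1 : ℝ) * (cb p.1 * cb p.2)) +
          (∑ p ∈ Finset.HasAntidiagonal.antidiagonal k, (p.1 : ℝ) * (cb p.1 * cb p.2)) +
          ∑ p ∈ Finset.HasAntidiagonal.antidiagonal k, (cb p.1 * cb p.2) := by
        rw [← Finset.sum_add_distrib, ← Finset.sum_add_distrib]
        refine Finset.sum_congr rfl fun p _ => ?_
        ring
      rw [e2]
      nth_rw 2 [← e1]
      rw [← Finset.sum_add_distrib, ← Finset.sum_add_distrib, Finset.mul_sum]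
      refine Finset.sum_congr rfl fun p hp => ?_
      rw [Finset.HasAntidiagonal.mem_antidiagonal] at hp
      have : (k:ℝ) = p.1 + p.2 := by exact_mod_cast hp.symm
      rw [this]
      ring
    rw [h2, h3, ih] at h1
    have hk : (0:ℝ) < (k:ℝ) + 1 := by positivity
    exact mul_left_cancel₀ hk.ne' h1

lemma cb_unique (Q : ℕ → ℝ) (h0 : Q 0 = 1)
    (hQ : ∀ k, ∑ p ∈ Finset.HasAntidiagonal.antidiagonal k, Q p.1 * Q p.2 = 1) (k : ℕ) :
    Q k = cb k := by
  induction k using Nat.strong_induction_on with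
  | _ k ih =>
    rcases Nat.eq_zero_or_pos k with rfl | hk
    · rw [h0, cb_zero]
    · have h1 : ∑ p ∈ Finset.HasAntidiagonal.antidiagonal k, (Q p.1 * Q p.2 - cb p.1 * cb p.2) = 0 := by
        rw [Finset.sum_sub_distrib, hQ, cb_conv, sub_self]
      rw [Finset.sum_eq_add (0, k) (k, 0)] at h1
      · simp only [h0, cb_zero] at h1
        linarith
      · intro h
        rw [Prod.mk.injEq] at h
        omega
      · rintro ⟨a, b⟩ hp hne
        rw [Finset.HasAntidiagonal.mem_antidiagonal] at hp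
        simp only at hp ⊢
        have ha : a < k := by
          rcases Nat.lt_or_ge a k with h | h
          · exact h
          · exfalso
            apply hne.2
            rw [Prod.mk.injEq]
            omega
        have hb : b < k := by
          rcases Nat.lt_or_ge b k with h | h
          · exact h
          · exfalso
            apply hne.1
            rw [Prod.mk.injEq]
            omega
        rw [ih a ha, ih b hb, sub_self]
      · intro h
        exact absurd (by simp) h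
      · intro h
        exact absurd (by simp) h

lemma cb_sq (n : ℕ) : cb n ^ 2 * (2 * n + 1) = (Real.Wallis.W n)⁻¹ := by
  rw [Real.Wallis.W_eq_factorial_ratio]
  have h : (Nat.centralBinom n : ℝ) * ((n.factorial : ℝ) * (n.factorial : ℝ)) =
      ((2 * n).factorial : ℝ) := by
    have := Nat.choose_mul_factorial_mul_factorial (n := 2 * n) (k := n) (by omega)
    rw [show 2 * n - n = n by omega, ← Nat.centralBinom_eq_two_mul_choose] at this
    have h' : (((Nat.centralBinom n) * n.factorial * n.factorial : ℕ) : ℝ) =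
      (((2 * n).factorial : ℕ) : ℝ) := by rw [this]
    push_cast at h'
    rw [← h']
    ring
  rw [← h]
  unfold cb
  have h1 : (0:ℝ) < (n.factorial : ℝ) := by exact_mod_cast n.factorial_pos
  have h2 : (0:ℝ) < (Nat.centralBinom n : ℝ) := by exact_mod_cast n.centralBinom_pos
  have h4 : (2:ℝ) ^ (4 * n) = (4 ^ n) ^ 2 := by
    rw [show (4:ℝ) = 2 ^ 2 by norm_num, ← pow_mul, ← pow_mul]
    congr 1
    ring
  rw [h4]
  have h5 : (0:ℝ) < 4 ^ n := by positivity
  field_simp

lemma cb_tendsto : Tendsto (fun k : ℕ => √k * cb k) atTop (𝓝 (√(1 / Real.pi))) := by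
  have h1 : Tendsto (fun n : ℕ => cb n ^ 2 * (2 * n + 1)) atTop (𝓝 (Real.pi / 2)⁻¹) := by
    simp_rw [cb_sq]
    exact Real.Wallis.tendsto_W_nhds_pi_div_two.inv₀ (by positivity)
  have h2 : Tendsto (fun n : ℕ => (n:ℝ) / (2 * n + 1)) atTop (𝓝 (1 / 2)) := by
    have h3 : Tendsto (fun n : ℕ => 1 / (2 + 1 / (n:ℝ))) atTop (𝓝 (1 / (2 + 0))) :=
      (tendsto_const_nhds).div (tendsto_const_nhds.add tendsto_one_div_atTop_nhds_zero_nat)
        (by norm_num)
    rw [add_zero] at h3
    refine h3.congr' ?_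
    filter_upwards [eventually_gt_atTop 0] with n hn
    have : (0:ℝ) < n := by exact_mod_cast hn
    field_simp
  have h3 : Tendsto (fun n : ℕ => (n:ℝ) * cb n ^ 2) atTop (𝓝 (1 / Real.pi)) := by
    have h4 := h1.mul h2
    have h5 : (Real.pi / 2)⁻¹ * (1 / 2) = 1 / Real.pi := by
      field_simp
    rw [h5] at h4
    refine h4.congr fun n => ?_
    have : (0:ℝ) < 2 * n + 1 := by positivity
    field_simp
  have h4 := (Real.continuous_sqrt.tendsto _).comp h3
  refine h4.congr fun n => ?_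
  simp only [Function.comp]
  rw [Real.sqrt_mul (by positivity), Real.sqrt_sq]
  unfold cb
  positivity

/-! ### a Tannery type lemma -/

lemma sum_inv_sqrt_le (k : ℕ) : ∑ j ∈ Finset.range k, 1 / √((j:ℝ) + 1) ≤ 2 * √k := by
  induction k with
  | zero => simp
  | succ k ih =>
    rw [Finset.sum_range_succ]
    have h1 : 1 / √((k:ℝ) + 1) ≤ 2 * √((k:ℝ) + 1) - 2 * √k := by
      have h0 : 0 < √((k:ℝ) + 1) := by positivity
      rw [div_le_iff₀ h0]
      have e1 := Real.mul_self_sqrt (show (0:ℝ) ≤ (k:ℝ) + 1 by positivity)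
      have e2 := Real.mul_self_sqrt (show (0:ℝ) ≤ (k:ℝ) by positivity)
      nlinarith [sq_nonneg (√((k:ℝ) + 1) - √k)]
    push_cast
    linarith

lemma summable_aux (N : ℝ) : Summable (fun k : ℕ => N / (((k:ℝ) + 1) * √((k:ℝ) + 1))) := by
  have h1 : Summable (fun n : ℕ => 1 / (n:ℝ) ^ (3 / 2 : ℝ)) :=
    Real.summable_one_div_nat_rpow.2 (by norm_num)
  have h2 := (summable_nat_add_iff 1).2 h1
  refine (h2.mul_left N).congr fun k => ?_
  have h0 : (0:ℝ) < (k:ℝ) + 1 := by positivity
  push_cast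
  rw [show (3 / 2 : ℝ) = 1 + 1 / 2 by norm_num, Real.rpow_add h0, Real.rpow_one,
    ← Real.sqrt_eq_rpow]
  ring

lemma shift_tendsto (Q : ℕ → ℝ) (c : ℝ) (hc : Tendsto (fun k : ℕ => √k * Q k) atTop (𝓝 c))
    (j : ℕ) : Tendsto (fun k : ℕ => √k * Q (k - 1 - j)) atTop (𝓝 c) := by
  rw [← tendsto_add_atTop_iff_nat (j + 1)]
  have h1 : Tendsto (fun k : ℕ => √(1 + ((j:ℝ) + 1) / k)) atTop (𝓝 1) := by
    have h2 : Tendsto (fun k : ℕ => 1 + ((j:ℝ) + 1) / k) atTop (𝓝 (1 + 0)) :=
      tendsto_const_nhds.add (tendsto_const_div_atTop_nhds_zero_nat _)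
    have h3 := (Real.continuous_sqrt.tendsto _).comp h2
    rw [add_zero, Real.sqrt_one] at h3
    exact h3
  have h4 := h1.mul hc
  rw [one_mul] at h4
  refine h4.congr' ?_
  filter_upwards [eventually_gt_atTop 0] with k hk
  have hk0 : (0:ℝ) < k := by exact_mod_cast hk
  have e1 : k + (j + 1) - 1 - j = k := by omega
  rw [e1, ← mul_assoc, ← Real.sqrt_mul (by positivity)]
  congr 2
  push_cast
  field_simp

lemma conv_tendsto (Q a : ℕ → ℝ) (M N c : ℝ) (hQ0 : ∀ k, 0 ≤ Q k) (ha0 : ∀ k, 0 ≤ a k)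
    (hM : 0 ≤ M) (hN : 0 ≤ N)
    (hQ : ∀ k : ℕ, Q k ≤ M / √((k:ℝ) + 1)) (ha : ∀ k : ℕ, a k ≤ N / (((k:ℝ) + 1) * √((k:ℝ) + 1)))
    (hc : Tendsto (fun k : ℕ => √k * Q k) atTop (𝓝 c)) :
    Tendsto (fun k : ℕ => √k * ∑ j ∈ Finset.range k, Q (k - 1 - j) * a j) atTop
      (𝓝 (∑' j, c * a j)) := by
  have hsum : Summable a := (summable_aux N).of_nonneg_of_le ha0 ha
  -- first part
  have hF1 : Tendsto (fun k : ℕ => ∑' j, (if 2 * j < k then √k * Q (k - 1 - j) * a j else 0)) atTop
      (𝓝 (∑' j, c * a j)) := by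
    refine tendsto_tsum_of_dominated_convergence (bound := fun j => (√2 * M) * a j)
      (hsum.mul_left _) ?_ ?_
    · intro j
      have h1 := (shift_tendsto Q c hc j).mul_const (a j)
      refine h1.congr' ?_
      filter_upwards [eventually_gt_atTop (2 * j)] with k hk
      simp [hk]
    · filter_upwards with k j
      by_cases h : 2 * j < k
      · rw [if_pos h, Real.norm_of_nonneg (by have := hQ0 (k - 1 - j); have := ha0 j; positivity)]
        refine mul_le_mul_of_nonneg_right ?_ (ha0 j)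
        have h1 := hQ (k - 1 - j)
        have e1 : (((k - 1 - j : ℕ) : ℝ) + 1) = (k:ℝ) - j := by
          rw [show k - 1 - j = k - (j + 1) by omega, Nat.cast_sub (by omega)]
          push_cast
          ring
        rw [e1] at h1
        have h2 : (k:ℝ) / 2 ≤ (k:ℝ) - j := by
          have : (2:ℝ) * j < k := by exact_mod_cast h
          linarith
        have hk0 : (0:ℝ) < k := by
          have : 0 < k := by omega
          exact_mod_cast this
        have h3 : √((k:ℝ) / 2) ≤ √((k:ℝ) - j) := Real.sqrt_le_sqrt h2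
        have h4 : 0 < √((k:ℝ) / 2) := by positivity
        calc √k * Q (k - 1 - j) ≤ √k * (M / √((k:ℝ) / 2)) := by
              gcongr
              refine h1.trans ?_
              gcongr
          _ = √2 * M := by
              rw [Real.sqrt_div' _ (by norm_num)]
              have : (0:ℝ) < √k := by positivity
              have : (0:ℝ) < √2 := by positivity
              field_simp
      · rw [if_neg h, norm_zero]
        have := ha0 j
        positivity
  -- second part
  have hF2 : Tendsto (fun k : ℕ => √k * ∑ j ∈ (Finset.range k).filter (fun j => ¬ 2 * j < k),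
      Q (k - 1 - j) * a j) atTop (𝓝 0) := by
    have hb : Tendsto (fun k : ℕ => (2 * M * N * (2 * √2)) / √(k:ℝ)) atTop (𝓝 0) := by
      refine Tendsto.const_div_atTop ?_ _
      exact Real.tendsto_sqrt_atTop.comp tendsto_natCast_atTop_atTop
    refine squeeze_zero' ?_ ?_ hb
    · filter_upwards with k
      refine mul_nonneg (Real.sqrt_nonneg _) (Finset.sum_nonneg fun j _ => ?_)
      exact mul_nonneg (hQ0 _) (ha0 _)
    · filter_upwards [eventually_gt_atTop 0] with k hk
      have hk0 : (0:ℝ) < k := by exact_mod_cast hk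
      have hsk : (0:ℝ) < √k := by positivity
      have hs2 : (0:ℝ) < √2 := by positivity
      have h1 : ∀ j ∈ (Finset.range k).filter (fun j => ¬ 2 * j < k),
          Q (k - 1 - j) * a j ≤ Q (k - 1 - j) * (N * (2 * √2) / (k * √k)) := by
        intro j hj
        rw [Finset.mem_filter, Finset.mem_range] at hj
        have h2 : (k:ℝ) / 2 ≤ (j:ℝ) + 1 := by
          have : k ≤ 2 * j := by omega
          have : (k:ℝ) ≤ 2 * j := by exact_mod_cast this
          linarith
        have h3 : √((k:ℝ) / 2) ≤ √((j:ℝ) + 1) := Real.sqrt_le_sqrt h2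
        gcongr
        · exact hQ0 _
        calc a j ≤ N / (((j:ℝ) + 1) * √((j:ℝ) + 1)) := ha j
          _ ≤ N / (((k:ℝ) / 2) * √((k:ℝ) / 2)) := by gcongr
          _ = _ := by
              rw [Real.sqrt_div' _ (by norm_num)]
              field_simp
      calc √k * ∑ j ∈ (Finset.range k).filter (fun j => ¬ 2 * j < k), Q (k - 1 - j) * a j
          ≤ √k * ∑ j ∈ (Finset.range k).filter (fun j => ¬ 2 * j < k),
              Q (k - 1 - j) * (N * (2 * √2) / (k * √k)) :=
            mul_le_mul_of_nonneg_left (Finset.sum_le_sum h1) (Real.sqrt_nonneg _)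
        _ ≤ √k * ∑ j ∈ Finset.range k, Q (k - 1 - j) * (N * (2 * √2) / (k * √k)) := by
            refine mul_le_mul_of_nonneg_left ?_ (Real.sqrt_nonneg _)
            refine Finset.sum_le_sum_of_subset_of_nonneg (Finset.filter_subset _ _) fun j _ _ => ?_
            have := hQ0 (k - 1 - j)
            positivity
        _ = √k * ((∑ j ∈ Finset.range k, Q j) * (N * (2 * √2) / (k * √k))) := by
            rw [← Finset.sum_mul, Finset.sum_range_reflect]
        _ ≤ √k * ((M * (2 * √k)) * (N * (2 * √2) / (k * √k))) := by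
            gcongr
            calc ∑ j ∈ Finset.range k, Q j ≤ ∑ j ∈ Finset.range k, M * (1 / √((j:ℝ) + 1)) := by
                  refine Finset.sum_le_sum fun j _ => ?_
                  have := hQ j
                  rw [mul_one_div]
                  exact this
              _ = M * ∑ j ∈ Finset.range k, (1 / √((j:ℝ) + 1)) := by rw [Finset.mul_sum]
              _ ≤ _ := by
                  gcongr
                  exact sum_inv_sqrt_le k
        _ = (2 * M * N * (2 * √2)) / √(k:ℝ) := by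
            field_simp
            rw [Real.sq_sqrt hk0.le]
            ring
  have h := hF1.add hF2
  rw [add_zero] at h
  refine h.congr fun k => ?_
  have e1 : ∑' j, (if 2 * j < k then √k * Q (k - 1 - j) * a j else 0) =
      ∑ j ∈ (Finset.range k).filter (fun j => 2 * j < k), √k * Q (k - 1 - j) * a j := by
    rw [tsum_eq_sum (s := (Finset.range k).filter (fun j => 2 * j < k))]
    · refine Finset.sum_congr rfl fun j hj => ?_
      rw [Finset.mem_filter] at hj
      rw [if_pos hj.2]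
    · intro j hj
      rw [Finset.mem_filter, Finset.mem_range] at hj
      rw [if_neg]
      omega
  rw [e1, ← Finset.sum_filter_add_sum_filter_not (Finset.range k) (fun j => 2 * j < k), mul_add]
  congr 1
  rw [Finset.mul_sum]
  refine Finset.sum_congr rfl fun j _ => ?_
  ring

/-! ### the survival asymptotics -/

lemma pk_zero_eq (k : ℕ) : (pk k 0).toReal = cb k := by
  refine cb_unique (fun k => (pk k 0).toReal) (by simp [pk_zero]) (fun k => ?_) k
  have h := congrArg ENNReal.toReal (pk_conv k)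
  rw [ENNReal.toReal_sum] at h
  · simpa using h
  · intro p _
    exact ENNReal.mul_ne_top (ne_top_of_le_ne_top ENNReal.one_ne_top (pk_le_one _ _))
      (ne_top_of_le_ne_top ENNReal.one_ne_top (pk_le_one _ _))

lemma phi_weight_ne_top : ∫⁻ w in Ici (0:ℝ), phi w * ENNReal.ofReal (1 + w) ≠ ⊤ := by
  have h := (pdf_int2 0 1).2
  refine ne_top_of_le_ne_top h.ne ?_
  refine (setLIntegral_le_lintegral _ _).trans (lintegral_mono fun w => ?_)
  rw [phi_eq]
  unfold gaussianPDF
  rw [← ENNReal.ofReal_mul (gaussianPDFReal_nonneg _ _ _), ← ofReal_norm]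
  refine ENNReal.ofReal_le_ofReal ?_
  rw [add_comm]
  exact Real.le_norm_self _

lemma Aj_le (u : ℝ) (hu : 0 ≤ u) : ∃ N : ℝ, 0 ≤ N ∧ ∀ j : ℕ,
    Aj j u ≤ ENNReal.ofReal (N / (((j:ℝ) + 1) * √((j:ℝ) + 1))) := by
  obtain ⟨C, hC⟩ := Tk_iter_le
  set F : ℝ≥0∞ := ∫⁻ w in Ici (0:ℝ), phi w * ENNReal.ofReal (1 + w) with hF
  have hFt : F ≠ ⊤ := phi_weight_ne_top
  obtain ⟨F0, hF0⟩ : ∃ F0 : ℝ≥0, F = F0 := ⟨F.toNNReal, (ENNReal.coe_toNNReal hFt).symm⟩
  refine ⟨1 + 4 * (C * F0 * (1 + u) * u), by positivity, fun j => ?_⟩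
  rcases Nat.eq_zero_or_pos j with rfl | hj
  · have h1 : Aj 0 u ≤ 1 := by
      unfold Aj
      refine (setLIntegral_le_lintegral _ _).trans ?_
      simp [lintegral_phi]
    refine h1.trans ?_
    rw [← ENNReal.ofReal_one]
    refine ENNReal.ofReal_le_ofReal ?_
    simp only [Nat.cast_zero, zero_add, Real.sqrt_one, mul_one, div_one]
    have : 0 ≤ 4 * (C * F0 * (1 + u) * u) := by positivity
    linarith
  · have hj1 : (1:ℝ) ≤ j := by exact_mod_cast hj
    have hj0 : (0:ℝ) < j := by linarith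
    have h1 : Aj j u ≤ C * ENNReal.ofReal ((1 + u) / ((j : ℝ) * √j)) * F * ENNReal.ofReal u := by
      unfold Aj
      calc ∫⁻ v in Icc 0 u, (Tk^[j] phi) v ≤
          ∫⁻ v in Icc 0 u, C * ENNReal.ofReal ((1 + u) / ((j : ℝ) * √j)) * F := by
            refine setLIntegral_mono' measurableSet_Icc fun v hv => ?_
            refine (hC j hj phi phi_meas v hv.1).trans ?_
            have := hv.2
            gcongr
        _ = _ := by
            rw [setLIntegral_const, Real.volume_Icc, sub_zero]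
    refine h1.trans ?_
    rw [hF0, show ((F0 : ℝ≥0) : ℝ≥0∞) = ENNReal.ofReal F0 by simp,
      show ((C : ℝ≥0) : ℝ≥0∞) = ENNReal.ofReal C by simp,
      ← ENNReal.ofReal_mul (by positivity), ← ENNReal.ofReal_mul (by positivity),
      ← ENNReal.ofReal_mul (by positivity)]
    refine ENNReal.ofReal_le_ofReal ?_
    have hs : √((j:ℝ) + 1) ≤ 2 * √j := by
      rw [Real.sqrt_le_left (by positivity), mul_pow, Real.sq_sqrt (by positivity)]
      linarith
    have h2 : ((j:ℝ) + 1) * √((j:ℝ) + 1) ≤ 4 * (j * √j) := by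
      calc ((j:ℝ) + 1) * √((j:ℝ) + 1) ≤ (2 * j) * (2 * √j) := by
            gcongr
            linarith
        _ = _ := by ring
    rw [le_div_iff₀ (by positivity)]
    set E : ℝ := C * F0 * (1 + u) * u with hE
    have hE0 : 0 ≤ E := by positivity
    have hjs : 0 < (j:ℝ) * √j := by positivity
    have h3 : (C:ℝ) * ((1 + u) / (j * √j)) * F0 * u = E / (j * √j) := by
      rw [hE]
      ring
    rw [h3]
    calc E / (j * √j) * (((j:ℝ) + 1) * √((j:ℝ) + 1)) ≤ E / (j * √j) * (4 * (j * √j)) := by gcongr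
      _ = 4 * E := by field_simp
      _ ≤ _ := by linarith

/-- the renewal function of the walk (limit of `√k` times the survival probability) -/
noncomputable def rho (u : ℝ) : ℝ := √(1 / Real.pi) * (1 + ∑' j, (Aj j u).toReal)

lemma Aj_summable (u : ℝ) (hu : 0 ≤ u) : Summable (fun j => (Aj j u).toReal) := by
  obtain ⟨N, hN, h⟩ := Aj_le u hu
  refine (summable_aux N).of_nonneg_of_le (fun _ => ENNReal.toReal_nonneg) fun j => ?_
  have := ENNReal.toReal_mono ENNReal.ofReal_ne_top (h j)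
  rwa [ENNReal.toReal_ofReal (by positivity)] at this

lemma rho_ge (u : ℝ) : √(1 / Real.pi) ≤ rho u := by
  unfold rho
  have h0 : 0 ≤ √(1 / Real.pi) := Real.sqrt_nonneg _
  have h1 : 0 ≤ ∑' j, (Aj j u).toReal := tsum_nonneg fun _ => ENNReal.toReal_nonneg
  nlinarith

lemma rho_pos (u : ℝ) : 0 < rho u := by
  have : 0 < √(1 / Real.pi) := by positivity
  exact this.trans_le (rho_ge u)

lemma rho_mono {u v : ℝ} (hu : 0 ≤ u) (huv : u ≤ v) : rho u ≤ rho v := by
  unfold rho
  refine mul_le_mul_of_nonneg_left (add_le_add le_rfl ?_) (Real.sqrt_nonneg _)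
  refine Summable.tsum_le_tsum (fun j => ?_) (Aj_summable u hu) (Aj_summable v (hu.trans huv))
  obtain ⟨N, hN, h⟩ := Aj_le v (hu.trans huv)
  refine ENNReal.toReal_mono (ne_top_of_le_ne_top ENNReal.ofReal_ne_top (h j)) ?_
  unfold Aj
  exact lintegral_mono_set (Icc_subset_Icc_right huv)

theorem pk_tendsto_rho (u : ℝ) (hu : 0 ≤ u) :
    Tendsto (fun k : ℕ => √k * (pk k u).toReal) atTop (𝓝 (rho u)) := by
  obtain ⟨C, hC⟩ := pk_le
  obtain ⟨N, hN, hA⟩ := Aj_le u hu
  have hQ : ∀ k : ℕ, (pk k 0).toReal ≤ C / √((k:ℝ) + 1) := by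
    intro k
    have h1 := hC k 0 le_rfl
    have h2 : (C : ℝ≥0∞) * ENNReal.ofReal ((1 + 0) / √((k:ℝ) + 1)) ≠ ⊤ :=
      ENNReal.mul_ne_top ENNReal.coe_ne_top ENNReal.ofReal_ne_top
    have h3 := ENNReal.toReal_mono h2 h1
    rw [ENNReal.toReal_mul, ENNReal.toReal_ofReal (by positivity), ENNReal.coe_toReal] at h3
    refine h3.trans (le_of_eq ?_)
    ring
  have ha : ∀ j : ℕ, (Aj j u).toReal ≤ N / (((j:ℝ) + 1) * √((j:ℝ) + 1)) := by
    intro j
    have := ENNReal.toReal_mono ENNReal.ofReal_ne_top (hA j)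
    rwa [ENNReal.toReal_ofReal (by positivity)] at this
  have hc : Tendsto (fun k : ℕ => √k * (pk k 0).toReal) atTop (𝓝 (√(1 / Real.pi))) := by
    simp_rw [pk_zero_eq]
    exact cb_tendsto
  have h1 := conv_tendsto (fun k => (pk k 0).toReal) (fun j => (Aj j u).toReal) C N _
    (fun _ => ENNReal.toReal_nonneg) (fun _ => ENNReal.toReal_nonneg) C.2 hN hQ ha hc
  have h2 := hc.add h1
  have e1 : √(1 / Real.pi) + ∑' j, √(1 / Real.pi) * (Aj j u).toReal = rho u := by
    rw [tsum_mul_left]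
    unfold rho
    ring
  rw [e1] at h2
  refine h2.congr fun k => ?_
  rw [← mul_add, pk_decomp' k u hu]
  congr 1
  have hp : ∀ k, pk k 0 ≠ ⊤ := fun k => ne_top_of_le_ne_top ENNReal.one_ne_top (pk_le_one _ _)
  have hAt : ∀ j, Aj j u ≠ ⊤ := fun j => ne_top_of_le_ne_top ENNReal.ofReal_ne_top (hA j)
  rw [ENNReal.toReal_add (hp k) (ENNReal.sum_ne_top.2 fun j _ => ENNReal.mul_ne_top (hp _) (hAt _)),
    ENNReal.toReal_sum fun j _ => ENNReal.mul_ne_top (hp _) (hAt _)]
  congr 1
  refine Finset.sum_congr rfl fun j _ => ?_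
  rw [ENNReal.toReal_mul]

theorem pk_tendsto (u : ℝ) (hu : 0 ≤ u) : ∃ ρ : ℝ, 0 < ρ ∧
    Tendsto (fun k : ℕ => √k * (pk k u).toReal) atTop (𝓝 ρ) :=
  ⟨rho u, rho_pos u, pk_tendsto_rho u hu⟩

end Pool.Agent.helper95.GMC
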