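import Mathlib
import Pool.Agent.helper95.GMC.DensDefs

/-!
# Oscillation estimates for the kernels (module V for MP_d68443_pr)
-/

open MeasureTheory ProbabilityTheory Filter Topology Set
open scoped ENNReal NNReal

namespace Pool.Agent.helper95.GMC

/-! ### second mean value type estimate -/

lemma cos_int (ω θ a c : ℝ) (hω : 0 < ω) : |∫ y in a..c, Real.cos (ω * y + θ)| ≤ 2 / ω := by
  rw [intervalIntegral.integral_comp_mul_add (fun x => Real.cos x) hω.ne' θ, integral_cos,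
    smul_eq_mul, abs_mul, abs_of_pos (inv_pos.2 hω)]
  have h1 : |Real.sin (ω * c + θ) - Real.sin (ω * a + θ)| ≤ 2 := by
    have h1 := Real.sin_le_one (ω * c + θ)
    have h2 := Real.neg_one_le_sin (ω * c + θ)
    have h3 := Real.sin_le_one (ω * a + θ)
    have h4 := Real.neg_one_le_sin (ω * a + θ)
    rw [abs_le]
    constructor <;> linarith
  rw [inv_mul_eq_div]
  gcongr

/-- the part of the integral over a super-level set -/
lemma level_int (ω θ α β : ℝ) (hω : 0 < ω) (f : ℝ → ℝ) (hf : Antitone f) (t : ℝ) :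
    |∫ y in Ioc α β, Real.cos (ω * y + θ) * (if t < f y then 1 else 0)| ≤ 2 / ω := by
  have h2ω : 0 ≤ 2 / ω := by positivity
  by_cases hS : {y | y ∈ Ioc α β ∧ t < f y}.Nonempty
  · set S := {y | y ∈ Ioc α β ∧ t < f y} with hSdef
    have hbdd : BddAbove S := ⟨β, fun y hy => hy.1.2⟩
    set c := sSup S with hc
    obtain ⟨y0, hy0⟩ := hS
    have hcα : α ≤ c := hy0.1.1.le.trans (le_csSup hbdd hy0)
    have hcβ : c ≤ β := csSup_le ⟨y0, hy0⟩ fun y hy => hy.1.2
    have h1 : ∫ y in Ioc α β, Real.cos (ω * y + θ) * (if t < f y then 1 else 0) =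
        ∫ y in Ioc α β, (Ioc α c).indicator (fun y => Real.cos (ω * y + θ)) y := by
      refine setIntegral_congr_ae measurableSet_Ioc ?_
      have hne : ∀ᵐ y : ℝ, y ≠ c := by
        rw [ae_iff]
        simp
      filter_upwards [hne] with y hyc hy
      rcases lt_or_gt_of_ne hyc with h | h
      · obtain ⟨s, hs, hys⟩ := exists_lt_of_lt_csSup ⟨y0, hy0⟩ h
        have : t < f y := hs.2.trans_le (hf hys.le)
        rw [if_pos this, mul_one, indicator_of_mem (show y ∈ Ioc α c from ⟨hy.1, h.le⟩)]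
      · have : ¬ t < f y := fun hcon => absurd (le_csSup hbdd (show y ∈ S from ⟨hy, hcon⟩)) (not_le.2 h)
        rw [if_neg this, mul_zero, indicator_of_notMem]
        exact fun h' => absurd h'.2 (not_le.2 h)
    rw [h1, setIntegral_indicator measurableSet_Ioc, Ioc_inter_Ioc, max_self,
      min_eq_right hcβ, ← intervalIntegral.integral_of_le hcα]
    exact cos_int ω θ α c hω
  · have h1 : ∫ y in Ioc α β, Real.cos (ω * y + θ) * (if t < f y then 1 else 0) = 0 := by
      rw [setIntegral_eq_zero_of_forall_eq_zero]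
      intro y hy
      rw [if_neg, mul_zero]
      intro hcon
      exact hS ⟨y, hy, hcon⟩
    rw [h1, abs_zero]
    exact h2ω

lemma osc_anti0 (ω θ α β F : ℝ) (hω : 0 < ω) (hαβ : α ≤ β) (f : ℝ → ℝ) (hf : Antitone f)
    (h0 : ∀ y, 0 ≤ f y) (hF : ∀ y, f y ≤ F) :
    |∫ y in α..β, Real.cos (ω * y + θ) * f y| ≤ 2 * F / ω := by
  have hF0 : 0 ≤ F := (h0 0).trans (hF 0)
  have hfm : Measurable f := hf.measurable
  -- layer cake
  have h1 : ∀ y, Real.cos (ω * y + θ) * f y =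
      ∫ t in Ioc 0 F, Real.cos (ω * y + θ) * (if t < f y then 1 else 0) := by
    intro y
    rw [integral_const_mul]
    congr 1
    have e1 : (fun t => (if t < f y then (1:ℝ) else 0)) = (Iio (f y)).indicator (fun _ => 1) := by
      ext t
      by_cases h : t < f y
      · simp [h]
      · simp [h]
    rw [e1, setIntegral_indicator measurableSet_Iio]
    have e2 : (Ioc 0 F ∩ Iio (f y) : Set ℝ) =ᵐ[volume] Ioc 0 (f y) := by
      have : (Ioc 0 F ∩ Iio (f y) : Set ℝ) = Ioo 0 (f y) := by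
        ext t
        simp only [mem_inter_iff, mem_Ioc, mem_Iio, mem_Ioo]
        constructor
        · rintro ⟨⟨a, b⟩, c⟩; exact ⟨a, c⟩
        · rintro ⟨a, c⟩; exact ⟨⟨a, c.le.trans (hF y)⟩, c⟩
      rw [this]
      exact Ioo_ae_eq_Ioc
    rw [setIntegral_congr_set e2]
    simp [h0 y]
  rw [intervalIntegral.integral_of_le hαβ]
  simp_rw [h1]
  rw [integral_integral_swap]
  · have hb : ∀ᵐ t ∂(volume.restrict (Ioc 0 F)),
        ‖∫ y in Ioc α β, Real.cos (ω * y + θ) * (if t < f y then 1 else 0)‖ ≤ 2 / ω :=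
      ae_of_all _ fun t => level_int ω θ α β hω f hf t
    refine (norm_integral_le_of_norm_le_const hb).trans ?_
    simp only [Measure.real, Measure.restrict_apply_univ, Real.volume_Ioc, sub_zero]
    rw [ENNReal.toReal_ofReal hF0]
    apply le_of_eq
    ring
  · refine Integrable.mono' (integrable_const (1:ℝ)) ?_ (ae_of_all _ fun p => ?_)
    · refine Measurable.aestronglyMeasurable ?_
      refine Measurable.mul ?_ ?_
      · exact (Real.measurable_cos.comp ((measurable_fst.const_mul ω).add_const θ))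
      · refine Measurable.ite ?_ measurable_const measurable_const
        exact measurableSet_lt measurable_snd (hfm.comp measurable_fst)
    · simp only [Function.uncurry]
      rw [norm_mul, Real.norm_eq_abs, Real.norm_eq_abs]
      have := Real.abs_cos_le_one (ω * p.1 + θ)
      split_ifs
      · simpa using this
      · simp

lemma osc_anti (ω θ α β F : ℝ) (hω : 0 < ω) (hαβ : α ≤ β) (f : ℝ → ℝ)
    (hf : AntitoneOn f (Icc α β)) (h0 : ∀ y ∈ Icc α β, 0 ≤ f y) (hF : ∀ y ∈ Icc α β, f y ≤ F) :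
    |∫ y in α..β, Real.cos (ω * y + θ) * f y| ≤ 2 * F / ω := by
  set c : ℝ → ℝ := fun y => max α (min β y) with hc
  have hcm : ∀ y, c y ∈ Icc α β := fun y => ⟨le_max_left _ _, max_le hαβ (min_le_left _ _)⟩
  have hceq : ∀ y ∈ Icc α β, c y = y := fun y hy => by
    simp only [hc]
    rw [min_eq_right hy.2, max_eq_right hy.1]
  have hmono : Monotone c := fun a b h => max_le_max le_rfl (min_le_min le_rfl h)
  have h1 := osc_anti0 ω θ α β F hω hαβ (fun y => f (c y))
    (fun a b h => hf (hcm a) (hcm b) (hmono h)) (fun y => h0 _ (hcm y)) (fun y => hF _ (hcm y))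
  have h2 : ∫ y in α..β, Real.cos (ω * y + θ) * f y =
      ∫ y in α..β, Real.cos (ω * y + θ) * f (c y) := by
    refine intervalIntegral.integral_congr fun y hy => ?_
    rw [uIcc_of_le hαβ] at hy
    rw [hceq y hy]
  rw [h2]
  exact h1

lemma osc_monotone (ω θ α β F : ℝ) (hω : 0 < ω) (hαβ : α ≤ β) (f : ℝ → ℝ)
    (hf : MonotoneOn f (Icc α β)) (h0 : ∀ y ∈ Icc α β, 0 ≤ f y) (hF : ∀ y ∈ Icc α β, f y ≤ F) :
    |∫ y in α..β, Real.cos (ω * y + θ) * f y| ≤ 2 * F / ω := by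
  have h1 := osc_anti ω (-θ) (-β) (-α) F hω (by linarith) (fun y => f (-y))
    (fun a ha b hb h => hf ⟨by linarith [hb.2], by linarith [hb.1]⟩
      ⟨by linarith [ha.2], by linarith [ha.1]⟩ (by linarith))
    (fun y hy => h0 _ ⟨by linarith [hy.2], by linarith [hy.1]⟩)
    (fun y hy => hF _ ⟨by linarith [hy.2], by linarith [hy.1]⟩)
  have h2 : ∫ y in α..β, Real.cos (ω * y + θ) * f y =
      ∫ y in (-β)..(-α), Real.cos (ω * y + -θ) * f (-y) := by
    have h3 := intervalIntegral.integral_comp_neg (a := -β) (b := -α)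
      (fun y => Real.cos (ω * y + θ) * f y)
    rw [neg_neg, neg_neg] at h3
    rw [← h3]
    refine intervalIntegral.integral_congr fun y _ => ?_
    congr 1
    rw [← Real.cos_neg]
    congr 1
    ring
  rw [h2]
  exact h1

/-- even unimodal functions -/
lemma osc_uni (ω θ a b x F : ℝ) (hω : 0 < ω) (hab : a ≤ b) (g : ℝ → ℝ) (hev : ∀ w, g (-w) = g w)
    (hg : AntitoneOn g (Ici 0)) (h0 : ∀ w, 0 ≤ g w) (hF : g 0 ≤ F) :
    |∫ y in a..b, Real.cos (ω * y + θ) * g (x - y)| ≤ 4 * F / ω := by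
  have hgF : ∀ w, g w ≤ F := by
    intro w
    rcases le_total 0 w with h | h
    · exact (hg (by simp) h h).trans hF
    · rw [← hev w]
      exact (hg (by simp) (by simpa using h) (by linarith)).trans hF
  set m := max a (min b x) with hm
  have ham : a ≤ m := le_max_left _ _
  have hmb : m ≤ b := max_le hab (min_le_left _ _)
  -- left part
  have hleft : MonotoneOn (fun y => g (x - y)) (Icc a m) := by
    rcases le_total a x with h | h
    · have hmx : m ≤ x := max_le h (min_le_right _ _)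
      intro y hy z hz hyz
      refine hg ?_ ?_ (by linarith)
      · simp only [mem_Ici, sub_nonneg]; exact hz.2.trans hmx
      · simp only [mem_Ici, sub_nonneg]; exact hy.2.trans hmx
    · have hmx : m = a := by
        rw [hm, max_eq_left]
        exact (min_le_right _ _).trans h
      intro y hy z hz _
      have e1 : y = a := le_antisymm (hy.2.trans hmx.le) hy.1
      have e2 : z = a := le_antisymm (hz.2.trans hmx.le) hz.1
      rw [e1, e2]
  have hright : AntitoneOn (fun y => g (x - y)) (Icc m b) := by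
    rcases le_total x b with h | h
    · have hmx : x ≤ m := by
        rw [hm, min_eq_right h]
        exact le_max_right _ _
      intro y hy z hz hyz
      have e1 : g (x - y) = g (y - x) := by rw [← hev, neg_sub]
      have e2 : g (x - z) = g (z - x) := by rw [← hev, neg_sub]
      simp only [e1, e2]
      refine hg ?_ ?_ (by linarith)
      · simp only [mem_Ici, sub_nonneg]; exact hmx.trans hy.1
      · simp only [mem_Ici, sub_nonneg]; exact hmx.trans hz.1
    · have hmx : m = b := by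
        rw [hm, min_eq_left h, max_eq_right hab]
      intro y hy z hz _
      have e1 : y = b := le_antisymm hy.2 (hmx.ge.trans hy.1)
      have e2 : z = b := le_antisymm hz.2 (hmx.ge.trans hz.1)
      rw [e1, e2]
  have i1 : IntervalIntegrable (fun y => Real.cos (ω * y + θ) * g (x - y)) volume a m := by
    have : IntervalIntegrable (fun y => g (x - y)) volume a m := by
      apply MonotoneOn.intervalIntegrable
      rw [uIcc_of_le ham]
      exact hleft
    exact this.continuousOn_mul (by fun_prop)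
  have i2 : IntervalIntegrable (fun y => Real.cos (ω * y + θ) * g (x - y)) volume m b := by
    have : IntervalIntegrable (fun y => g (x - y)) volume m b := by
      apply AntitoneOn.intervalIntegrable
      rw [uIcc_of_le hmb]
      exact hright
    exact this.continuousOn_mul (by fun_prop)
  rw [← intervalIntegral.integral_add_adjacent_intervals i1 i2]
  have b1 := osc_monotone ω θ a m F hω ham _ hleft (fun y _ => h0 _) (fun y _ => hgF _)
  have b2 := osc_anti ω θ m b F hω hmb _ hright (fun y _ => h0 _) (fun y _ => hgF _)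
  refine (abs_add_le _ _).trans ?_
  have : 4 * F / ω = 2 * F / ω + 2 * F / ω := by ring
  rw [this]
  exact add_le_add b1 b2

/-! ### the kernels -/

lemma sqrt_two_pow (p : ℕ) : √((2:ℝ) ^ p) = Real.exp (p * Real.log 2 / 2) := by
  rw [Real.sqrt_eq_iff_mul_self_eq (by positivity) (Real.exp_pos _).le, ← Real.exp_add]
  rw [show (p * Real.log 2 / 2 + p * Real.log 2 / 2) = Real.log 2 * p by ring,
    Real.exp_mul, Real.exp_log (by norm_num), Real.rpow_natCast]

lemma FF_neg (p : ℕ) (w : ℝ) : FF p (-w) = FF p w := by unfold FF; rw [K_neg]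

lemma FF_pos (p : ℕ) (w : ℝ) : 0 < FF p w := Real.exp_pos _

lemma FF_anti (p : ℕ) : AntitoneOn (FF p) (Ici 0) := by
  intro a ha b _ hab
  unfold FF
  have := K_anti p ha hab
  gcongr

lemma FF_zero (p : ℕ) : FF p 0 = Real.exp (1 / 2) * √((2:ℝ) ^ p) := by
  unfold FF
  rw [K_zero, sqrt_two_pow, ← Real.exp_add]
  congr 1
  ring

lemma exp_half_le : Real.exp (1 / 2) ≤ 2 := by
  have h := Real.exp_one_lt_d9
  have h1 : Real.exp (1 / 2) * Real.exp (1 / 2) = Real.exp 1 := by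
    rw [← Real.exp_add]; norm_num
  nlinarith [Real.exp_pos (1 / 2 : ℝ)]

lemma continuous_FF (p : ℕ) : Continuous (FF p) := by
  unfold FF
  exact Real.continuous_exp.comp ((continuous_K p).div_const 2)

lemma kap_anti (k : ℕ) {a b : ℝ} (ha : 0 ≤ a) (hab : a ≤ b) :
    K (k + 1) b - K k b ≤ K (k + 1) a - K k a := by
  have hb : 0 ≤ b := ha.trans hab
  have hlt : ((2 : ℝ) ^ (k + 1))⁻¹ ≤ (2 ^ k)⁻¹ :=
    inv_anti₀ (by positivity) (pow_le_pow_right₀ (by norm_num) (by omega))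
  -- first region
  have r1 : ∀ a b : ℝ, 0 ≤ a → a ≤ b → b ≤ (2 ^ (k + 1))⁻¹ →
      K (k + 1) b - K k b ≤ K (k + 1) a - K k a := by
    intro a b ha hab hb
    have hb0 := ha.trans hab
    have e1 := kap_succ_of_le (k := k) (z := a) (by rw [abs_of_nonneg ha]; exact hab.trans hb)
    have e2 := kap_succ_of_le (k := k) (z := b) (by rw [abs_of_nonneg hb0]; exact hb)
    rw [kap_succ, abs_of_nonneg ha] at e1
    rw [kap_succ, abs_of_nonneg hb0] at e2
    rw [e1, e2]
    have : (2:ℝ) ^ k * a ≤ 2 ^ k * b := by gcongr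
    linarith
  -- second region
  have r2 : ∀ a b : ℝ, (2 ^ (k + 1))⁻¹ ≤ a → a ≤ b → b ≤ (2 ^ k)⁻¹ →
      K (k + 1) b - K k b ≤ K (k + 1) a - K k a := by
    intro a b ha hab hb
    have ha0 : 0 < a := (pow_inv_pos _).trans_le ha
    have hb0 : 0 < b := ha0.trans_le hab
    have hb1 : b ≤ 1 := hb.trans (pow_inv_le_one k)
    rw [K_of_ge (z := b) (by rw [abs_of_pos hb0]; exact ha.trans hab) (by rwa [abs_of_pos hb0]),
      K_of_ge (z := a) (by rw [abs_of_pos ha0]; exact ha)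
        (by rw [abs_of_pos ha0]; exact hab.trans hb1),
      K_of_le (z := b) (by rw [abs_of_pos hb0]; exact hb),
      K_of_le (z := a) (by rw [abs_of_pos ha0]; exact hab.trans hb), abs_of_pos hb0,
      abs_of_pos ha0]
    have h1 := Real.log_le_sub_one_of_pos (show 0 < a / b by positivity)
    rw [Real.log_div ha0.ne' hb0.ne'] at h1
    have h2 : a / b - 1 = -((b - a) / b) := by field_simp; ring
    have h3 : 2 ^ k * (b - a) ≤ (b - a) / b := by
      rw [le_div_iff₀ hb0]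
      have h4 : 2 ^ k * b ≤ 1 := by
        calc (2:ℝ) ^ k * b ≤ 2 ^ k * (2 ^ k)⁻¹ := by gcongr
          _ = 1 := mul_inv_cancel₀ (by positivity)
      nlinarith
    linarith
  -- third region
  have r3 : ∀ z : ℝ, (2 ^ k)⁻¹ ≤ z → K (k + 1) z - K k z = 0 := by
    intro z hz
    have hz0 : 0 < z := (pow_inv_pos _).trans_le hz
    have := kap_succ_of_ge (k := k) (z := z) (by rw [abs_of_pos hz0]; exact hz)
    rwa [kap_succ] at this
  have r0 : ∀ z : ℝ, 0 ≤ K (k + 1) z - K k z := fun z => by linarith [K_mono_succ k z]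
  rcases le_total b (2 ^ k)⁻¹ with h | h
  · rcases le_total b (2 ^ (k + 1))⁻¹ with h' | h'
    · exact r1 a b ha hab h'
    · rcases le_total a (2 ^ (k + 1))⁻¹ with h'' | h''
      · exact (r2 _ b le_rfl h' h).trans (r1 a _ ha h'' le_rfl)
      · exact r2 a b h'' hab h
  · rw [r3 b h]
    exact r0 a

lemma KD_anti {s p : ℕ} (h : s ≤ p) {a b : ℝ} (ha : 0 ≤ a) (hab : a ≤ b) :
    K p b - K s b ≤ K p a - K s a := by
  induction h with
  | refl => simp
  | @step m _ ih =>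
    have := kap_anti m ha hab
    linarith

/-- ratio kernel -/
noncomputable def GG (s p : ℕ) (w : ℝ) : ℝ := Real.exp ((K p w - K s w) / 2)

lemma GG_neg (s p : ℕ) (w : ℝ) : GG s p (-w) = GG s p w := by unfold GG; rw [K_neg, K_neg]

lemma GG_pos (s p : ℕ) (w : ℝ) : 0 < GG s p w := Real.exp_pos _

lemma GG_anti {s p : ℕ} (h : s ≤ p) : AntitoneOn (GG s p) (Ici 0) := by
  intro a ha b _ hab
  unfold GG
  have := KD_anti h ha hab
  gcongr

lemma GG_zero (s p : ℕ) : GG s p 0 = √((2:ℝ) ^ p) / √((2:ℝ) ^ s) := by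
  unfold GG
  rw [K_zero, K_zero, sqrt_two_pow, sqrt_two_pow, ← Real.exp_sub]
  congr 1
  ring

lemma continuous_GG (s p : ℕ) : Continuous (GG s p) := by
  unfold GG
  exact Real.continuous_exp.comp (((continuous_K p).sub (continuous_K s)).div_const 2)

lemma Psi_eq_GG (s p1 p2 : ℕ) (w : ℝ) : Psi s p1 p2 w = GG s p2 w - GG s p1 w := rfl

lemma continuous_Psi (s p1 p2 : ℕ) : Continuous (Psi s p1 p2) := by
  have : Psi s p1 p2 = fun w => GG s p2 w - GG s p1 w := rfl
  rw [this]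
  exact (continuous_GG s p2).sub (continuous_GG s p1)

theorem Psi_nonneg {s p1 p2 : ℕ} (h2 : p1 ≤ p2) (w : ℝ) : 0 ≤ Psi s p1 p2 w := by
  unfold Psi
  rw [sub_nonneg]
  have := K_mono h2 w
  gcongr

theorem Psi_eq_zero {s p1 p2 : ℕ} (h2 : p1 ≤ p2) {w : ℝ} (hw : (2 ^ p1)⁻¹ ≤ |w|) :
    Psi s p1 p2 w = 0 := by
  unfold Psi
  rw [K_eq_of_ge h2 hw, sub_self]

lemma Psi_neg (s p1 p2 : ℕ) (w : ℝ) : Psi s p1 p2 (-w) = Psi s p1 p2 w := by
  rw [Psi_eq_GG, Psi_eq_GG, GG_neg, GG_neg]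

lemma Psi_abs (s p1 p2 : ℕ) (w : ℝ) : Psi s p1 p2 |w| = Psi s p1 p2 w := by
  rcases abs_choice w with h | h <;> rw [h]
  exact Psi_neg _ _ _ _

theorem integrable_Psi {s p1 p2 : ℕ} (h1 : s ≤ p1) (h2 : p1 ≤ p2) :
    Integrable (Psi s p1 p2) := by
  refine (continuous_Psi s p1 p2).integrable_of_hasCompactSupport ?_
  refine HasCompactSupport.intro (isCompact_Icc (a := -(1:ℝ)) (b := 1)) fun w hw => ?_
  refine Psi_eq_zero h2 ?_
  have : 1 < |w| := by
    rw [mem_Icc, not_and_or, not_le, not_le] at hw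
    rcases hw with h | h
    · rw [lt_abs]; right; linarith
    · rw [lt_abs]; left; exact h
  exact (pow_inv_le_one p1).trans this.le

/-- oscillation for unimodal kernels with frequency `n` -/
lemma osc_uni_n (g : ℝ → ℝ) (F : ℝ) (hev : ∀ w, g (-w) = g w)
    (hg : AntitoneOn g (Ici 0)) (h0 : ∀ w, 0 ≤ g w) (hF : g 0 ≤ F) (n : ℕ) (hn : 1 ≤ n)
    (θ x a b : ℝ) (hab : a ≤ b) :
    |∫ y in a..b, Real.cos (2 * Real.pi * n * y + θ) * g (x - y)| ≤ F / n := by
  have hnR : (0:ℝ) < n := by exact_mod_cast hn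
  have hpi := Real.pi_gt_three
  have h := osc_uni (2 * Real.pi * n) θ a b x F (by positivity) hab g hev hg h0 hF
  refine h.trans ?_
  have hF0 : 0 ≤ F := (h0 0).trans hF
  rw [div_le_div_iff₀ (by positivity) hnR]
  nlinarith [mul_nonneg hF0 hnR.le, mul_le_mul_of_nonneg_right hpi.le (mul_nonneg hF0 hnR.le)]

lemma sqrt_pow_succ_le (p : ℕ) : √((2:ℝ) ^ (p + 1)) ≤ 2 * √((2:ℝ) ^ p) := by
  rw [Real.sqrt_le_left (by positivity), mul_pow, Real.sq_sqrt (by positivity), pow_succ]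
  have : (0:ℝ) < 2 ^ p := by positivity
  linarith

lemma intble_cos_mul (g : ℝ → ℝ) (hg : Continuous g) (ω θ x a b : ℝ) :
    IntervalIntegrable (fun y => Real.cos (ω * y + θ) * g (x - y)) volume a b := by
  apply Continuous.intervalIntegrable
  fun_prop

theorem osc_Psi : ∃ C : ℝ, 0 ≤ C ∧ ∀ s p n : ℕ, s ≤ p → 1 ≤ n → ∀ θ x : ℝ,
    |∫ y in (0 : ℝ)..1, Real.cos (2 * Real.pi * n * y + θ) * Psi s p (p + 1) (x - y)| ≤
      C * (√(2 ^ p) / √(2 ^ s)) / n := by
  refine ⟨3, by norm_num, fun s p n hsp hn θ x => ?_⟩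
  have hnR : (0:ℝ) < n := by exact_mod_cast hn
  have b1 := osc_uni_n (GG s (p + 1)) (√((2:ℝ) ^ (p + 1)) / √((2:ℝ) ^ s)) (GG_neg _ _)
    (GG_anti (by omega)) (fun w => (GG_pos _ _ w).le) (GG_zero _ _).le n hn θ x 0 1 zero_le_one
  have b2 := osc_uni_n (GG s p) (√((2:ℝ) ^ p) / √((2:ℝ) ^ s)) (GG_neg _ _)
    (GG_anti hsp) (fun w => (GG_pos _ _ w).le) (GG_zero _ _).le n hn θ x 0 1 zero_le_one
  have e1 : ∫ y in (0 : ℝ)..1, Real.cos (2 * Real.pi * n * y + θ) * Psi s p (p + 1) (x - y) =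
      (∫ y in (0 : ℝ)..1, Real.cos (2 * Real.pi * n * y + θ) * GG s (p + 1) (x - y)) -
      ∫ y in (0 : ℝ)..1, Real.cos (2 * Real.pi * n * y + θ) * GG s p (x - y) := by
    rw [← intervalIntegral.integral_sub (intble_cos_mul _ (continuous_GG _ _) _ _ _ _ _)
      (intble_cos_mul _ (continuous_GG _ _) _ _ _ _ _)]
    refine intervalIntegral.integral_congr fun y _ => ?_
    simp only [Psi_eq_GG]
    ring
  rw [e1]
  refine (abs_sub _ _).trans ((add_le_add b1 b2).trans ?_)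
  have h3 := sqrt_pow_succ_le p
  have h4 : 0 < √((2:ℝ) ^ s) := by positivity
  have h5 : √((2:ℝ) ^ (p + 1)) / √((2:ℝ) ^ s) ≤ 2 * (√((2:ℝ) ^ p) / √((2:ℝ) ^ s)) := by
    rw [mul_div_assoc']
    gcongr
  rw [← add_div]
  gcongr
  linarith

theorem osc_FF : ∃ C : ℝ, 0 ≤ C ∧ ∀ p n : ℕ, 1 ≤ n → ∀ θ x : ℝ,
    |∫ y in (0 : ℝ)..1, Real.cos (2 * Real.pi * n * y + θ) * (FF (p + 1) (x - y) - FF p (x - y))| ≤
      C * √(2 ^ p) / n := by
  refine ⟨6, by norm_num, fun p n hn θ x => ?_⟩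
  have hnR : (0:ℝ) < n := by exact_mod_cast hn
  have b1 := osc_uni_n (FF (p + 1)) (2 * √((2:ℝ) ^ (p + 1))) (FF_neg _)
    (FF_anti _) (fun w => (FF_pos _ w).le) (by
      rw [FF_zero]
      have := exp_half_le
      gcongr) n hn θ x 0 1 zero_le_one
  have b2 := osc_uni_n (FF p) (2 * √((2:ℝ) ^ p)) (FF_neg _)
    (FF_anti _) (fun w => (FF_pos _ w).le) (by
      rw [FF_zero]
      have := exp_half_le
      gcongr) n hn θ x 0 1 zero_le_one
  have e1 : ∫ y in (0 : ℝ)..1, Real.cos (2 * Real.pi * n * y + θ) *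
      (FF (p + 1) (x - y) - FF p (x - y)) =
      (∫ y in (0 : ℝ)..1, Real.cos (2 * Real.pi * n * y + θ) * FF (p + 1) (x - y)) -
      ∫ y in (0 : ℝ)..1, Real.cos (2 * Real.pi * n * y + θ) * FF p (x - y) := by
    rw [← intervalIntegral.integral_sub (intble_cos_mul _ (continuous_FF _) _ _ _ _ _)
      (intble_cos_mul _ (continuous_FF _) _ _ _ _ _)]
    refine intervalIntegral.integral_congr fun y _ => ?_
    ring
  rw [e1]
  refine (abs_sub _ _).trans ((add_le_add b1 b2).trans ?_)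
  have h3 := sqrt_pow_succ_le p
  rw [← add_div]
  gcongr
  linarith

theorem osc_FF0 : ∃ C : ℝ, 0 ≤ C ∧ ∀ n : ℕ, 1 ≤ n → ∀ θ x : ℝ,
    |∫ y in (0 : ℝ)..1, Real.cos (2 * Real.pi * n * y + θ) * FF 0 (x - y)| ≤ C / n := by
  refine ⟨2, by norm_num, fun n hn θ x => ?_⟩
  exact osc_uni_n (FF 0) 2 (FF_neg _)
    (FF_anti _) (fun w => (FF_pos _ w).le) (by
      rw [FF_zero]
      simpa using exp_half_le) n hn θ x 0 1 zero_le_one

/-! ### the singular kernel -/

lemma rpow_neg_half {w : ℝ} (hw : 0 < w) : w ^ (-(1 / 2) : ℝ) = Real.exp (-Real.log w / 2) := by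
  rw [Real.rpow_def_of_pos hw]
  congr 1
  ring

lemma rpow_neg_half' {w : ℝ} (hw : 0 < w) : w ^ (-(1 / 2) : ℝ) = 1 / √w := by
  rw [Real.rpow_neg hw.le, ← Real.sqrt_eq_rpow, one_div]

lemma FF_le_rpow (p : ℕ) {w : ℝ} (hw : 0 < w) (h1 : w ≤ 1) : FF p w ≤ w ^ (-(1 / 2) : ℝ) := by
  rw [rpow_neg_half hw]
  unfold FF
  have := K_le_neg_log p hw.ne' (by rwa [abs_of_pos hw])
  rw [abs_of_pos hw] at this
  gcongr

lemma FF_eq_rpow (p : ℕ) {w : ℝ} (hw : 0 < w) (h : (2 ^ p)⁻¹ ≤ w) (h1 : w ≤ 1) :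
    FF p w = w ^ (-(1 / 2) : ℝ) := by
  rw [rpow_neg_half hw]
  unfold FF
  rw [K_of_ge (by rwa [abs_of_pos hw]) (by rwa [abs_of_pos hw]), abs_of_pos hw]

lemma intble_rpow (a b : ℝ) : IntervalIntegrable (fun w : ℝ => w ^ (-(1 / 2) : ℝ)) volume a b :=
  intervalIntegral.intervalIntegrable_rpow' (by norm_num)

lemma integral_rpow_half (δ : ℝ) : ∫ w in (0:ℝ)..δ, w ^ (-(1 / 2) : ℝ) = 2 * √δ := by
  rw [integral_rpow (Or.inl (by norm_num)), Real.sqrt_eq_rpow, Real.zero_rpow (by norm_num)]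
  norm_num
  ring

lemma even_integral (f : ℝ → ℝ) (hf : ∀ w, f |w| = f w) (δ : ℝ) (hδ : 0 ≤ δ)
    (h0 : ∀ w, δ < w → f w = 0) : ∫ w, f w = 2 * ∫ w in (0:ℝ)..δ, f w := by
  have h1 := integral_comp_abs (f := f)
  simp_rw [hf] at h1
  rw [h1, intervalIntegral.integral_of_le hδ]
  congr 1
  have h2 : Ioi (0:ℝ) = Ioc 0 δ ∪ Ioi δ := (Ioc_union_Ioi_eq_Ioi hδ).symm
  rw [h2]
  refine setIntegral_eq_of_subset_of_forall_sdiff_eq_zero ?_ subset_union_left ?_
  · exact measurableSet_Ioc.union measurableSet_Ioi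
  · rintro x ⟨hx1, hx2⟩
    rcases hx1 with h | h
    · exact absurd h hx2
    · exact h0 x h

lemma GG_eq (s p : ℕ) (w : ℝ) : GG s p w = Real.exp (-(K s w / 2)) * FF p w := by
  unfold GG FF
  rw [← Real.exp_add]
  congr 1
  ring

lemma exp_K_le {s : ℕ} {w : ℝ} (h0 : 0 ≤ w) (hw : w ≤ (2 ^ s)⁻¹) :
    Real.exp (-(K s w / 2)) ≤ 1 / √((2:ℝ) ^ s) := by
  rw [sqrt_two_pow, one_div, ← Real.exp_neg]
  apply Real.exp_le_exp.2
  rw [K_of_le (by rwa [abs_of_nonneg h0]), abs_of_nonneg h0]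
  have h3 : 2 ^ s * w ≤ 1 := by
    calc (2 : ℝ) ^ s * w ≤ 2 ^ s * (2 ^ s)⁻¹ := by gcongr
      _ = 1 := mul_inv_cancel₀ (by positivity)
  linarith

lemma inv_pow_anti {s p : ℕ} (h : s ≤ p) : ((2:ℝ) ^ p)⁻¹ ≤ (2 ^ s)⁻¹ :=
  inv_anti₀ (by positivity) (pow_le_pow_right₀ (by norm_num) h)

theorem integral_Psi_le {s p1 p2 : ℕ} (h1 : s ≤ p1) (h2 : p1 ≤ p2) :
    ∫ w, Psi s p1 p2 w ≤ 4 / (√(2 ^ s) * √(2 ^ p1)) := by
  set δ : ℝ := (2 ^ p1)⁻¹ with hδ
  have hδ0 : 0 < δ := pow_inv_pos p1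
  rw [even_integral _ (Psi_abs s p1 p2) δ hδ0.le
    (fun w hw => Psi_eq_zero h2 (hw.le.trans (le_abs_self w)))]
  have h3 : ∫ w in (0:ℝ)..δ, Psi s p1 p2 w ≤
      ∫ w in (0:ℝ)..δ, (1 / √((2:ℝ) ^ s)) * w ^ (-(1 / 2) : ℝ) := by
    refine intervalIntegral.integral_mono_on_of_le_Ioo hδ0.le
      ((continuous_Psi s p1 p2).intervalIntegrable _ _) ((intble_rpow _ _).const_mul _) ?_
    intro w hw
    have hw1 : w ≤ 1 := hw.2.le.trans (pow_inv_le_one p1)
    have hws : w ≤ (2 ^ s)⁻¹ := hw.2.le.trans (inv_pow_anti h1)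
    calc Psi s p1 p2 w ≤ GG s p2 w := by
          rw [Psi_eq_GG]
          linarith [GG_pos s p1 w]
      _ = Real.exp (-(K s w / 2)) * FF p2 w := GG_eq _ _ _
      _ ≤ _ := mul_le_mul (exp_K_le hw.1.le hws) (FF_le_rpow p2 hw.1 hw1) (FF_pos _ _).le
          (by positivity)
  rw [intervalIntegral.integral_const_mul, integral_rpow_half] at h3
  refine (mul_le_mul_of_nonneg_left h3 (by norm_num)).trans (le_of_eq ?_)
  rw [hδ, Real.sqrt_inv]
  field_simp
  norm_num

/-! ### the main constant -/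

/-- the Fresnel type integral -/
noncomputable def cT (T : ℝ) : ℝ := 2 * ∫ u in (0:ℝ)..T, Real.cos (2 * Real.pi * u) * u ^ (-(1 / 2) : ℝ)

lemma intble_cos_rpow (ω a b : ℝ) :
    IntervalIntegrable (fun w : ℝ => Real.cos (ω * w) * w ^ (-(1 / 2) : ℝ)) volume a b :=
  (intble_rpow a b).continuousOn_mul (by fun_prop)

lemma rpow_anti {a : ℝ} (ha : 0 < a) {b : ℝ} : AntitoneOn (fun w : ℝ => w ^ (-(1 / 2) : ℝ)) (Icc a b) := by
  intro x hx y _ hxy
  exact Real.rpow_le_rpow_of_nonpos (ha.trans_le hx.1) hxy (by norm_num)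

lemma cT_diff {T T' : ℝ} (hT : 0 < T) (hTT : T ≤ T') : |cT T' - cT T| ≤ (2 / Real.pi) / √T := by
  unfold cT
  rw [← mul_sub, intervalIntegral.integral_interval_sub_left (intble_cos_rpow _ _ _)
    (intble_cos_rpow _ _ _), abs_mul, abs_two]
  have h1 := osc_anti (2 * Real.pi) 0 T T' (1 / √T) (by positivity) hTT
    (fun w : ℝ => w ^ (-(1 / 2) : ℝ)) (rpow_anti hT)
    (fun y hy => Real.rpow_nonneg (hT.le.trans hy.1) _)
    (fun y hy => by
      rw [← rpow_neg_half' hT]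
      exact Real.rpow_le_rpow_of_nonpos hT hy.1 (by norm_num))
  simp only [add_zero] at h1
  refine (mul_le_mul_of_nonneg_left h1 (by norm_num)).trans (le_of_eq ?_)
  have : 0 < √T := by positivity
  field_simp

lemma exists_lim : ∃ c0 : ℝ, ∀ T : ℝ, 0 < T → |cT T - c0| ≤ (2 / Real.pi) / √T := by
  have hcau : CauchySeq (fun m : ℕ => cT (m + 1)) := by
    refine cauchySeq_of_le_tendsto_0 (fun N : ℕ => (2 / Real.pi) / √((N:ℝ) + 1)) ?_ ?_
    · intro n m N hn hm
      have key : ∀ a b : ℕ, N ≤ a → a ≤ b → |cT (b + 1) - cT (a + 1)| ≤ (2 / Real.pi) / √((N:ℝ) + 1) := by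
        intro a b ha hab
        refine (cT_diff (by positivity) (by exact_mod_cast Nat.add_le_add_right hab 1)).trans ?_
        have : (N:ℝ) ≤ a := by exact_mod_cast ha
        gcongr
      rw [Real.dist_eq]
      rcases le_total n m with h | h
      · rw [abs_sub_comm]; exact key n m hn h
      · exact key m n hm h
    · refine Tendsto.const_div_atTop ?_ _
      exact Real.tendsto_sqrt_atTop.comp (tendsto_atTop_add_const_right _ _ tendsto_natCast_atTop_atTop)
  obtain ⟨c0, hc0⟩ := cauchySeq_tendsto_of_complete hcau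
  refine ⟨c0, fun T hT => ?_⟩
  have h1 : Tendsto (fun m : ℕ => |cT T - cT (m + 1)|) atTop (𝓝 |cT T - c0|) :=
    (tendsto_const_nhds.sub hc0).abs
  refine le_of_tendsto h1 ?_
  obtain ⟨m0, hm0⟩ := exists_nat_ge T
  filter_upwards [eventually_ge_atTop m0] with m hm
  rw [abs_sub_comm]
  refine cT_diff hT ?_
  have : (m0:ℝ) ≤ m := by exact_mod_cast hm
  linarith

lemma cT_quarter : 2 - Real.pi ^ 2 / 20 ≤ cT (1 / 4) := by
  unfold cT
  have h1 : ∫ u in (0:ℝ)..(1 / 4), (u ^ (-(1 / 2) : ℝ) - 2 * Real.pi ^ 2 * u ^ (3 / 2 : ℝ)) ≤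
      ∫ u in (0:ℝ)..(1 / 4), Real.cos (2 * Real.pi * u) * u ^ (-(1 / 2) : ℝ) := by
    refine intervalIntegral.integral_mono_on_of_le_Ioo (by norm_num)
      ((intble_rpow _ _).sub ((intervalIntegral.intervalIntegrable_rpow' (by norm_num)).const_mul _))
      (intble_cos_rpow _ _ _) ?_
    intro u hu
    have hc := Real.one_sub_sq_div_two_le_cos (x := 2 * Real.pi * u)
    have h0 : 0 ≤ u ^ (-(1 / 2) : ℝ) := Real.rpow_nonneg hu.1.le _
    have h3 : u ^ (3 / 2 : ℝ) = u ^ 2 * u ^ (-(1 / 2) : ℝ) := by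
      rw [← Real.rpow_natCast u 2, ← Real.rpow_add hu.1]
      norm_num
    rw [h3]
    nlinarith [mul_le_mul_of_nonneg_right hc h0]
  rw [intervalIntegral.integral_sub (intble_rpow _ _)
    ((intervalIntegral.intervalIntegrable_rpow' (by norm_num)).const_mul _),
    intervalIntegral.integral_const_mul, integral_rpow_half,
    integral_rpow (Or.inl (by norm_num)), Real.zero_rpow (by norm_num)] at h1
  have h4 : √(1 / 4 : ℝ) = 1 / 2 := by
    rw [show (1 / 4 : ℝ) = (1 / 2) ^ 2 by norm_num, Real.sqrt_sq (by norm_num)]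
  have h5 : (1 / 4 : ℝ) ^ (3 / 2 + 1 : ℝ) = 1 / 32 := by
    rw [show (1 / 4 : ℝ) = (1 / 2) ^ (2:ℝ) by norm_num, ← Real.rpow_mul (by norm_num),
      show (2 : ℝ) * (3 / 2 + 1) = ((5 : ℕ) : ℝ) by norm_num, Real.rpow_natCast]
    norm_num
  rw [h4, h5] at h1
  norm_num at h1 ⊢
  linarith

lemma exists_c0_aux : ∃ c0 : ℝ, 0 < c0 ∧ ∀ T : ℝ, 0 < T → |cT T - c0| ≤ 1 / √T := by
  obtain ⟨c0, hc0⟩ := exists_lim
  have hpi1 := Real.pi_gt_three
  have hpi2 := Real.pi_lt_d2
  refine ⟨c0, ?_, fun T hT => (hc0 T hT).trans ?_⟩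
  · have h1 := hc0 (1 / 4) (by norm_num)
    have h4 : √(1 / 4 : ℝ) = 1 / 2 := by
      rw [show (1 / 4 : ℝ) = (1 / 2) ^ 2 by norm_num, Real.sqrt_sq (by norm_num)]
    rw [h4] at h1
    have h2 := cT_quarter
    have h3 : (2 / Real.pi) / (1 / 2) ≤ 4 / 3 := by
      rw [div_div, div_le_div_iff₀ (by positivity) (by norm_num)]
      linarith
    have h5 := (abs_le.1 h1).2
    nlinarith
  · have : 2 / Real.pi ≤ 1 := by
      rw [div_le_one (by positivity)]
      linarith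
    gcongr

lemma subst_cT (n : ℕ) (hn : 1 ≤ n) (δ : ℝ) (hδ : 0 < δ) :
    2 * √n * ∫ w in (0:ℝ)..δ, Real.cos (2 * Real.pi * n * w) * w ^ (-(1 / 2) : ℝ) = cT (n * δ) := by
  have hnR : (0:ℝ) < n := by exact_mod_cast hn
  unfold cT
  have h1 := intervalIntegral.mul_integral_comp_mul_left (a := 0) (b := δ)
    (f := fun u : ℝ => Real.cos (2 * Real.pi * u) * u ^ (-(1 / 2) : ℝ)) (c := (n:ℝ))
  rw [mul_zero] at h1
  rw [← h1]
  have h2 : ∫ x in (0:ℝ)..δ, Real.cos (2 * Real.pi * (n * x)) * (n * x) ^ (-(1 / 2) : ℝ) =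
      (1 / √n) * ∫ w in (0:ℝ)..δ, Real.cos (2 * Real.pi * n * w) * w ^ (-(1 / 2) : ℝ) := by
    rw [← intervalIntegral.integral_const_mul]
    refine intervalIntegral.integral_congr fun x hx => ?_
    rw [uIcc_of_le hδ.le] at hx
    rw [Real.mul_rpow hnR.le hx.1, rpow_neg_half' hnR, mul_assoc (2 * Real.pi) (n:ℝ) x]
    ring
  rw [h2]
  have e : (n:ℝ) * (1 / √n) = √n := by
    have := Real.mul_self_sqrt hnR.le
    have h3 : 0 < √(n:ℝ) := by positivity
    field_simp
    linarith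
  calc 2 * √(n:ℝ) * ∫ w in (0:ℝ)..δ, Real.cos (2 * Real.pi * n * w) * w ^ (-(1 / 2) : ℝ)
      = 2 * ((n:ℝ) * (1 / √n)) *
        ∫ w in (0:ℝ)..δ, Real.cos (2 * Real.pi * n * w) * w ^ (-(1 / 2) : ℝ) := by rw [e]
    _ = _ := by ring

/-- Main constant. -/
theorem exists_c0 : ∃ c0 C : ℝ, 0 < c0 ∧ 0 ≤ C ∧ ∀ n s p1 p2 : ℕ, 1 ≤ n → s ≤ p1 → p1 ≤ p2 →
    2 ^ p1 ≤ n →
    |√n * Real.exp ((1 + s * Real.log 2) / 2) *
        (∫ w, Real.cos (2 * Real.pi * n * w) * Psi s p1 p2 w) - c0| ≤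
      C * (√(2 ^ p1 / n) + √(n / 2 ^ p2) + 2 ^ s / 2 ^ p1 * √(n / 2 ^ p1)) := by
  obtain ⟨c0, hc0, hc⟩ := exists_c0_aux
  refine ⟨c0, 4, hc0, by norm_num, fun n s p1 p2 hn h1 h2 hpn => ?_⟩
  have hnR : (0:ℝ) < n := by exact_mod_cast hn
  set δ : ℝ := (2 ^ p1)⁻¹ with hδ
  set δ' : ℝ := (2 ^ p2)⁻¹ with hδ'
  have hδ0 : 0 < δ := pow_inv_pos p1
  have hδ1 : δ ≤ 1 := pow_inv_le_one p1
  have hδ'0 : 0 < δ' := pow_inv_pos p2
  have hδδ : δ' ≤ δ := inv_pow_anti h2
  set ω : ℝ := 2 * Real.pi * n with hω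
  have hω0 : 0 < ω := by positivity
  have hpi := Real.pi_gt_three
  -- reduce to the half line
  have e1 : ∫ w, Real.cos (ω * w) * Psi s p1 p2 w =
      2 * ∫ w in (0:ℝ)..δ, Real.cos (ω * w) * Psi s p1 p2 w := by
    refine even_integral _ (fun w => ?_) δ hδ0.le (fun w hw => ?_)
    · rw [Psi_abs]
      congr 1
      rcases abs_choice w with h | h <;> rw [h]
      rw [mul_neg, Real.cos_neg]
    · rw [Psi_eq_zero h2 (hw.le.trans (le_abs_self w)), mul_zero]
  -- the decomposition on the half line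
  have e2 : Real.exp ((1 + s * Real.log 2) / 2) *
      (∫ w in (0:ℝ)..δ, Real.cos (ω * w) * Psi s p1 p2 w) =
      (∫ w in (0:ℝ)..δ, Real.cos (ω * w) * w ^ (-(1 / 2) : ℝ)) +
      (∫ w in (0:ℝ)..δ, Real.cos (ω * w) * ((Real.exp (2 ^ s * w / 2) - 1) *
        (FF p2 w - FF p1 w))) -
      (∫ w in (0:ℝ)..δ, Real.cos (ω * w) * FF p1 w) -
      ∫ w in (0:ℝ)..δ, Real.cos (ω * w) * (w ^ (-(1 / 2) : ℝ) - FF p2 w) := by
    have i1 := intble_cos_rpow ω 0 δ
    have i2 : IntervalIntegrable (fun w => Real.cos (ω * w) * ((Real.exp (2 ^ s * w / 2) - 1) *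
        (FF p2 w - FF p1 w))) volume 0 δ := by
      have := continuous_FF p1
      have := continuous_FF p2
      apply Continuous.intervalIntegrable
      fun_prop
    have i3 : IntervalIntegrable (fun w => Real.cos (ω * w) * FF p1 w) volume 0 δ := by
      have := continuous_FF p1
      apply Continuous.intervalIntegrable
      fun_prop
    have i4 : IntervalIntegrable (fun w => Real.cos (ω * w) * (w ^ (-(1 / 2) : ℝ) - FF p2 w))
        volume 0 δ :=
      ((intble_rpow 0 δ).sub ((continuous_FF p2).intervalIntegrable _ _)).continuousOn_mul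
        (by fun_prop)
    rw [← intervalIntegral.integral_const_mul, ← intervalIntegral.integral_add i1 i2,
      ← intervalIntegral.integral_sub (i1.add i2) i3,
      ← intervalIntegral.integral_sub ((i1.add i2).sub i3) i4]
    refine intervalIntegral.integral_congr fun w hw => ?_
    rw [uIcc_of_le hδ0.le] at hw
    have hws : w ≤ (2 ^ s)⁻¹ := hw.2.trans (inv_pow_anti h1)
    have h3 : Real.exp ((1 + s * Real.log 2) / 2) * Real.exp (-(K s w / 2)) =
        Real.exp (2 ^ s * w / 2) := by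
      rw [← Real.exp_add, K_of_le (by rwa [abs_of_nonneg hw.1]), abs_of_nonneg hw.1]
      congr 1
      ring
    rw [Psi_eq_GG, GG_eq, GG_eq]
    calc Real.exp ((1 + s * Real.log 2) / 2) * (Real.cos (ω * w) *
          (Real.exp (-(K s w / 2)) * FF p2 w - Real.exp (-(K s w / 2)) * FF p1 w))
        = (Real.exp ((1 + s * Real.log 2) / 2) * Real.exp (-(K s w / 2))) *
          (Real.cos (ω * w) * (FF p2 w - FF p1 w)) := by ring
      _ = _ := by
          rw [h3]
          ring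
  -- bound of I2
  have b2 : |∫ w in (0:ℝ)..δ, Real.cos (ω * w) * ((Real.exp (2 ^ s * w / 2) - 1) *
        (FF p2 w - FF p1 w))| ≤ 2 ^ s * δ * (2 * √δ) := by
    have h3 : ‖∫ w in (0:ℝ)..δ, Real.cos (ω * w) * ((Real.exp (2 ^ s * w / 2) - 1) *
        (FF p2 w - FF p1 w))‖ ≤ ∫ w in (0:ℝ)..δ, (2 ^ s * δ) * w ^ (-(1 / 2) : ℝ) := by
      refine intervalIntegral.norm_integral_le_of_norm_le hδ0.le (ae_of_all _ fun w hw => ?_)
        ((intble_rpow _ _).const_mul _)
      have hw1 : w ≤ 1 := hw.2.trans hδ1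
      have hws : w ≤ (2 ^ s)⁻¹ := hw.2.trans (inv_pow_anti h1)
      have hx1 : 2 ^ s * w ≤ 1 := by
        calc (2 : ℝ) ^ s * w ≤ 2 ^ s * (2 ^ s)⁻¹ := by gcongr
          _ = 1 := mul_inv_cancel₀ (by positivity)
      have hx0 : 0 ≤ 2 ^ s * w := by
        have := hw.1.le
        positivity
      have hexp : |Real.exp (2 ^ s * w / 2) - 1| ≤ 2 ^ s * δ := by
        have h4 := Real.abs_exp_sub_one_le (x := 2 ^ s * w / 2) (by
          rw [abs_of_nonneg (by positivity)]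
          linarith)
        rw [abs_of_nonneg (show 0 ≤ 2 ^ s * w / 2 by positivity)] at h4
        have h5 : 2 ^ s * w ≤ 2 ^ s * δ := by
          have := hw.2
          gcongr
        linarith
      have hF : |FF p2 w - FF p1 w| ≤ w ^ (-(1 / 2) : ℝ) := by
        have h4 : FF p1 w ≤ FF p2 w := by
          unfold FF
          have := K_mono h2 w
          gcongr
        rw [abs_of_nonneg (by linarith)]
        have := FF_le_rpow p2 hw.1 hw1
        have := FF_pos p1 w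
        linarith
      rw [norm_mul, norm_mul, Real.norm_eq_abs, Real.norm_eq_abs, Real.norm_eq_abs]
      calc |Real.cos (ω * w)| * (|Real.exp (2 ^ s * w / 2) - 1| * |FF p2 w - FF p1 w|)
          ≤ 1 * ((2 ^ s * δ) * w ^ (-(1 / 2) : ℝ)) := by
            have := Real.abs_cos_le_one (ω * w)
            gcongr
        _ = _ := one_mul _
    rw [intervalIntegral.integral_const_mul, integral_rpow_half] at h3
    exact h3
  -- bound of I3
  have b3 : |∫ w in (0:ℝ)..δ, Real.cos (ω * w) * FF p1 w| ≤ √(2 ^ p1) / n := by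
    have h3 := osc_anti ω 0 0 δ (2 * √((2:ℝ) ^ p1)) hω0 hδ0.le (FF p1)
      ((FF_anti p1).mono Icc_subset_Ici_self) (fun y _ => (FF_pos _ _).le) (fun y hy => by
        refine (FF_anti p1 (by simp) hy.1 hy.1).trans ?_
        rw [FF_zero]
        have := exp_half_le
        gcongr)
    simp only [add_zero] at h3
    refine h3.trans ?_
    rw [hω, div_le_div_iff₀ (by positivity) hnR]
    have h4 : 0 ≤ √((2:ℝ) ^ p1) * n := by positivity
    nlinarith [mul_le_mul_of_nonneg_right hpi.le h4]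
  -- bound of I4
  have b4 : |∫ w in (0:ℝ)..δ, Real.cos (ω * w) * (w ^ (-(1 / 2) : ℝ) - FF p2 w)| ≤ 2 * √δ' := by
    have j1 : IntervalIntegrable (fun w => Real.cos (ω * w) * (w ^ (-(1 / 2) : ℝ) - FF p2 w))
        volume 0 δ' :=
      ((intble_rpow 0 δ').sub ((continuous_FF p2).intervalIntegrable _ _)).continuousOn_mul
        (by fun_prop)
    have j2 : IntervalIntegrable (fun w => Real.cos (ω * w) * (w ^ (-(1 / 2) : ℝ) - FF p2 w))
        volume δ' δ :=
      ((intble_rpow δ' δ).sub ((continuous_FF p2).intervalIntegrable _ _)).continuousOn_mul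
        (by fun_prop)
    rw [← intervalIntegral.integral_add_adjacent_intervals j1 j2]
    have h3 : ∫ w in δ'..δ, Real.cos (ω * w) * (w ^ (-(1 / 2) : ℝ) - FF p2 w) = 0 := by
      rw [intervalIntegral.integral_congr (g := fun _ => 0) (fun w hw => ?_)]
      · simp
      · rw [uIcc_of_le hδδ] at hw
        simp only
        rw [FF_eq_rpow p2 (hδ'0.trans_le hw.1) hw.1 (hw.2.trans hδ1), sub_self, mul_zero]
    rw [h3, add_zero]
    have h4 : ‖∫ w in (0:ℝ)..δ', Real.cos (ω * w) * (w ^ (-(1 / 2) : ℝ) - FF p2 w)‖ ≤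
        ∫ w in (0:ℝ)..δ', w ^ (-(1 / 2) : ℝ) := by
      refine intervalIntegral.norm_integral_le_of_norm_le hδ'0.le (ae_of_all _ fun w hw => ?_)
        (intble_rpow _ _)
      have hw1 : w ≤ 1 := (hw.2.trans hδδ).trans hδ1
      rw [norm_mul, Real.norm_eq_abs, Real.norm_eq_abs]
      have h5 := FF_le_rpow p2 hw.1 hw1
      have h6 := FF_pos p2 w
      rw [abs_of_nonneg (sub_nonneg.2 h5)]
      calc |Real.cos (ω * w)| * (w ^ (-(1 / 2) : ℝ) - FF p2 w)
          ≤ 1 * (w ^ (-(1 / 2) : ℝ) - FF p2 w) := by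
            have := Real.abs_cos_le_one (ω * w)
            have := sub_nonneg.2 h5
            gcongr
        _ ≤ _ := by linarith
    rw [integral_rpow_half] at h4
    exact h4
  -- assemble
  have e3 := subst_cT n hn δ hδ0
  have hT := hc (n * δ) (by positivity)
  set I1 := ∫ w in (0:ℝ)..δ, Real.cos (ω * w) * w ^ (-(1 / 2) : ℝ) with hI1
  set I2 := ∫ w in (0:ℝ)..δ, Real.cos (ω * w) * ((Real.exp (2 ^ s * w / 2) - 1) *
        (FF p2 w - FF p1 w)) with hI2
  set I3 := ∫ w in (0:ℝ)..δ, Real.cos (ω * w) * FF p1 w with hI3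
  set I4 := ∫ w in (0:ℝ)..δ, Real.cos (ω * w) * (w ^ (-(1 / 2) : ℝ) - FF p2 w) with hI4
  have e4 : √n * Real.exp ((1 + s * Real.log 2) / 2) *
        (∫ w, Real.cos (ω * w) * Psi s p1 p2 w) - c0 =
      (cT (n * δ) - c0) + 2 * √n * I2 - 2 * √n * I3 - 2 * √n * I4 := by
    rw [e1, ← e3]
    have : √n * Real.exp ((1 + s * Real.log 2) / 2) *
        (2 * ∫ w in (0:ℝ)..δ, Real.cos (ω * w) * Psi s p1 p2 w) =
        2 * √n * (Real.exp ((1 + s * Real.log 2) / 2) *
        ∫ w in (0:ℝ)..δ, Real.cos (ω * w) * Psi s p1 p2 w) := by ring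
    rw [this, e2]
    ring
  rw [e4]
  have hsn : 0 < √(n:ℝ) := by positivity
  have hs2 : 0 ≤ 2 * √(n:ℝ) := by positivity
  have t1 : |2 * √n * I2| ≤ 2 * √n * (2 ^ s * δ * (2 * √δ)) := by
    rw [abs_mul, abs_of_nonneg hs2]
    gcongr
  have t2 : |2 * √n * I3| ≤ 2 * √n * (√(2 ^ p1) / n) := by
    rw [abs_mul, abs_of_nonneg hs2]
    gcongr
  have t3 : |2 * √n * I4| ≤ 2 * √n * (2 * √δ') := by
    rw [abs_mul, abs_of_nonneg hs2]
    gcongr
  have hA : 1 / √(n * δ) = √(2 ^ p1 / n) := by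
    rw [← Real.sqrt_one, ← Real.sqrt_div (by norm_num), hδ]
    congr 1
    field_simp
  have hB : √n * (√((2:ℝ) ^ p1) / n) = √(2 ^ p1 / n) := by
    rw [Real.sqrt_div (by positivity)]
    have := Real.mul_self_sqrt hnR.le
    field_simp
    nlinarith
  have hC : √n * √δ' = √(n / 2 ^ p2) := by
    rw [← Real.sqrt_mul hnR.le, hδ']
    congr 1
  have hD : √n * (2 ^ s * δ * √δ) = 2 ^ s / 2 ^ p1 * √(n / 2 ^ p1) := by
    have : √(n / 2 ^ p1 : ℝ) = √n * √δ := by
      rw [← Real.sqrt_mul hnR.le, hδ]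
      congr 1
    rw [this, hδ]
    ring
  rw [hA] at hT
  calc |cT (n * δ) - c0 + 2 * √n * I2 - 2 * √n * I3 - 2 * √n * I4|
      ≤ |cT (n * δ) - c0| + |2 * √n * I2| + |2 * √n * I3| + |2 * √n * I4| := by
        have a1 := abs_sub (cT (n * δ) - c0 + 2 * √n * I2 - 2 * √n * I3) (2 * √n * I4)
        have a2 := abs_sub (cT (n * δ) - c0 + 2 * √n * I2) (2 * √n * I3)
        have a3 := abs_add_le (cT (n * δ) - c0) (2 * √n * I2)
        linarith
    _ ≤ √(2 ^ p1 / n) + 2 * √n * (2 ^ s * δ * (2 * √δ)) + 2 * √n * (√(2 ^ p1) / n) +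
        2 * √n * (2 * √δ') := by linarith
    _ = 3 * √(2 ^ p1 / n) + 4 * (2 ^ s / 2 ^ p1 * √(n / 2 ^ p1)) + 4 * √(n / 2 ^ p2) := by
        rw [← hC, ← hD]
        have : 2 * √n * (√(2 ^ p1) / n) = 2 * √(2 ^ p1 / n) := by rw [mul_assoc, hB]
        rw [this]
        ring
    _ ≤ _ := by
        have : 0 ≤ √((2:ℝ) ^ p1 / n) := Real.sqrt_nonneg _
        linarith

end Pool.Agent.helper95.GMC
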