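import Pool.Agent.helper95.GMC.Mid

/-!
Module K: chaining of the one-step bounds (`fine_sum`, `coarse_sum`).
-/

open MeasureTheory ProbabilityTheory Filter Topology Set
open scoped ENNReal NNReal

namespace Pool.Agent.helper95.GMC

set_option maxHeartbeats 400000

namespace Cone

lemma uncond_step_uniform : ∃ C : ℝ, 0 ≤ C ∧ ∀ {μ : Measure Path}, Cone μ →
    ∀ (n p : ℕ) (θ : ℝ), 1 ≤ n →
    ∫⁻ z, ENNReal.ofReal ((CC n θ (p + 1) z - CC n θ p z) ^ 2) ∂μ ≤
      ENNReal.ofReal (C * √(2 ^ p) / n) := by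
  obtain ⟨C, hC0, hC⟩ := osc_FF
  refine ⟨C, hC0, fun {μ} h n p θ hn => ?_⟩
  have := h.isProb
  set ν : Measure ℝ := volume.restrict (Set.Ioc (0 : ℝ) 1) with hν
  have hprob : IsFiniteMeasure ν := by rw [hν]; infer_instance
  set Φ : ℝ → Path → ℝ := fun x z => cs n θ x * (mm (p + 1) x z - mm p x z) with hΦdef
  have hΦ : Measurable fun q : ℝ × Path => Φ q.1 q.2 :=
    ((measurable_cs n θ).comp measurable_fst).mul ((measurable_mm (p + 1)).sub (measurable_mm p))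
  set R : ℝ → ℝ → ℝ := fun x y => cs n θ x * (cs n θ y * (FF (p + 1) (x - y) - FF p (x - y)))
    with hRdef
  have hcalc : ∀ x y, Integrable (fun ω => Φ x ω * Φ y ω) μ ∧ ∫ ω, Φ x ω * Φ y ω ∂μ = R x y := by
    intro x y
    have i1 := h.integrable_mm_mul (p + 1) x y
    obtain ⟨i2, e2⟩ := h.integral_mm_mul' p 1 x y
    obtain ⟨i3, e3⟩ := h.integral_mm_mul' p 1 y x
    have i4 := h.integrable_mm_mul p x y
    have e : ∀ ω, Φ x ω * Φ y ω = cs n θ x * cs n θ y * (mm (p + 1) x ω * mm (p + 1) y ω -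
        mm (p + 1) x ω * mm p y ω - mm (p + 1) y ω * mm p x ω + mm p x ω * mm p y ω) := by
      intro ω; simp only [hΦdef]; ring
    have i12 : Integrable (fun z => mm (p + 1) x z * mm (p + 1) y z -
      mm (p + 1) x z * mm p y z) μ := i1.sub i2
    have i123 : Integrable (fun z => mm (p + 1) x z * mm (p + 1) y z -
      mm (p + 1) x z * mm p y z - mm (p + 1) y z * mm p x z) μ := i12.sub i3
    have i1234 : Integrable (fun z => mm (p + 1) x z * mm (p + 1) y z -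
      mm (p + 1) x z * mm p y z - mm (p + 1) y z * mm p x z + mm p x z * mm p y z) μ :=
      i123.add i4
    constructor
    · exact (i1234.const_mul (cs n θ x * cs n θ y)).congr (ae_of_all _ fun z => (e z).symm)
    · simp_rw [e]
      rw [integral_const_mul, integral_add i123 i4, integral_sub i12 i3, integral_sub i1 i2,
        h.integral_mm_mul, e2, e3, h.integral_mm_mul]
      have h1 : FF p (y - x) = FF p (x - y) := by
        unfold FF
        rw [← neg_sub x y, K_neg]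
      rw [h1]
      simp only [hRdef]
      ring
  have hRd : Integrable (fun x => R x x) ν := by
    simp only [hRdef, sub_self]
    have : Continuous fun x => cs n θ x * (cs n θ x * (FF (p + 1) 0 - FF p 0)) := by
      have := continuous_cs n θ
      fun_prop
    exact (this.integrableOn_Icc (a := 0) (b := 1)).mono_set Set.Ioc_subset_Icc_self
  obtain ⟨h1, h2, h3⟩ := sec_mom μ ν Φ hΦ R (fun x y => (hcalc x y).1) (fun x y => (hcalc x y).2) hRd
  have hae : ∀ᵐ z ∂μ, CC n θ (p + 1) z - CC n θ p z = ∫ x, Φ x z ∂ν := by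
    filter_upwards [h.ae_int (p + 1), h.ae_int p] with z hz1 hz2
    have j1 : ∀ q, IntegrableOn (fun x => mm q x z) (Set.Icc (0 : ℝ) 1) →
        Integrable (fun x => cs n θ x * mm q x z) ν := by
      intro q hq
      refine Integrable.bdd_mul (c := 1) (hq.mono_set Set.Ioc_subset_Icc_self)
        (measurable_cs n θ).aestronglyMeasurable (ae_of_all _ fun x => ?_)
      exact abs_cs_le n θ x
    unfold CC
    rw [intervalIntegral.integral_of_le zero_le_one, intervalIntegral.integral_of_le zero_le_one,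
      ← integral_sub (j1 _ hz1) (j1 _ hz2)]
    refine integral_congr_ae (ae_of_all _ fun x => ?_)
    simp only [hΦdef]
    ring
  have hval : ∫⁻ z, ENNReal.ofReal ((CC n θ (p + 1) z - CC n θ p z) ^ 2) ∂μ =
      ENNReal.ofReal (∫ q : ℝ × ℝ, R q.1 q.2 ∂(ν.prod ν)) := by
    rw [← h3, ofReal_integral_eq_lintegral_ofReal h1 (ae_of_all _ fun z => sq_nonneg _)]
    refine lintegral_congr_ae ?_
    filter_upwards [hae] with z hz
    rw [hz]
  rw [hval]
  refine ENNReal.ofReal_le_ofReal ?_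
  rw [integral_prod _ h2]
  have hb : ∀ x : ℝ, |∫ y, R x y ∂ν| ≤ C * √(2 ^ p) / n := by
    intro x
    have e4 : ∫ y, R x y ∂ν = cs n θ x * ∫ y in (0 : ℝ)..1,
        Real.cos (2 * Real.pi * n * y + θ) * (FF (p + 1) (x - y) - FF p (x - y)) := by
      rw [intervalIntegral.integral_of_le zero_le_one, ← integral_const_mul]
      rfl
    rw [e4, abs_mul]
    calc |cs n θ x| * _ ≤ 1 * (C * √(2 ^ p) / n) := by
          gcongr
          · exact abs_cs_le n θ x
          · exact hC p n hn θ x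
      _ = _ := one_mul _
  have h5 := norm_integral_le_of_norm_le_const (μ := ν) (f := fun x => ∫ y, R x y ∂ν)
    (ae_of_all _ fun x => (Real.norm_eq_abs _).le.trans (hb x))
  refine (le_abs_self _).trans (h5.trans (le_of_eq ?_))
  rw [hν]
  simp

lemma uncond_zero_uniform : ∃ C : ℝ, 0 ≤ C ∧ ∀ {μ : Measure Path}, Cone μ →
    ∀ (n : ℕ) (θ : ℝ), 1 ≤ n →
    ∫⁻ z, ENNReal.ofReal (CC n θ 0 z ^ 2) ∂μ ≤ ENNReal.ofReal (C / n) := by
  obtain ⟨C, hC0, hC⟩ := osc_FF0
  refine ⟨C, hC0, fun {μ} h n θ hn => ?_⟩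
  have := h.isProb
  set ν : Measure ℝ := volume.restrict (Set.Ioc (0 : ℝ) 1) with hν
  have hprob : IsFiniteMeasure ν := by rw [hν]; infer_instance
  set Φ : ℝ → Path → ℝ := fun x z => cs n θ x * mm 0 x z with hΦdef
  have hΦ : Measurable fun q : ℝ × Path => Φ q.1 q.2 :=
    ((measurable_cs n θ).comp measurable_fst).mul (measurable_mm 0)
  set R : ℝ → ℝ → ℝ := fun x y => cs n θ x * (cs n θ y * FF 0 (x - y)) with hRdef
  have hcalc : ∀ x y, Integrable (fun ω => Φ x ω * Φ y ω) μ ∧ ∫ ω, Φ x ω * Φ y ω ∂μ = R x y := by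
    intro x y
    have i1 := h.integrable_mm_mul 0 x y
    have e : ∀ ω, Φ x ω * Φ y ω = cs n θ x * cs n θ y * (mm 0 x ω * mm 0 y ω) := by
      intro ω; simp only [hΦdef]; ring
    constructor
    · exact (i1.const_mul (cs n θ x * cs n θ y)).congr (ae_of_all _ fun z => (e z).symm)
    · simp_rw [e]
      rw [integral_const_mul, h.integral_mm_mul]
      simp only [hRdef]
      ring
  have hRd : Integrable (fun x => R x x) ν := by
    simp only [hRdef, sub_self]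
    have : Continuous fun x => cs n θ x * (cs n θ x * FF 0 0) := by
      have := continuous_cs n θ
      fun_prop
    exact (this.integrableOn_Icc (a := 0) (b := 1)).mono_set Set.Ioc_subset_Icc_self
  obtain ⟨h1, h2, h3⟩ := sec_mom μ ν Φ hΦ R (fun x y => (hcalc x y).1) (fun x y => (hcalc x y).2) hRd
  have hval : ∫⁻ z, ENNReal.ofReal (CC n θ 0 z ^ 2) ∂μ =
      ENNReal.ofReal (∫ q : ℝ × ℝ, R q.1 q.2 ∂(ν.prod ν)) := by
    rw [← h3, ofReal_integral_eq_lintegral_ofReal h1 (ae_of_all _ fun z => sq_nonneg _)]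
    refine lintegral_congr fun z => ?_
    unfold CC
    rw [intervalIntegral.integral_of_le zero_le_one]
  rw [hval]
  refine ENNReal.ofReal_le_ofReal ?_
  rw [integral_prod _ h2]
  have hb : ∀ x : ℝ, |∫ y, R x y ∂ν| ≤ C / n := by
    intro x
    have e4 : ∫ y, R x y ∂ν = cs n θ x * ∫ y in (0 : ℝ)..1,
        Real.cos (2 * Real.pi * n * y + θ) * FF 0 (x - y) := by
      rw [intervalIntegral.integral_of_le zero_le_one, ← integral_const_mul]
      rfl
    rw [e4, abs_mul]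
    calc |cs n θ x| * _ ≤ 1 * (C / n) := by
          gcongr
          · exact abs_cs_le n θ x
          · exact hC n hn θ x
      _ = _ := one_mul _
  have h5 := norm_integral_le_of_norm_le_const (μ := ν) (f := fun x => ∫ y, R x y ∂ν)
    (ae_of_all _ fun x => (Real.norm_eq_abs _).le.trans (hb x))
  refine (le_abs_self _).trans (h5.trans (le_of_eq ?_))
  rw [hν]
  simp


end Cone

/-! ### The `L²` norm on a set -/

/-- `L²` norm on the set `G` -/
noncomputable def L2 (μ : Measure Path) (G : Set Path) (F : Path → ℝ) : ℝ≥0∞ :=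
  eLpNorm F 2 (μ.restrict G)

lemma L2_sq (μ : Measure Path) {G : Set Path} (hG : MeasurableSet G) (F : Path → ℝ) :
    L2 μ G F ^ 2 = ∫⁻ z, G.indicator (fun z => ENNReal.ofReal (F z ^ 2)) z ∂μ := by
  rw [lintegral_indicator hG]
  have h := eLpNorm_nnreal_pow_eq_lintegral (μ := μ.restrict G) (f := F) (p := 2) (by norm_num)
  have e : ((2 : ℝ≥0) : ℝ) = ((2 : ℕ) : ℝ) := by norm_num
  rw [e, ENNReal.rpow_natCast] at h
  unfold L2
  rw [ENNReal.coe_ofNat] at h
  rw [h]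
  refine lintegral_congr fun z => ?_
  rw [ENNReal.rpow_natCast, ← enorm_pow, Real.enorm_eq_ofReal (sq_nonneg _)]

lemma L2_le {μ : Measure Path} {G : Set Path} (hG : MeasurableSet G) {F : Path → ℝ} {b : ℝ}
    (h : ∫⁻ z, G.indicator (fun z => ENNReal.ofReal (F z ^ 2)) z ∂μ ≤ ENNReal.ofReal b) :
    L2 μ G F ≤ ENNReal.ofReal (√b) := by
  rw [← L2_sq μ hG] at h
  rcases le_or_gt b 0 with hb | hb
  · rw [ENNReal.ofReal_of_nonpos hb] at h
    have h2 : L2 μ G F ^ 2 = 0 := le_antisymm h zero_le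
    rw [pow_eq_zero_iff (by norm_num)] at h2
    rw [h2]
    exact zero_le
  · have h2 : ENNReal.ofReal b = ENNReal.ofReal (√b) ^ 2 := by
      rw [← ENNReal.ofReal_pow (Real.sqrt_nonneg _), Real.sq_sqrt hb.le]
    rw [h2] at h
    exact (ENNReal.pow_le_pow_left_iff (by norm_num)).mp h

lemma le_of_L2 {μ : Measure Path} {G : Set Path} (hG : MeasurableSet G) {F : Path → ℝ} {b : ℝ}
    (hb : 0 ≤ b) (h : L2 μ G F ≤ ENNReal.ofReal b) :
    ∫⁻ z, G.indicator (fun z => ENNReal.ofReal (F z ^ 2)) z ∂μ ≤ ENNReal.ofReal (b ^ 2) := by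
  rw [← L2_sq μ hG, ENNReal.ofReal_pow hb]
  exact pow_le_pow_left' h 2

lemma L2_add_le {μ : Measure Path} {G : Set Path} {F F' : Path → ℝ} (hF : Measurable F)
    (hF' : Measurable F') : L2 μ G (fun z => F z + F' z) ≤ L2 μ G F + L2 μ G F' :=
  eLpNorm_add_le hF.aestronglyMeasurable hF'.aestronglyMeasurable (by norm_num)

lemma L2_mono {μ : Measure Path} {G G' : Set Path} (h : G ⊆ G') (F : Path → ℝ) :
    L2 μ G F ≤ L2 μ G' F :=
  eLpNorm_mono_measure F (Measure.restrict_mono h le_rfl)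

lemma measurable_CC (n : ℕ) (θ : ℝ) (p : ℕ) : Measurable (CC n θ p) := by
  have e : CC n θ p = fun z => ∫ x, cs n θ x * mm p x z ∂(volume.restrict (Set.Ioc (0 : ℝ) 1)) := by
    funext z
    unfold CC
    rw [intervalIntegral.integral_of_le zero_le_one]
  rw [e]
  have h1 : Measurable (fun q : Path × ℝ => cs n θ q.2 * mm p q.2 q.1) :=
    ((measurable_cs n θ).comp measurable_snd).mul (measurable_mm_swap p)
  exact (h1.stronglyMeasurable.integral_prod_right
    (ν := volume.restrict (Set.Ioc (0 : ℝ) 1))).measurable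

/-- the increment -/
noncomputable def dC (n : ℕ) (θ : ℝ) (p : ℕ) (z : Path) : ℝ := CC n θ (p + 1) z - CC n θ p z

lemma measurable_dC (n : ℕ) (θ : ℝ) (p : ℕ) : Measurable (dC n θ p) :=
  (measurable_CC n θ (p + 1)).sub (measurable_CC n θ p)

/-- chaining -/
lemma L2_chain (μ : Measure Path) (G : Set Path) (n : ℕ) (θ : ℝ) {p J : ℕ} (hpJ : p ≤ J) :
    L2 μ G (fun z => CC n θ J z - CC n θ p z) ≤ ∑ q ∈ Finset.Ico p J, L2 μ G (dC n θ q) := by
  induction J, hpJ using Nat.le_induction with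
  | base => simp [L2]
  | succ J hJ ih =>
    rw [Finset.sum_Ico_succ_top hJ]
    have e : (fun z => CC n θ (J + 1) z - CC n θ p z) =
        fun z => (CC n θ J z - CC n θ p z) + dC n θ J z := by
      funext z
      unfold dC
      ring
    rw [e]
    exact (L2_add_le ((measurable_CC n θ J).sub (measurable_CC n θ p))
      (measurable_dC n θ J)).trans (add_le_add ih le_rfl)

lemma dC_ae {μ : Measure Path} (h : Cone μ) (n : ℕ) (θ : ℝ) (p : ℕ) :
    ∀ᵐ z ∂μ, dC n θ p z = RS UI (cs n θ) p (p + 1) z := by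
  filter_upwards [h.ae_int (p + 1), h.ae_int p] with z hz1 hz2
  have j1 : ∀ q, IntegrableOn (fun x => mm q x z) (Set.Icc (0 : ℝ) 1) →
      Integrable (fun x => cs n θ x * mm q x z) (volume.restrict (Set.Icc (0 : ℝ) 1)) := by
    intro q hq
    refine Integrable.bdd_mul (c := 1) hq
      (measurable_cs n θ).aestronglyMeasurable (ae_of_all _ fun x => ?_)
    exact abs_cs_le n θ x
  unfold dC CC RS UI
  rw [intervalIntegral.integral_of_le zero_le_one, intervalIntegral.integral_of_le zero_le_one,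
    ← integral_Icc_eq_integral_Ioc, ← integral_Icc_eq_integral_Ioc,
    ← integral_sub (j1 _ hz1) (j1 _ hz2)]
  refine integral_congr_ae (ae_of_all _ fun x => ?_)
  simp only
  ring

lemma dC_lintegral {μ : Measure Path} (h : Cone μ) (n : ℕ) (θ : ℝ) (p : ℕ) (G : Set Path) :
    ∫⁻ z, G.indicator (fun z => ENNReal.ofReal (dC n θ p z ^ 2)) z ∂μ =
    ∫⁻ z, G.indicator (fun z => ENNReal.ofReal (RS UI (cs n θ) p (p + 1) z ^ 2)) z ∂μ := by
  refine lintegral_congr_ae ?_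
  filter_upwards [dC_ae h n θ p] with z hz
  by_cases hg : z ∈ G
  · rw [Set.indicator_of_mem hg, Set.indicator_of_mem hg, hz]
  · rw [Set.indicator_of_notMem hg, Set.indicator_of_notMem hg]

/-! ### Geometric sums -/

/-- `2^{1/4}` -/
noncomputable def qr : ℝ := √(√2)

lemma qr_pos : 0 < qr := by unfold qr; positivity

lemma qr_sq_sq (p : ℕ) : (qr ^ p) ^ 2 = √(2 ^ p) := by
  unfold qr
  rw [← pow_mul, mul_comm, pow_mul, Real.sq_sqrt (Real.sqrt_nonneg _)]
  rw [Real.sqrt_eq_rpow, Real.sqrt_eq_rpow, ← Real.rpow_natCast, ← Real.rpow_natCast,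
    ← Real.rpow_mul (by norm_num), ← Real.rpow_mul (by norm_num), mul_comm]

lemma one_lt_qr : 1 < qr := by
  unfold qr
  rw [Real.lt_sqrt (by norm_num), one_pow, Real.lt_sqrt (by norm_num)]
  norm_num

lemma sqrt_sqrt_pow (p : ℕ) : √(√(2 ^ p)) = qr ^ p := by
  rw [← qr_sq_sq, Real.sqrt_sq (by have := qr_pos; positivity)]

/-- the constant of the geometric sums -/
noncomputable def gcst : ℝ := 1 / (1 - qr⁻¹) + 1 / (qr - 1)

lemma gcst_pos : 0 < gcst := by
  have h1 := one_lt_qr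
  have h2 : qr⁻¹ < 1 := inv_lt_one_of_one_lt₀ h1
  unfold gcst
  have h3 : 0 < 1 - qr⁻¹ := by linarith
  have h4 : 0 < qr - 1 := by linarith
  positivity

lemma sum_qr_inv (p J : ℕ) : ∑ q ∈ Finset.Ico p J, (qr⁻¹) ^ q ≤ gcst * (qr⁻¹) ^ p := by
  have h1 := one_lt_qr
  have h2 : qr⁻¹ < 1 := inv_lt_one_of_one_lt₀ h1
  have h3 : 0 < 1 - qr⁻¹ := by linarith
  have h4 : 0 < qr - 1 := by linarith
  have h5 : 0 ≤ qr⁻¹ := (inv_pos.mpr qr_pos).le
  refine (geom_sum_Ico_le_of_lt_one h5 h2).trans ?_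
  unfold gcst
  have h6 : 0 ≤ 1 / (qr - 1) * (qr⁻¹) ^ p := by positivity
  have h7 : (qr⁻¹) ^ p / (1 - qr⁻¹) = 1 / (1 - qr⁻¹) * (qr⁻¹) ^ p := by ring
  rw [h7, add_mul]
  linarith

lemma sum_qr (p : ℕ) : ∑ q ∈ Finset.range p, qr ^ q ≤ gcst * qr ^ p := by
  have h1 := one_lt_qr
  have h2 : qr⁻¹ < 1 := inv_lt_one_of_one_lt₀ h1
  have h3 : 0 < 1 - qr⁻¹ := by linarith
  have h4 : 0 < qr - 1 := by linarith
  rw [geom_sum_eq (by linarith : qr ≠ 1)]
  unfold gcst
  have h5 : 0 < qr ^ p := pow_pos qr_pos p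
  have h6 : 0 ≤ 1 / (1 - qr⁻¹) * qr ^ p := by positivity
  have h7 : (qr ^ p - 1) / (qr - 1) ≤ 1 / (qr - 1) * qr ^ p := by
    rw [one_div_mul_eq_div]
    gcongr
    linarith
  rw [add_mul]
  linarith


lemma fine_dC {C : ℝ} (hC1 : 1 ≤ C) {μ : Measure Path} (h : Cone μ) {M : ℝ} (hM : 0 ≤ M)
    (hC : ∀ (s : ℕ) (x : ℝ), Cone.aq μ M s x ≤ ENNReal.ofReal (C * (1 + M) * √(2 ^ s) / √(s + 1)))
    (θ : ℝ) (n : ℕ) {p q J : ℕ} (hpq : p ≤ q) (hqJ : q ≤ J) :
    L2 μ (Good M J) (dC n θ q) ≤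
      ENNReal.ofReal (√(4 * C * (1 + M) / √(p + 1)) * (qr⁻¹) ^ q) := by
  have h1 : L2 μ (Good M q) (dC n θ q) ≤ ENNReal.ofReal
      (√(4 / (√(2 ^ q) * √(2 ^ (q + 0))) * (C * (1 + M) * √(2 ^ q) / √(q + 1)))) := by
    refine L2_le (measurableSet_Good M q) ?_
    rw [dC_lintegral h]
    have h2 := h.good_RS_le hM q (k1 := 0) (k2 := 1) (by omega) (C := C) (hC q) (S := UI)
      measurableSet_Icc subset_rfl (measurable_cs n θ) (abs_cs_le n θ)
    have hvol : volume UI = 1 := by simp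
    rw [hvol, mul_one] at h2
    refine h2.trans (le_of_eq ?_)
    rw [← ENNReal.ofReal_mul (by positivity)]
    rfl
  refine (L2_mono (Good_anti M hqJ) _).trans (h1.trans (ENNReal.ofReal_le_ofReal ?_))
  rw [add_zero]
  have hq0 : 0 < √((2 : ℝ) ^ q) := by positivity
  have h3 : 4 / (√((2 : ℝ) ^ q) * √(2 ^ q)) * (C * (1 + M) * √(2 ^ q) / √(q + 1)) ≤
      4 * C * (1 + M) / √(p + 1) * ((qr⁻¹) ^ q) ^ 2 := by
    have e1 : ((qr⁻¹) ^ q) ^ 2 = (√(2 ^ q))⁻¹ := by
      rw [inv_pow, inv_pow, qr_sq_sq]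
    rw [e1]
    have e2 : 4 / (√((2 : ℝ) ^ q) * √(2 ^ q)) * (C * (1 + M) * √(2 ^ q) / √(q + 1)) =
        4 * C * (1 + M) / √(q + 1) * (√(2 ^ q))⁻¹ := by
      field_simp
    rw [e2]
    have h4 : √((p : ℝ) + 1) ≤ √(q + 1) := by
      apply Real.sqrt_le_sqrt
      have : (p : ℝ) ≤ q := by exact_mod_cast hpq
      linarith
    have h5 : 0 < √((p : ℝ) + 1) := by positivity
    have h6 : 0 ≤ 4 * C * (1 + M) := by positivity
    gcongr
  refine (Real.sqrt_le_sqrt h3).trans (le_of_eq ?_)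
  rw [Real.sqrt_mul' _ (by positivity), Real.sqrt_sq (by have := qr_pos; positivity)]

theorem fine_sum : ∃ C : ℝ, 0 ≤ C ∧ ∀ {μ : Measure Path}, Cone μ → ∀ (M θ : ℝ) (n p J : ℕ),
    0 ≤ M → p ≤ J →
    ∫⁻ z, (Good M J).indicator (fun z => ENNReal.ofReal ((CC n θ J z - CC n θ p z) ^ 2)) z ∂μ ≤
      ENNReal.ofReal (C * (1 + M) / (√(2 ^ p) * √(p + 1))) := by
  obtain ⟨C, hC1, hC⟩ := Cone.aq_le
  refine ⟨4 * C * gcst ^ 2, by positivity, ?_⟩
  intro μ h M θ n p J hM hpJ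
  have hg := gcst_pos
  have hq := qr_pos
  have h1 : L2 μ (Good M J) (fun z => CC n θ J z - CC n θ p z) ≤
      ENNReal.ofReal (√(4 * C * (1 + M) / √(p + 1)) * (gcst * (qr⁻¹) ^ p)) := by
    refine (L2_chain μ (Good M J) n θ hpJ).trans ?_
    have h2 : ∑ q ∈ Finset.Ico p J, L2 μ (Good M J) (dC n θ q) ≤
        ∑ q ∈ Finset.Ico p J, ENNReal.ofReal (√(4 * C * (1 + M) / √(p + 1)) * (qr⁻¹) ^ q) := by
      refine Finset.sum_le_sum fun q hq => ?_
      rw [Finset.mem_Ico] at hq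
      exact fine_dC hC1 h hM (fun s x => hC h M s x hM) θ n hq.1 hq.2.le
    refine h2.trans ?_
    rw [← ENNReal.ofReal_sum_of_nonneg (fun q _ => by positivity), ← Finset.mul_sum]
    refine ENNReal.ofReal_le_ofReal ?_
    exact mul_le_mul_of_nonneg_left (sum_qr_inv p J) (Real.sqrt_nonneg _)
  refine (le_of_L2 (measurableSet_Good M J) (by positivity) h1).trans (le_of_eq ?_)
  congr 1
  rw [mul_pow, mul_pow, Real.sq_sqrt (by positivity), inv_pow, inv_pow, qr_sq_sq]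
  field_simp


lemma coarse_dC {C : ℝ} (hC0 : 0 ≤ C) {μ : Measure Path} {M : ℝ} (hM : 0 ≤ M) (h : Cone μ)
    (θ : ℝ) (n : ℕ) (hn1 : 1 ≤ n)
    (hC : ∀ (s p : ℕ), s + 2 ≤ p →
      ∫⁻ z, (Good M s).indicator (fun z => ENNReal.ofReal (RS UI (cs n θ) p (p + 1) z ^ 2)) z ∂μ ≤
        ENNReal.ofReal (C * (1 + M) / √(s + 1) * (√(2 ^ p) / n + 2 ^ s / (2 ^ p * √(2 ^ p)))))
    {k q J : ℕ} (hk0 : 1 ≤ k) (hk : n < 2 ^ (k + 1)) (hq1 : 3 * k ≤ 4 * q) (hq2 : q + 2 ≤ k)
    (hqJ : k ≤ J) :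
    L2 μ (Good M J) (dC n θ q) ≤ ENNReal.ofReal (√(6 * C * (1 + M) / (√k * n)) * qr ^ q) := by
  have hkq : k ≤ 2 * q := by omega
  obtain ⟨s, hs⟩ : ∃ s, 2 * q = s + k := ⟨2 * q - k, by omega⟩
  have h1 := hC s q (by omega)
  have hn0 : (0 : ℝ) < n := by exact_mod_cast hn1
  have h2 : L2 μ (Good M s) (dC n θ q) ≤ ENNReal.ofReal
      (√(C * (1 + M) / √(s + 1) * (√(2 ^ q) / n + 2 ^ s / (2 ^ q * √(2 ^ q))))) := by
    refine L2_le (measurableSet_Good M s) ?_
    rw [dC_lintegral h]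
    exact h1
  refine (L2_mono (Good_anti M (by omega : s ≤ J)) _).trans (h2.trans
    (ENNReal.ofReal_le_ofReal ?_))
  have hq0 : 0 < √((2 : ℝ) ^ q) := by positivity
  have hk0' : (0 : ℝ) < k := by exact_mod_cast hk0
  have h3 : (2 : ℝ) ^ s / (2 ^ q * √(2 ^ q)) ≤ 2 * (√(2 ^ q) / n) := by
    have e1 : (2 : ℝ) ^ s = 2 ^ q * 2 ^ q / 2 ^ k := by
      rw [eq_div_iff (by positivity), ← pow_add, ← pow_add]
      congr 1
      omega
    have e2 : (2 : ℝ) ^ q = √(2 ^ q) * √(2 ^ q) := (Real.mul_self_sqrt (by positivity)).symm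
    have e3 : (2 : ℝ) ^ s / (2 ^ q * √(2 ^ q)) = √(2 ^ q) / 2 ^ k := by
      rw [e1]
      have : (2 : ℝ) ^ q * 2 ^ q / 2 ^ k / (2 ^ q * √(2 ^ q)) = 2 ^ q / √(2 ^ q) / 2 ^ k := by
        field_simp
      rw [this]
      congr 1
      rw [div_eq_iff hq0.ne']
      exact e2
    rw [e3, ← mul_div_assoc, div_le_div_iff₀ (by positivity) hn0]
    have hk' : (n : ℝ) ≤ 2 * 2 ^ k := by
      have : (n : ℝ) < 2 ^ (k + 1) := by exact_mod_cast hk
      rw [pow_succ] at this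
      linarith
    nlinarith
  have h4 : 1 / √((s : ℝ) + 1) ≤ 2 / √k := by
    rw [div_le_div_iff₀ (by positivity) (by positivity), one_mul]
    have h5 : (2 : ℝ) * √(s + 1) = √(4 * (s + 1)) := by
      rw [Real.sqrt_mul (by norm_num)]
      congr 1
      rw [show (4 : ℝ) = 2 ^ 2 by norm_num, Real.sqrt_sq (by norm_num)]
    rw [h5]
    apply Real.sqrt_le_sqrt
    have : k ≤ 4 * (s + 1) := by omega
    exact_mod_cast this
  have h6 : C * (1 + M) / √(s + 1) * (√(2 ^ q) / n + 2 ^ s / (2 ^ q * √(2 ^ q))) ≤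
      6 * C * (1 + M) / (√k * n) * (qr ^ q) ^ 2 := by
    rw [qr_sq_sq]
    have h7 : 0 ≤ C * (1 + M) := by positivity
    calc C * (1 + M) / √(s + 1) * (√(2 ^ q) / n + 2 ^ s / (2 ^ q * √(2 ^ q)))
        ≤ C * (1 + M) / √(s + 1) * (√(2 ^ q) / n + 2 * (√(2 ^ q) / n)) := by gcongr
      _ = C * (1 + M) * (1 / √(s + 1)) * (3 * (√(2 ^ q) / n)) := by ring
      _ ≤ C * (1 + M) * (2 / √k) * (3 * (√(2 ^ q) / n)) := by gcongr
      _ = _ := by
        field_simp
        ring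
  refine (Real.sqrt_le_sqrt h6).trans (le_of_eq ?_)
  rw [Real.sqrt_mul' _ (by positivity), Real.sqrt_sq (by have := qr_pos; positivity)]

lemma big_pow (A j : ℕ) (hj : 2 * A + 14 ≤ j) : (j + 1) * 2 ^ (A + 5) ≤ 2 ^ j := by
  induction j, hj using Nat.le_induction with
  | base =>
    have h1 : 2 ^ (2 * A + 14) = 2 ^ (A + 9) * 2 ^ (A + 5) := by
      rw [← pow_add]
      congr 1
      omega
    rw [h1]
    apply Nat.mul_le_mul_right
    have h2 : A < 2 ^ A := Nat.lt_two_pow_self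
    rw [pow_add]
    omega
  | succ j hj ih =>
    rw [pow_succ 2 j]
    have : (j + 1 + 1) * 2 ^ (A + 5) ≤ (j + 1) * 2 ^ (A + 5) * 2 := by
      have h0 : 0 < 2 ^ (A + 5) := by positivity
      nlinarith
    omega

/-- `k = Nat.log 2 n` -/
theorem coarse_sum : ∃ C : ℝ, 0 ≤ C ∧ ∀ (A : ℕ), 2 ≤ A → ∃ n0 : ℕ, ∀ {μ : Measure Path},
    Cone μ → ∀ (M θ : ℝ) (n J : ℕ), 0 ≤ M → n0 ≤ n → Nat.log 2 n ≤ J →
    ∫⁻ z, (Good M J).indicator (fun z => ENNReal.ofReal
        ((CC n θ (Nat.log 2 n - A) z) ^ 2)) z ∂μ ≤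
      ENNReal.ofReal (C * (1 + M) / √(2 ^ A) / (√n * √(Nat.log 2 n))) := by
  obtain ⟨C0, hC00, hC0⟩ := Cone.uncond_zero_uniform
  obtain ⟨C1, hC10, hC1⟩ := Cone.uncond_step_uniform
  obtain ⟨C2, hC20, hC2⟩ := Cone.coarse_step
  have hg := gcst_pos
  have hqr := qr_pos
  refine ⟨3 * (C0 + C1 * gcst ^ 2 + 6 * C2 * gcst ^ 2), by positivity, fun A hA =>
    ⟨2 ^ (4 * (2 * A + 14)), ?_⟩⟩
  intro μ h M θ n J hM hn hJ
  set k := Nat.log 2 n with hk
  have hn00 : n ≠ 0 := by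
    have : 0 < 2 ^ (4 * (2 * A + 14)) := by positivity
    omega
  have hn1 : 1 ≤ n := Nat.one_le_iff_ne_zero.mpr hn00
  have hkn : 2 ^ k ≤ n := Nat.pow_log_le_self 2 hn00
  have hkn2 : n < 2 ^ (k + 1) := Nat.lt_pow_succ_log_self one_lt_two n
  have hk1 : 4 * (2 * A + 14) ≤ k := by
    have : 2 ^ (4 * (2 * A + 14)) < 2 ^ (k + 1) := lt_of_le_of_lt hn hkn2
    have := (Nat.pow_lt_pow_iff_right one_lt_two).mp this
    omega
  set p0 := (3 * k + 3) / 4 with hp0
  have hbig : k * 2 ^ (p0 + A) ≤ 2 ^ k := by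
    have hj := big_pow A (k / 4) (by omega)
    have h1 : k ≤ 4 * (k / 4 + 1) := by omega
    have h2 : p0 ≤ 3 * (k / 4) + 3 := by omega
    calc k * 2 ^ (p0 + A) ≤ 4 * (k / 4 + 1) * 2 ^ (3 * (k / 4) + 3 + A) := by
          apply Nat.mul_le_mul h1
          exact Nat.pow_le_pow_right (by norm_num) (by omega)
      _ = (k / 4 + 1) * 2 ^ (A + 5) * 2 ^ (3 * (k / 4)) := by
          rw [show 3 * (k / 4) + 3 + A = 3 * (k / 4) + (A + 3) by omega, pow_add, pow_add, pow_add]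
          ring
      _ ≤ 2 ^ (k / 4) * 2 ^ (3 * (k / 4)) := Nat.mul_le_mul_right _ hj
      _ = 2 ^ (k / 4 + 3 * (k / 4)) := by rw [pow_add]
      _ ≤ 2 ^ k := Nat.pow_le_pow_right (by norm_num) (by omega)
  have hp0k : p0 ≤ k - A := by omega
  have hn0 : (0 : ℝ) < n := by exact_mod_cast hn1
  have hk0' : (0 : ℝ) < k := by
    have : 0 < k := by omega
    exact_mod_cast this
  have hGm := measurableSet_Good M J
  have hind : ∀ F : Path → ℝ≥0∞, ∫⁻ z, (Good M J).indicator F z ∂μ ≤ ∫⁻ z, F z ∂μ := fun F =>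
    lintegral_mono fun z => Set.indicator_le_self _ _ z
  -- the three parts
  have hL0 : L2 μ (Good M J) (CC n θ 0) ≤ ENNReal.ofReal (√(C0 / n)) :=
    L2_le hGm ((hind _).trans (hC0 h n θ hn1))
  have hL1 : L2 μ (Good M J) (fun z => CC n θ p0 z - CC n θ 0 z) ≤
      ENNReal.ofReal (√(C1 / n) * (gcst * qr ^ p0)) := by
    refine (L2_chain μ (Good M J) n θ (Nat.zero_le p0)).trans ?_
    have h2 : ∑ q ∈ Finset.Ico 0 p0, L2 μ (Good M J) (dC n θ q) ≤
        ∑ q ∈ Finset.Ico 0 p0, ENNReal.ofReal (√(C1 / n) * qr ^ q) := by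
      refine Finset.sum_le_sum fun q _ => ?_
      have h3 : L2 μ (Good M J) (dC n θ q) ≤ ENNReal.ofReal (√(C1 * √(2 ^ q) / n)) :=
        L2_le hGm ((hind _).trans (hC1 h n q θ hn1))
      refine h3.trans (le_of_eq ?_)
      congr 1
      rw [show C1 * √(2 ^ q) / (n : ℝ) = C1 / n * √(2 ^ q) by ring,
        Real.sqrt_mul' _ (Real.sqrt_nonneg _), sqrt_sqrt_pow]
    refine h2.trans ?_
    rw [← ENNReal.ofReal_sum_of_nonneg (fun q _ => by positivity), ← Finset.mul_sum]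
    refine ENNReal.ofReal_le_ofReal ?_
    refine mul_le_mul_of_nonneg_left ?_ (Real.sqrt_nonneg _)
    rw [← Finset.range_eq_Ico]
    exact sum_qr p0
  have hL2 : L2 μ (Good M J) (fun z => CC n θ (k - A) z - CC n θ p0 z) ≤
      ENNReal.ofReal (√(6 * C2 * (1 + M) / (√k * n)) * (gcst * qr ^ (k - A))) := by
    refine (L2_chain μ (Good M J) n θ hp0k).trans ?_
    have h2 : ∑ q ∈ Finset.Ico p0 (k - A), L2 μ (Good M J) (dC n θ q) ≤
        ∑ q ∈ Finset.Ico p0 (k - A), ENNReal.ofReal (√(6 * C2 * (1 + M) / (√k * n)) * qr ^ q) := by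
      refine Finset.sum_le_sum fun q hq => ?_
      rw [Finset.mem_Ico] at hq
      exact coarse_dC hC20 hM h θ n hn1 (fun s p hsp => hC2 h M θ n s p hM hn1 hsp) (by omega)
        hkn2 (by omega) (by omega) hJ
    refine h2.trans ?_
    rw [← ENNReal.ofReal_sum_of_nonneg (fun q _ => by positivity), ← Finset.mul_sum]
    refine ENNReal.ofReal_le_ofReal ?_
    refine mul_le_mul_of_nonneg_left ?_ (Real.sqrt_nonneg _)
    refine le_trans ?_ (sum_qr (k - A))
    refine Finset.sum_le_sum_of_subset_of_nonneg ?_ fun q _ _ => by positivity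
    intro x hx
    simp only [Finset.mem_range, Finset.mem_Ico] at hx ⊢
    omega
  set a := √(C0 / n) with ha
  set b := √(C1 / n) * (gcst * qr ^ p0) with hb
  set c := √(6 * C2 * (1 + M) / (√k * n)) * (gcst * qr ^ (k - A)) with hc
  have ha0 : 0 ≤ a := Real.sqrt_nonneg _
  have hb0 : 0 ≤ b := by positivity
  have hc0 : 0 ≤ c := by positivity
  have htot : L2 μ (Good M J) (CC n θ (k - A)) ≤ ENNReal.ofReal (a + b + c) := by
    have e : CC n θ (k - A) = fun z => (CC n θ 0 z + (CC n θ p0 z - CC n θ 0 z)) +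
        (CC n θ (k - A) z - CC n θ p0 z) := by
      funext z
      ring
    rw [e, ENNReal.ofReal_add (by positivity) hc0, ENNReal.ofReal_add ha0 hb0]
    have m0 := measurable_CC n θ 0
    have m1 := measurable_CC n θ p0
    have m2 := measurable_CC n θ (k - A)
    refine (L2_add_le (m0.add (m1.sub m0)) (m2.sub m1)).trans (add_le_add ?_ hL2)
    exact (L2_add_le m0 (m1.sub m0)).trans (add_le_add hL0 hL1)
  refine (le_of_L2 hGm (by positivity) htot).trans (ENNReal.ofReal_le_ofReal ?_)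
  have hsq : (a + b + c) ^ 2 ≤ 3 * (a ^ 2 + b ^ 2 + c ^ 2) := by
    nlinarith [sq_nonneg (a - b), sq_nonneg (b - c), sq_nonneg (a - c)]
  have ea : a ^ 2 = C0 / n := Real.sq_sqrt (by positivity)
  have eb : b ^ 2 = C1 / n * (gcst ^ 2 * √(2 ^ p0)) := by
    rw [hb, mul_pow, mul_pow, Real.sq_sqrt (by positivity), qr_sq_sq]
  have ec : c ^ 2 = 6 * C2 * (1 + M) / (√k * n) * (gcst ^ 2 * √(2 ^ (k - A))) := by
    rw [hc, mul_pow, mul_pow, Real.sq_sqrt (by positivity), qr_sq_sq]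
  set T := 1 / √((2 : ℝ) ^ A) / (√n * √k) with hT
  have hT0 : 0 < T := by positivity
  have h1 : √((2 : ℝ) ^ p0) / n ≤ T := by
    rw [hT, div_div, div_le_div_iff₀ hn0 (by positivity), one_mul]
    have e1 : √((2 : ℝ) ^ p0) * (√(2 ^ A) * (√n * √k)) = √(k * 2 ^ (p0 + A)) * √n := by
      rw [pow_add, Real.sqrt_mul (by positivity), Real.sqrt_mul (by positivity)]
      ring
    rw [e1]
    have h2 : √((k : ℝ) * 2 ^ (p0 + A)) ≤ √n := by
      apply Real.sqrt_le_sqrt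
      have : k * 2 ^ (p0 + A) ≤ n := hbig.trans hkn
      exact_mod_cast this
    calc √((k : ℝ) * 2 ^ (p0 + A)) * √n ≤ √n * √n := by gcongr
      _ = n := Real.mul_self_sqrt hn0.le
  have h2 : 1 / (n : ℝ) ≤ √((2 : ℝ) ^ p0) / n := by
    have : 1 ≤ √((2 : ℝ) ^ p0) := by
      rw [Real.one_le_sqrt]
      exact one_le_pow₀ (by norm_num)
    gcongr
  have h3 : √((2 : ℝ) ^ (k - A)) / (√k * n) ≤ T := by
    have e1 : √((2 : ℝ) ^ (k - A)) = √(2 ^ k) / √(2 ^ A) := by
      rw [← Real.sqrt_div' _ (by positivity)]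
      congr 1
      rw [eq_div_iff (by positivity), ← pow_add]
      congr 1
      omega
    have h4 : √((2 : ℝ) ^ k) ≤ √n := by
      apply Real.sqrt_le_sqrt
      exact_mod_cast hkn
    have e2 : T = √n / √(2 ^ A) / (√k * n) := by
      rw [hT]
      have : (n : ℝ) = √n * √n := (Real.mul_self_sqrt hn0.le).symm
      conv_rhs => rw [this]
      rw [Real.sqrt_mul_self (Real.sqrt_nonneg _)]
      have hsn : 0 < √(n : ℝ) := Real.sqrt_pos.mpr hn0
      field_simp
    rw [e1, e2]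
    gcongr
  have hM1 : T ≤ (1 + M) * T := by nlinarith
  have hfin1 : a ^ 2 ≤ C0 * ((1 + M) * T) := by
    rw [ea, div_eq_mul_one_div]
    exact mul_le_mul_of_nonneg_left ((h2.trans h1).trans hM1) hC00
  have hfin2 : b ^ 2 ≤ C1 * gcst ^ 2 * ((1 + M) * T) := by
    have : b ^ 2 = C1 * gcst ^ 2 * (√(2 ^ p0) / n) := by rw [eb]; ring
    rw [this]
    exact mul_le_mul_of_nonneg_left (h1.trans hM1) (by positivity)
  have hfin3 : c ^ 2 ≤ 6 * C2 * gcst ^ 2 * ((1 + M) * T) := by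
    have : c ^ 2 = 6 * C2 * gcst ^ 2 * ((1 + M) * (√(2 ^ (k - A)) / (√k * n))) := by
      rw [ec]; ring
    rw [this]
    refine mul_le_mul_of_nonneg_left (mul_le_mul_of_nonneg_left h3 (by linarith)) (by positivity)
  have hfin : 3 * (C0 + C1 * gcst ^ 2 + 6 * C2 * gcst ^ 2) * (1 + M) / √(2 ^ A) / (√n * √k) =
      3 * (C0 + C1 * gcst ^ 2 + 6 * C2 * gcst ^ 2) * ((1 + M) * T) := by
    rw [hT]
    ring
  rw [hfin]
  linarith

end Pool.Agent.helper95.GMC
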