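import Mathlib

set_option autoImplicit false
set_option linter.unusedSectionVars false

open Finset
open scoped Pointwise

namespace Pool.Agent.helper24

variable {G : Type*} [AddCommGroup G] [Fintype G] [DecidableEq G]

/-- Submodularity of `X ↦ X + B`. -/
lemma card_add_inter_union (X Y B : Finset G) :
    #((X ∩ Y) + B) + #((X ∪ Y) + B) ≤ #(X + B) + #(Y + B) := by
  have h1 : (X ∩ Y) + B ⊆ (X + B) ∩ (Y + B) := Finset.inter_add_subset
  have h2 : (X ∪ Y) + B = (X + B) ∪ (Y + B) := Finset.union_add
  rw [h2]
  have := Finset.card_le_card h1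
  have h3 := Finset.card_inter_add_card_union (X + B) (Y + B)
  omega

lemma subset_add_of_zero_mem {B : Finset G} (h0 : (0 : G) ∈ B) (X : Finset G) : X ⊆ X + B := by
  intro x hx
  rw [Finset.mem_add]
  exact ⟨x, hx, 0, h0, add_zero x⟩

/-- The isoperimetric theorem for a symmetric set `B` containing `0` in a finite abelian group:
the minimum of `#(X + B) - #X` over nonempty `X` with `X + B ≠ univ` is attained by a subgroup. -/
theorem exists_addSubgroup_isoperimetric (B : Finset G) (h0 : (0 : G) ∈ B)
    (hneg : ∀ x ∈ B, -x ∈ B) (hB : B ≠ univ) :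
    ∃ H : AddSubgroup G, ∃ HF : Finset G, (∀ x, x ∈ HF ↔ x ∈ H) ∧ HF + B ≠ univ ∧
      ∀ X : Finset G, X.Nonempty → X + B ≠ univ → #X + #(HF + B) ≤ #(X + B) + #HF := by
  classical
  set S : Finset (Finset G) := univ.filter (fun X : Finset G => X.Nonempty ∧ X + B ≠ univ) with hS
  have hmemS : ∀ X : Finset G, X ∈ S ↔ X.Nonempty ∧ X + B ≠ univ := by
    intro X; simp [hS]
  have hSne : S.Nonempty := by
    refine ⟨{0}, ?_⟩
    rw [hmemS]
    refine ⟨Finset.singleton_nonempty _, ?_⟩
    rwa [Finset.singleton_zero, zero_add]
  set f : Finset G → ℕ := fun X => (#(X + B) - #X) * (Fintype.card G + 1) + #X with hf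
  obtain ⟨A, hAS, hAmin⟩ := Finset.exists_min_image S f hSne
  have hcard : ∀ X : Finset G, #X ≤ Fintype.card G := fun X => Finset.card_le_univ X
  have hle : ∀ X : Finset G, #X ≤ #(X + B) := fun X =>
    Finset.card_le_card (subset_add_of_zero_mem h0 X)
  have hkappa : ∀ X ∈ S, #(A + B) - #A ≤ #(X + B) - #X := by
    intro X hX
    by_contra hcon
    push Not at hcon
    have h1 := hAmin X hX
    simp only [hf] at h1
    have h2 : (#(X + B) - #X + 1) * (Fintype.card G + 1) ≤
        (#(A + B) - #A) * (Fintype.card G + 1) := Nat.mul_le_mul_right _ hcon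
    have h3 := hcard X
    nlinarith
  have hmin : ∀ X ∈ S, #(X + B) - #X ≤ #(A + B) - #A → #A ≤ #X := by
    intro X hX hk
    have h0' := hkappa X hX
    have heq : #(X + B) - #X = #(A + B) - #A := le_antisymm hk h0'
    have h1 := hAmin X hX
    simp only [hf, heq] at h1
    omega
  -- the intersection property
  have hinter : ∀ F ∈ S, #(F + B) - #F ≤ #(A + B) - #A → (A ∩ F).Nonempty → A ⊆ F := by
    intro F hF hkF hAF
    obtain ⟨hAne, hAun⟩ := (hmemS A).1 hAS
    obtain ⟨hFne, hFun⟩ := (hmemS F).1 hF
    have hAFS : A ∩ F ∈ S := by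
      rw [hmemS]
      refine ⟨hAF, ?_⟩
      intro h
      apply hAun
      apply Finset.eq_univ_of_forall
      intro x
      have : x ∈ (A ∩ F) + B := by rw [h]; exact Finset.mem_univ x
      exact Finset.add_subset_add_right Finset.inter_subset_left this
    have hk1 := hkappa _ hAFS
    have hsub := card_add_inter_union A F B
    have hu := Finset.card_union_add_card_inter A F
    have e1 := hle A
    have e2 := hle F
    have e3 := hle (A ∩ F)
    have e4 := hle (A ∪ F)
    have hposAF : 0 < #(A ∩ F) := Finset.card_pos.2 hAF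
    by_cases hun : (A ∪ F) + B = univ
    · exfalso
      -- the dual fragment
      set Fs : Finset G := (F + B)ᶜ with hFs
      have hFsne : Fs.Nonempty := by
        rw [hFs]
        by_contra hcon
        rw [Finset.not_nonempty_iff_eq_empty, Finset.compl_eq_empty_iff] at hcon
        exact hFun hcon
      have hdisj : Fs + B ⊆ Fᶜ := by
        intro y hy
        rw [Finset.mem_add] at hy
        obtain ⟨u, hu, b, hb, rfl⟩ := hy
        rw [Finset.mem_compl]
        intro hmem
        rw [hFs, Finset.mem_compl] at hu
        apply hu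
        rw [Finset.mem_add]
        exact ⟨u + b, hmem, -b, hneg b hb, by abel⟩
      have hcFs : #(Fs + B) ≤ Fintype.card G - #F := by
        have := Finset.card_le_card hdisj
        rwa [Finset.card_compl] at this
      have hcFs' : #Fs = Fintype.card G - #(F + B) := by
        rw [hFs, Finset.card_compl]
      have hFsS : Fs ∈ S := by
        rw [hmemS]
        refine ⟨hFsne, ?_⟩
        intro h
        rw [h] at hdisj
        obtain ⟨x, hx⟩ := hFne
        have := hdisj (Finset.mem_univ x)
        rw [Finset.mem_compl] at this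
        exact this hx
      have hc1 := hcard F
      have hc2 := hcard (F + B)
      have hsz := hmin Fs hFsS (by omega)
      have hun' : #((A ∪ F) + B) = Fintype.card G := by rw [hun, Finset.card_univ]
      have hFspos : 0 < #Fs := Finset.card_pos.2 hFsne
      omega
    · have hUS : A ∪ F ∈ S := by
        rw [hmemS]
        exact ⟨hAne.mono Finset.subset_union_left, hun⟩
      have hk2 := hkappa _ hUS
      have hsz := hmin (A ∩ F) hAFS (by omega)
      have : A ∩ F = A := Finset.eq_of_subset_of_card_le Finset.inter_subset_left hsz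
      rw [← this]
      exact Finset.inter_subset_right
  -- translation
  have htrans : ∀ (X : Finset G) (g : G), (X + {g}) + B = (X + B) + {g} := by
    intro X g
    rw [add_assoc, add_comm {g} B, ← add_assoc]
  have hctrans : ∀ (X : Finset G) (g : G), #(X + {g}) = #X := by
    intro X g
    exact Finset.card_add_singleton X g
  have huniv : ∀ (X : Finset G) (g : G), X + {g} = univ ↔ X = univ := by
    intro X g
    constructor
    · intro h
      rw [← Finset.card_eq_iff_eq_univ] at h ⊢
      rwa [hctrans] at h
    · intro h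
      rw [← Finset.card_eq_iff_eq_univ] at h ⊢
      rwa [hctrans]
  have hStrans : ∀ (X : Finset G) (g : G), X ∈ S → X + {g} ∈ S := by
    intro X g hX
    rw [hmemS] at hX ⊢
    refine ⟨hX.1.add (Finset.singleton_nonempty g), ?_⟩
    rw [htrans]
    intro h
    exact hX.2 ((huniv _ _).1 h)
  obtain ⟨hAne, hAun⟩ := (hmemS A).1 hAS
  obtain ⟨a, ha⟩ := hAne
  -- `A' = A - a`
  set A' : Finset G := A + {-a} with hA'
  have hA'S : A' ∈ S := hStrans A (-a) hAS
  have hA'c : #A' = #A := hctrans A (-a)
  have hA'Bc : #(A' + B) = #(A + B) := by rw [hA', htrans, hctrans]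
  have hzero : (0 : G) ∈ A' := by
    rw [hA', Finset.mem_add]
    exact ⟨a, ha, -a, Finset.mem_singleton_self _, by abel⟩
  have hinter' : ∀ g : G, (A' ∩ (A' + {g})).Nonempty → A' + {g} = A' := by
    intro g hg
    -- translate by `a`
    have h1 : (A ∩ (A + {g})).Nonempty := by
      obtain ⟨x, hx⟩ := hg
      rw [Finset.mem_inter] at hx
      refine ⟨x + a, ?_⟩
      rw [Finset.mem_inter]
      constructor
      · have := hx.1
        rw [hA', Finset.mem_add] at this
        obtain ⟨y, hy, z, hz, hyz⟩ := this
        rw [Finset.mem_singleton] at hz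
        subst hz
        have : x + a = y := by rw [← hyz]; abel
        rwa [this]
      · have := hx.2
        rw [hA', Finset.mem_add] at this
        obtain ⟨y, hy, z, hz, hyz⟩ := this
        rw [Finset.mem_add] at hy
        obtain ⟨u, hu, v, hv, huv⟩ := hy
        rw [Finset.mem_singleton] at hz hv
        subst hz hv
        rw [Finset.mem_add]
        exact ⟨u, hu, z, Finset.mem_singleton_self _, by rw [← hyz, ← huv]; abel⟩
    have h2 : A ⊆ A + {g} := by
      refine hinter _ (hStrans A g hAS) ?_ h1
      rw [htrans, hctrans, hctrans]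
    have h3 : A = A + {g} := Finset.eq_of_subset_of_card_le h2 (by rw [hctrans])
    rw [hA', add_assoc, add_comm ({-a} : Finset G) {g}, ← add_assoc, ← h3]
  have hclosed : ∀ h ∈ A', A' + {h} = A' := by
    intro h hh
    apply hinter'
    refine ⟨h, ?_⟩
    rw [Finset.mem_inter]
    refine ⟨hh, ?_⟩
    rw [Finset.mem_add]
    exact ⟨0, hzero, h, Finset.mem_singleton_self _, by abel⟩
  let H : AddSubgroup G :=
    { carrier := {x | x ∈ A'}
      add_mem' := by
        intro x y hx hy
        have := hclosed y hy
        show x + y ∈ A'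
        rw [← this, Finset.mem_add]
        exact ⟨x, hx, y, Finset.mem_singleton_self _, rfl⟩
      zero_mem' := hzero
      neg_mem' := by
        intro x hx
        show -x ∈ A'
        have h1 := hclosed x hx
        have h2 : (0 : G) ∈ A' + {x} := by rw [h1]; exact hzero
        rw [Finset.mem_add] at h2
        obtain ⟨y, hy, z, hz, hyz⟩ := h2
        rw [Finset.mem_singleton] at hz
        subst hz
        have : -z = y := by
          rw [neg_eq_iff_add_eq_zero, add_comm]; exact hyz
        rwa [this] }
  refine ⟨H, A', fun x => Iff.rfl, ((hmemS A').1 hA'S).2, ?_⟩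
  intro X hX hXB
  have hXS : X ∈ S := (hmemS X).2 ⟨hX, hXB⟩
  have := hkappa X hXS
  have e1 := hle A
  have e2 := hle X
  rw [hA'c, hA'Bc]
  omega

end Pool.Agent.helper24
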