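import Pool.Agent.helper24.Iso

set_option autoImplicit false
set_option linter.unusedSectionVars false

open Finset
open scoped Pointwise

namespace Pool.Agent.helper24

universe u

section
variable {G : Type*} [AddCommGroup G] [Fintype G] [DecidableEq G]

lemma eq_zero_of_neg_eq_self (hodd : Odd (Fintype.card G)) {x : G} (hx : -x = x) : x = 0 := by
  have h2 : (2 : ℕ) • x = 0 := by
    rw [two_nsmul]
    nth_rewrite 1 [← hx]
    exact neg_add_cancel x
  have h3 : addOrderOf x ∣ 2 := addOrderOf_dvd_of_nsmul_eq_zero h2
  have h4 : addOrderOf x ∣ Fintype.card G := addOrderOf_dvd_card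
  have h5 : addOrderOf x ∣ Nat.gcd 2 (Fintype.card G) := Nat.dvd_gcd h3 h4
  have h6 : Nat.gcd 2 (Fintype.card G) = 1 := by
    exact Nat.Coprime.symm (Nat.Coprime.symm (Nat.coprime_two_left.2 hodd))
  rw [h6, Nat.dvd_one] at h5
  exact AddMonoid.addOrderOf_eq_one_iff.1 h5

lemma card_add_two_le (hodd : Odd (Fintype.card G)) {S : Finset G} (h0 : (0 : G) ∈ S)
    (hneg : ∀ x ∈ S, -x ∈ S) (hS : S ≠ univ) : #S + 2 ≤ Fintype.card G := by
  have : ∃ g, g ∉ S := by
    by_contra hcon
    push Not at hcon
    exact hS (Finset.eq_univ_of_forall hcon)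
  obtain ⟨g, hg⟩ := this
  have hg' : -g ∉ S := fun h => hg (by simpa using hneg _ h)
  have hne : g ≠ -g := by
    intro h
    have := eq_zero_of_neg_eq_self hodd h.symm
    exact hg (this ▸ h0)
  have hsub : ({g, -g} : Finset G) ⊆ Sᶜ := by
    intro x hx
    rw [Finset.mem_insert, Finset.mem_singleton] at hx
    rw [Finset.mem_compl]
    rcases hx with rfl | rfl
    · exact hg
    · exact hg'
  have h1 := Finset.card_le_card hsub
  rw [Finset.card_pair hne, Finset.card_compl] at h1
  have := Finset.card_le_univ S
  omega

lemma neg_mem_add {X Y : Finset G} (hX : ∀ x ∈ X, -x ∈ X) (hY : ∀ x ∈ Y, -x ∈ Y) :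
    ∀ x ∈ X + Y, -x ∈ X + Y := by
  intro x hx
  rw [Finset.mem_add] at hx ⊢
  obtain ⟨a, ha, b, hb, rfl⟩ := hx
  exact ⟨-a, hX a ha, -b, hY b hb, by abel⟩

/-- The union of the cosets of `H` that meet `B` has `#(B.image mk) * #H` elements. -/
lemma card_subgroup_add (H : AddSubgroup G) (HF : Finset G) (hHF : ∀ x, x ∈ HF ↔ x ∈ H)
    (B : Finset G) [DecidableEq (G ⧸ H)] :
    #(HF + B) = #(B.image (QuotientAddGroup.mk : G → G ⧸ H)) * #HF := by
  classical
  have himg : (HF + B).image (QuotientAddGroup.mk : G → G ⧸ H) =
      B.image (QuotientAddGroup.mk : G → G ⧸ H) := by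
    ext q
    simp only [Finset.mem_image, Finset.mem_add]
    constructor
    · rintro ⟨x, ⟨h, hh, b, hb, rfl⟩, rfl⟩
      refine ⟨b, hb, ?_⟩
      rw [QuotientAddGroup.eq]
      have : -b + (h + b) = h := by abel
      rw [this]
      exact (hHF h).1 hh
    · rintro ⟨b, hb, rfl⟩
      exact ⟨b, ⟨0, (hHF 0).2 H.zero_mem, b, hb, zero_add b⟩, rfl⟩
  rw [Finset.card_eq_sum_card_image (QuotientAddGroup.mk : G → G ⧸ H) (HF + B), himg]
  apply Finset.sum_const_nat
  intro q hq
  rw [Finset.mem_image] at hq
  obtain ⟨u, hu, rfl⟩ := hq
  have : (HF + B).filter (fun a => (QuotientAddGroup.mk a : G ⧸ H) = QuotientAddGroup.mk u) =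
      HF + {u} := by
    ext x
    rw [Finset.mem_filter, Finset.mem_add, Finset.mem_add]
    constructor
    · rintro ⟨_, hx⟩
      rw [QuotientAddGroup.eq] at hx
      refine ⟨x - u, ?_, u, Finset.mem_singleton_self u, by abel⟩
      rw [hHF]
      have : x - u = -(-x + u) := by abel
      rw [this]
      exact H.neg_mem hx
    · rintro ⟨h, hh, v, hv, rfl⟩
      rw [Finset.mem_singleton] at hv
      subst hv
      refine ⟨⟨h, hh, v, hu, rfl⟩, ?_⟩
      rw [QuotientAddGroup.eq]
      have : -(h + v) + v = -h := by abel
      rw [this]
      exact H.neg_mem ((hHF h).1 hh)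
  rw [this, Finset.card_add_singleton]

end

theorem three_mul_card_le_aux (N : ℕ) : ∀ (G : Type u) [AddCommGroup G] [Fintype G] [DecidableEq G],
    Fintype.card G = N → Odd (Fintype.card G) → ∀ B : Finset G, (0 : G) ∈ B →
      (∀ x ∈ B, -x ∈ B) → B + B + B ≠ univ → 3 * #B ≤ Fintype.card G := by
  induction N using Nat.strong_induction_on with
  | _ N IH =>
  intro G _ _ _ hN hodd B h0 hneg h3
  have hB2 : B + B ≠ univ := by
    intro h
    apply h3
    apply Finset.eq_univ_of_forall
    intro x
    rw [Finset.mem_add]
    exact ⟨x, by rw [h]; exact Finset.mem_univ x, 0, h0, add_zero x⟩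
  have hB1 : B ≠ univ := by
    intro h
    apply hB2
    apply Finset.eq_univ_of_forall
    intro x
    rw [Finset.mem_add]
    exact ⟨x, by rw [h]; exact Finset.mem_univ x, 0, h0, add_zero x⟩
  obtain ⟨H, HF, hHF, hHB, hiso⟩ := exists_addSubgroup_isoperimetric B h0 hneg hB1
  have hBne : B.Nonempty := ⟨0, h0⟩
  have hBBne : (B + B).Nonempty := hBne.add hBne
  have h1 := hiso B hBne hB2
  have h2 := hiso (B + B) hBBne h3
  have hneg2 := neg_mem_add hneg hneg
  have hneg3 := neg_mem_add hneg2 hneg
  have h02 : (0 : G) ∈ B + B := subset_add_of_zero_mem h0 B h0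
  have h03 : (0 : G) ∈ B + B + B := subset_add_of_zero_mem h0 _ h02
  have hpar := card_add_two_le hodd h03 hneg3 h3
  have hHFcard : #HF = Nat.card H := (Nat.subtype_card HF hHF).symm
  have hHF0 : (0 : G) ∈ HF := (hHF 0).2 H.zero_mem
  have hHpos : 0 < #HF := Finset.card_pos.2 ⟨0, hHF0⟩
  classical
  have hcardG : Fintype.card G = Fintype.card (G ⧸ H) * #HF := by
    have := AddSubgroup.card_eq_card_quotient_mul_card_addSubgroup H
    rw [Nat.card_eq_fintype_card, Nat.card_eq_fintype_card] at this
    rw [this, hHFcard]
  by_cases hH : H = ⊥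
  · -- trivial subgroup
    have hHF' : HF = {0} := by
      ext x
      rw [hHF, hH, AddSubgroup.mem_bot, Finset.mem_singleton]
    rw [hHF', Finset.singleton_zero, zero_add] at h1 h2
    rw [Finset.card_zero] at h1 h2
    omega
  · by_cases hcase : B + B + B + HF = univ
    · -- the tight case
      by_contra hcon
      push Not at hcon
      -- cardinalities
      have hd := hcardG
      set d := Fintype.card (G ⧸ H) with hdd
      have hb := card_subgroup_add H HF hHF B
      set b := #(B.image (QuotientAddGroup.mk : G → G ⧸ H)) with hbb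
      have hM : 3 * #(HF + B) ≤ Fintype.card G + 2 * #HF := by
        have : 3 * b ≤ d + 2 := by
          by_contra hc
          push Not at hc
          have hc' : d + 3 ≤ 3 * b := by omega
          have hc'' : (d + 3) * #HF ≤ (3 * b) * #HF := Nat.mul_le_mul_right _ hc'
          rw [hd] at hcon hpar
          rw [hb] at h1 h2
          nlinarith
        rw [hd, hb]
        nlinarith
      have hmiss : 3 * #((HF + B) \ B) < 2 * #HF := by
        rw [Finset.card_sdiff_of_subset]
        · omega
        · intro x hx
          rw [Finset.mem_add]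
          exact ⟨0, hHF0, x, hx, zero_add x⟩
      -- slices
      have hslice : ∀ u ∈ B, ∀ v ∈ B, u - v ∉ H →
          #HF < #(B.filter (fun x => x - u ∈ HF)) + #(B.filter (fun x => x - v ∈ HF)) := by
        intro u hu v hv huv
        set C : Finset G := (HF + {u}) ∪ (HF + {v}) with hC
        have hdisj : Disjoint (HF + {u}) (HF + {v}) := by
          rw [Finset.disjoint_left]
          intro x hx hx'
          rw [Finset.mem_add] at hx hx'
          obtain ⟨h, hh, u', hu', rfl⟩ := hx
          obtain ⟨h', hh', v', hv', he⟩ := hx'
          rw [Finset.mem_singleton] at hu' hv'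
          subst hu' hv'
          apply huv
          have : u' - v' = h' - h := by
            rw [sub_eq_sub_iff_add_eq_add, add_comm u' h, ← he]
          rw [this]
          exact H.sub_mem ((hHF _).1 hh') ((hHF _).1 hh)
        have hCcard : #C = 2 * #HF := by
          rw [hC, Finset.card_union_of_disjoint hdisj, Finset.card_add_singleton,
            Finset.card_add_singleton]
          ring
        have hCsub : C ⊆ HF + B := by
          intro x hx
          rw [hC, Finset.mem_union, Finset.mem_add, Finset.mem_add] at hx
          rw [Finset.mem_add]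
          rcases hx with ⟨h, hh, u', hu', rfl⟩ | ⟨h, hh, u', hu', rfl⟩
          · rw [Finset.mem_singleton] at hu'
            exact ⟨h, hh, u', hu' ▸ hu, rfl⟩
          · rw [Finset.mem_singleton] at hu'
            exact ⟨h, hh, u', hu' ▸ hv, rfl⟩
        have hCB : C ∩ B ⊆ B.filter (fun x => x - u ∈ HF) ∪ B.filter (fun x => x - v ∈ HF) := by
          intro x hx
          rw [Finset.mem_inter, hC, Finset.mem_union, Finset.mem_add, Finset.mem_add] at hx
          rw [Finset.mem_union, Finset.mem_filter, Finset.mem_filter]
          obtain ⟨hx, hxB⟩ := hx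
          rcases hx with ⟨h, hh, u', hu', rfl⟩ | ⟨h, hh, u', hu', rfl⟩
          · rw [Finset.mem_singleton] at hu'
            subst hu'
            left
            exact ⟨hxB, by simpa using hh⟩
          · rw [Finset.mem_singleton] at hu'
            subst hu'
            right
            exact ⟨hxB, by simpa using hh⟩
        have e1 := Finset.card_le_card hCB
        have e2 := Finset.card_union_le (B.filter (fun x => x - u ∈ HF))
          (B.filter (fun x => x - v ∈ HF))
        have e3 : #(C \ B) ≤ #((HF + B) \ B) :=
          Finset.card_le_card (Finset.sdiff_subset_sdiff hCsub (Finset.Subset.refl B))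
        have e4 := Finset.card_sdiff_add_card_inter C B
        omega
      have hpig : ∀ u v : G, #HF < #(B.filter (fun x => x - u ∈ HF)) + #(B.filter (fun x => x - v ∈ HF)) →
          ∀ w : G, w - (u + v) ∈ HF → w ∈ B + B := by
        intro u v huv w hw
        set Bu := B.filter (fun x => x - u ∈ HF) with hBu
        set Bv := B.filter (fun x => x - v ∈ HF) with hBv
        have hinj : Function.Injective (fun x : G => w - x) := fun a c hac => by
          simpa using hac
        have hsub1 : Bu.image (fun x => w - x) ⊆ HF + {v} := by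
          intro y hy
          rw [Finset.mem_image] at hy
          obtain ⟨x, hx, rfl⟩ := hy
          rw [hBu, Finset.mem_filter] at hx
          rw [Finset.mem_add]
          refine ⟨w - (u + v) - (x - u), ?_, v, Finset.mem_singleton_self v, by abel⟩
          rw [hHF]
          exact H.sub_mem ((hHF _).1 hw) ((hHF _).1 hx.2)
        have hsub2 : Bv ⊆ HF + {v} := by
          intro x hx
          rw [hBv, Finset.mem_filter] at hx
          rw [Finset.mem_add]
          exact ⟨x - v, hx.2, v, Finset.mem_singleton_self v, by abel⟩
        have hne : (Bu.image (fun x => w - x) ∩ Bv).Nonempty := by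
          rw [← Finset.card_pos]
          have e1 := Finset.card_union_add_card_inter (Bu.image (fun x => w - x)) Bv
          have e2 := Finset.card_le_card (Finset.union_subset hsub1 hsub2)
          rw [Finset.card_add_singleton] at e2
          rw [Finset.card_image_of_injective _ hinj] at e1
          omega
        obtain ⟨y, hy⟩ := hne
        rw [Finset.mem_inter, Finset.mem_image] at hy
        obtain ⟨⟨x, hx, rfl⟩, hy⟩ := hy
        rw [hBu, Finset.mem_filter] at hx
        rw [hBv, Finset.mem_filter] at hy
        rw [Finset.mem_add]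
        exact ⟨x, hx.1, w - x, hy.1, by abel⟩
      obtain ⟨g, hg⟩ : ∃ g, g ∉ B + B + B := by
        by_contra hcon
        push Not at hcon
        exact h3 (Finset.eq_univ_of_forall hcon)
      have hK : ∀ x ∈ B, ∀ y ∈ B, ∀ z ∈ B, x - y ∉ H → g - (x + y + z) ∉ HF := by
        intro x hx y hy z hz hxy hgz
        apply hg
        rw [Finset.mem_add]
        refine ⟨g - z, ?_, z, hz, by abel⟩
        apply hpig x y (hslice x hx y hy hxy)
        have : g - z - (x + y) = g - (x + y + z) := by abel
        rwa [this]
      have htwo : ∀ x : G, x + x ∈ H → x ∈ H := by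
        intro x hx
        obtain ⟨k, hk⟩ := hodd
        have h1 : (Fintype.card G) • x = 0 := card_nsmul_eq_zero
        have h2 : x = -(k • (x + x)) := by
          rw [hk, add_nsmul, one_nsmul, mul_nsmul, two_nsmul] at h1
          rw [eq_neg_iff_add_eq_zero, add_comm]
          convert h1 using 2
        rw [h2]
        exact H.neg_mem (H.nsmul_mem hx k)
      have hgc : g ∈ B + B + B + HF := by rw [hcase]; exact Finset.mem_univ g
      rw [Finset.mem_add] at hgc
      obtain ⟨s, hs, h, hh, hsh⟩ := hgc
      rw [Finset.mem_add] at hs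
      obtain ⟨t, ht, z, hz, htz⟩ := hs
      rw [Finset.mem_add] at ht
      obtain ⟨x, hx, y, hy, hxy⟩ := ht
      have hgxyz : g - (x + y + z) ∈ HF := by
        rw [← hsh, ← htz, ← hxy]
        simpa using hh
      have hxyH : x - y ∈ H := by
        by_contra hcon
        exact hK x hx y hy z hz hcon hgxyz
      have hyzH : y - z ∈ H := by
        by_contra hcon
        apply hK y hy z hz x hx hcon
        have : g - (y + z + x) = g - (x + y + z) := by abel
        rwa [this]
      by_cases hxH : x ∈ H
      · -- all of `x, y, z, g` are in `H`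
        have hyH : y ∈ H := by
          have : y = x - (x - y) := by abel
          rw [this]
          exact H.sub_mem hxH hxyH
        have hzH : z ∈ H := by
          have : z = y - (y - z) := by abel
          rw [this]
          exact H.sub_mem hyH hyzH
        have hgH : g ∈ H := by
          have : g = (g - (x + y + z)) + (x + y + z) := by abel
          rw [this]
          exact H.add_mem ((hHF _).1 hgxyz) (H.add_mem (H.add_mem hxH hyH) hzH)
        have hBH : ∀ u ∈ B, u ∈ H := by
          intro u hu
          by_contra hcon
          apply hK u hu (-u) (hneg u hu) 0 h0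
          · rw [sub_neg_eq_add]
            exact fun h => hcon (htwo u h)
          · rw [hHF]
            have : g - (u + -u + 0) = g := by abel
            rwa [this]
        apply hHB
        apply Finset.eq_univ_of_forall
        intro w
        rw [Finset.mem_add]
        refine ⟨w, ?_, 0, h0, add_zero w⟩
        have hw : w ∈ B + B + B + HF := by rw [hcase]; exact Finset.mem_univ w
        rw [Finset.mem_add] at hw
        obtain ⟨s, hs, h', hh', rfl⟩ := hw
        rw [Finset.mem_add] at hs
        obtain ⟨t, ht, z', hz', rfl⟩ := hs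
        rw [Finset.mem_add] at ht
        obtain ⟨x', hx', y', hy', rfl⟩ := ht
        rw [hHF]
        exact H.add_mem (H.add_mem (H.add_mem (hBH _ hx') (hBH _ hy')) (hBH _ hz'))
          ((hHF _).1 hh')
      · -- the slice at `x` is larger than half
        have hxx : x - -x ∉ H := by
          rw [sub_neg_eq_add]
          exact fun h => hxH (htwo x h)
        have e1 := hslice x hx (-x) (hneg x hx) hxx
        have e2 : #(B.filter (fun w => w - -x ∈ HF)) = #(B.filter (fun w => w - x ∈ HF)) := by
          apply Finset.card_bij (fun w _ => -w)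
          · intro w hw
            rw [Finset.mem_filter] at hw ⊢
            refine ⟨hneg w hw.1, ?_⟩
            have : -w - x = -(w - -x) := by abel
            rw [this, hHF]
            exact H.neg_mem ((hHF _).1 hw.2)
          · intro a _ c _ hac
            exact neg_injective hac
          · intro w hw
            rw [Finset.mem_filter] at hw
            refine ⟨-w, ?_, neg_neg w⟩
            rw [Finset.mem_filter]
            refine ⟨hneg w hw.1, ?_⟩
            have : -w - -x = -(w - x) := by abel
            rw [this, hHF]
            exact H.neg_mem ((hHF _).1 hw.2)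
        rw [e2] at e1
        apply hg
        rw [Finset.mem_add]
        refine ⟨g - z, ?_, z, hz, by abel⟩
        apply hpig x x e1
        rw [hHF]
        have : g - z - (x + x) = (g - (x + y + z)) - (x - y) := by abel
        rw [this]
        exact H.sub_mem ((hHF _).1 hgxyz) hxyH
    · -- pass to the quotient
      set B' : Finset (G ⧸ H) := B.image (QuotientAddGroup.mk : G → G ⧸ H) with hB'
      have hlt : Fintype.card (G ⧸ H) < N := by
        have h1 : 1 < #HF := by
          rw [Finset.one_lt_card]
          rw [← ne_eq, AddSubgroup.ne_bot_iff_exists_ne_zero] at hH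
          obtain ⟨a, ha⟩ := hH
          refine ⟨0, hHF0, a, (hHF _).2 a.2, ?_⟩
          intro h
          apply ha
          ext
          exact h.symm
        have h2 : 0 < Fintype.card (G ⧸ H) := Fintype.card_pos
        rw [← hN, hcardG]
        nlinarith
      have hoddQ : Odd (Fintype.card (G ⧸ H)) := by
        rw [hcardG] at hodd
        exact (Nat.odd_mul.1 hodd).1
      have h0' : (0 : G ⧸ H) ∈ B' := by
        rw [hB', Finset.mem_image]
        exact ⟨0, h0, rfl⟩
      have hneg' : ∀ x ∈ B', -x ∈ B' := by
        intro x hx
        rw [hB', Finset.mem_image] at hx ⊢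
        obtain ⟨y, hy, rfl⟩ := hx
        exact ⟨-y, hneg y hy, rfl⟩
      have h3' : B' + B' + B' ≠ univ := by
        intro h
        apply hcase
        apply Finset.eq_univ_of_forall
        intro x
        have hx : (QuotientAddGroup.mk x : G ⧸ H) ∈ B' + B' + B' := by rw [h]; exact Finset.mem_univ _
        rw [Finset.mem_add] at hx
        obtain ⟨y, hy, z, hz, hyz⟩ := hx
        rw [Finset.mem_add] at hy
        obtain ⟨a, ha, c, hc, hac⟩ := hy
        rw [hB', Finset.mem_image] at ha hc hz
        obtain ⟨a, ha, rfl⟩ := ha
        obtain ⟨c, hc, rfl⟩ := hc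
        obtain ⟨e, he, rfl⟩ := hz
        rw [← hac] at hyz
        have hyz' : (QuotientAddGroup.mk (a + c + e) : G ⧸ H) = QuotientAddGroup.mk x := hyz
        rw [QuotientAddGroup.eq] at hyz'
        rw [Finset.mem_add]
        refine ⟨a + c + e, ?_, -(a + c + e) + x, (hHF _).2 hyz', by abel⟩
        exact Finset.add_mem_add (Finset.add_mem_add ha hc) he
      have := IH _ hlt (G ⧸ H) rfl hoddQ B' h0' hneg' h3'
      have hb := card_subgroup_add H HF hHF B
      have hle : #B ≤ #(HF + B) := by
        rw [add_comm]
        exact Finset.card_le_card (subset_add_of_zero_mem hHF0 B)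
      rw [hcardG]
      calc 3 * #B ≤ 3 * #(HF + B) := by omega
        _ = (3 * #B') * #HF := by rw [hb]; ring
        _ ≤ Fintype.card (G ⧸ H) * #HF := Nat.mul_le_mul_right _ this

/-- If `B` is a symmetric subset containing `0` of a finite abelian group `G` of odd order and
`B + B + B ≠ G`, then `3 * #B ≤ #G`. -/
theorem three_mul_card_le {G : Type u} [AddCommGroup G] [Fintype G] [DecidableEq G]
    (hodd : Odd (Fintype.card G)) (B : Finset G) (h0 : (0 : G) ∈ B)
    (hneg : ∀ x ∈ B, -x ∈ B) (h3 : B + B + B ≠ univ) : 3 * #B ≤ Fintype.card G :=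
  three_mul_card_le_aux _ G rfl hodd B h0 hneg h3

end Pool.Agent.helper24
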