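import Mathlib

/-!
# Varchenko-Gelfand algebras of real central arrangements: definitions and general lemmas
-/

set_option autoImplicit false

open scoped Pointwise

namespace Pool.Agent.helper24.VG

/-- A real central arrangement of `n` (distinct, linear) hyperplanes in `ℝ^ℓ`, given by fixed
linear forms: the `i`-th hyperplane is the kernel of `form i`. -/
structure CentralArrangement (ℓ n : ℕ) where
  form : Fin n → Module.Dual ℝ (Fin ℓ → ℝ)
  form_ne_zero : ∀ i, form i ≠ 0
  ker_injective : Function.Injective fun i => LinearMap.ker (form i)

namespace CentralArrangement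

variable {ℓ n : ℕ} (A : CentralArrangement ℓ n)

/-- The complement of the union of the hyperplanes. -/
def complement : Set (Fin ℓ → ℝ) := {x | ∀ i, A.form i x ≠ 0}

/-- The chambers of `A`: the connected components of the complement. -/
abbrev Chamber : Type := ConnectedComponents A.complement

/-- The Varchenko-Gelfand algebra: all functions from the chambers to `R`, with pointwise
operations. -/
abbrev VG (R : Type*) : Type _ := A.Chamber → R

open Classical in
/-- The Heaviside function `x_i^+`: it is `1` on the chambers where `form i > 0` and `0` on the
chambers where `form i < 0`. -/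
noncomputable def heaviside (R : Type*) [Zero R] [One R] (i : Fin n) : A.VG R := fun C =>
  if ∃ x : A.complement, (x : A.Chamber) = C ∧ 0 < A.form i x then 1 else 0

/-- The degree filtration: `F^k` is the `R`-span of all products of at most `k` Heaviside
functions. -/
noncomputable def filtration (R : Type*) [CommRing R] (k : ℕ) : Submodule R (A.VG R) :=
  Submodule.span R {f | ∃ s : Multiset (Fin n), s.card ≤ k ∧ (s.map (A.heaviside R)).prod = f}

/-- The covectors of the oriented matroid of `A`: all sign vectors
`(sign (form i x))_i`, `x ∈ ℝ^ℓ`. -/
def covectors : Set (Fin n → SignType) :=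
  Set.range fun (x : Fin ℓ → ℝ) (i : Fin n) => SignType.sign (A.form i x)

end CentralArrangement

open CentralArrangement

/-- The filtered `R`-algebras `VG(A)_R` and `VG(B)_R` are isomorphic. -/
def FilteredVGIso (R : Type*) [CommRing R] {ℓ n ℓ' n' : ℕ} (A : CentralArrangement ℓ n)
    (B : CentralArrangement ℓ' n') : Prop :=
  ∃ φ : A.VG R ≃ₐ[R] B.VG R, ∀ k, (A.filtration R k).map φ.toLinearMap = B.filtration R k

/-- The oriented matroids of `A` and `B` are isomorphic: they agree after a permutation of the
ground set and a reorientation (sign change of some elements). -/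
def OMIso {ℓ n ℓ' n' : ℕ} (A : CentralArrangement ℓ n) (B : CentralArrangement ℓ' n') : Prop :=
  ∃ π : Fin n' ≃ Fin n, ∃ ε : Fin n' → SignType, (∀ j, ε j ≠ 0) ∧
    B.covectors = (fun (σ : Fin n → SignType) (j : Fin n') => ε j * σ (π j)) '' A.covectors

/-! ### General lemmas -/

namespace CentralArrangement

variable {ℓ n : ℕ} (A : CentralArrangement ℓ n)

/-- The sign vector of a point of the complement (`true` = positive). -/
noncomputable def bsign (x : A.complement) : Fin n → Bool := fun i => decide (0 < A.form i x)

lemma continuous_form (i : Fin n) : Continuous fun x : Fin ℓ → ℝ => A.form i x :=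
  LinearMap.continuous_of_finiteDimensional (A.form i)

lemma continuous_bsign (i : Fin n) : Continuous fun x : A.complement => A.bsign x i := by
  have hc : Continuous fun x : A.complement => A.form i x :=
    (A.continuous_form i).comp continuous_subtype_val
  rw [continuous_bool_rng true]
  have h1 : (fun x : A.complement => A.bsign x i) ⁻¹' {true} =
      {x : A.complement | 0 < A.form i x} := by
    ext x; simp [bsign]
  have h2 : {x : A.complement | 0 < A.form i x} = {x : A.complement | 0 ≤ A.form i x} := by
    ext x
    constructor
    · intro (h : 0 < A.form i x); exact (le_of_lt h : 0 ≤ A.form i x)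
    · intro (h : 0 ≤ A.form i x); exact (lt_of_le_of_ne h (Ne.symm (x.2 i)) : 0 < A.form i x)
  rw [h1]
  constructor
  · rw [h2]
    exact isClosed_le continuous_const hc
  · exact isOpen_lt continuous_const hc

lemma mk_eq_mk_iff (x y : A.complement) :
    ((x : A.Chamber) = (y : A.Chamber)) ↔ A.bsign x = A.bsign y := by
  rw [ConnectedComponents.coe_eq_coe]
  constructor
  · intro h
    funext i
    have hpre : IsPreconnected (connectedComponent x) := isPreconnected_connectedComponent
    have hy : y ∈ connectedComponent x := by rw [h]; exact mem_connectedComponent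
    exact hpre.constant (A.continuous_bsign i).continuousOn mem_connectedComponent hy
  · intro h
    -- the set of points with the same sign vector is preconnected
    set S : Set A.complement := {z | A.bsign z = A.bsign x} with hS
    set C : Set (Fin ℓ → ℝ) :=
      {z | ∀ i, if A.bsign x i = true then 0 < A.form i z else A.form i z < 0} with hC
    have himg : Subtype.val '' S = C := by
      ext z
      simp only [hS, hC, Set.mem_image, Set.mem_ofPred_eq]
      constructor
      · rintro ⟨w, hw, rfl⟩ i
        rw [← hw]
        by_cases hp : 0 < A.form i w
        · simp [bsign, hp]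
        · have : A.form i w < 0 := lt_of_le_of_ne (not_lt.1 hp) (w.2 i)
          simp [bsign, hp, this]
      · intro hz
        have hzc : z ∈ A.complement := by
          intro i
          have := hz i
          split_ifs at this with h1
          · exact ne_of_gt this
          · exact ne_of_lt this
        refine ⟨⟨z, hzc⟩, ?_, rfl⟩
        funext i
        have := hz i
        by_cases hb : A.bsign x i = true
        · rw [hb]
          rw [if_pos hb] at this
          simp [bsign, this]
        · rw [if_neg hb] at this
          rw [Bool.not_eq_true] at hb
          rw [hb]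
          simp [bsign, le_of_lt this]
    have hconv : Convex ℝ C := by
      intro z hz w hw a b ha hb hab i
      have h1 := hz i
      have h2 := hw i
      split_ifs at h1 h2 ⊢ with hb'
      · simp only [map_add, map_smul, smul_eq_mul]
        rcases eq_or_lt_of_le ha with rfl | ha'
        · have : b = 1 := by linarith
          subst this; simpa using h2
        · have := mul_pos ha' h1
          have := mul_nonneg hb h2.le
          linarith
      · simp only [map_add, map_smul, smul_eq_mul]
        rcases eq_or_lt_of_le ha with rfl | ha'
        · have : b = 1 := by linarith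
          subst this; simpa using h2
        · have := mul_neg_of_pos_of_neg ha' h1
          have := mul_nonpos_of_nonneg_of_nonpos hb h2.le
          linarith
    have hpre : IsPreconnected S := by
      rw [← Topology.IsInducing.subtypeVal.isPreconnected_image, himg]
      exact hconv.isPreconnected
    have hx : x ∈ S := rfl
    have hy : y ∈ S := h.symm
    exact (connectedComponent_eq (hpre.subset_connectedComponent hx hy))

/-- The sign vector of a chamber. -/
noncomputable def signMap (C : A.Chamber) : Fin n → Bool :=
  A.bsign (Classical.choose (ConnectedComponents.surjective_coe C))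

lemma signMap_mk (x : A.complement) : A.signMap (x : A.Chamber) = A.bsign x := by
  unfold signMap
  rw [← A.mk_eq_mk_iff]
  exact Classical.choose_spec (ConnectedComponents.surjective_coe (x : A.Chamber))

lemma signMap_injective : Function.Injective A.signMap := by
  intro C D h
  obtain ⟨x, rfl⟩ := ConnectedComponents.surjective_coe C
  obtain ⟨y, rfl⟩ := ConnectedComponents.surjective_coe D
  rw [A.signMap_mk, A.signMap_mk] at h
  exact (A.mk_eq_mk_iff x y).2 h

lemma heaviside_apply (R : Type*) [Zero R] [One R] (i : Fin n) (C : A.Chamber) :
    A.heaviside R i C = if A.signMap C i then 1 else 0 := by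
  unfold heaviside
  have : (∃ x : A.complement, (x : A.Chamber) = C ∧ 0 < A.form i x) ↔ A.signMap C i = true := by
    constructor
    · rintro ⟨x, rfl, hx⟩
      rw [A.signMap_mk]
      simp [bsign, hx]
    · intro h
      obtain ⟨x, rfl⟩ := ConnectedComponents.surjective_coe C
      rw [A.signMap_mk] at h
      refine ⟨x, rfl, ?_⟩
      simpa [bsign] using h
  by_cases h : A.signMap C i = true
  · rw [if_pos (this.2 h), if_pos h]
  · rw [if_neg (fun h' => h (this.1 h')), if_neg h]

/-- A sign vector is a tope if it is the sign vector of a point of the complement. -/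
def IsTope (s : Fin n → Bool) : Prop := ∃ x : A.complement, A.bsign x = s

lemma isTope_signMap (C : A.Chamber) : A.IsTope (A.signMap C) := by
  obtain ⟨x, rfl⟩ := ConnectedComponents.surjective_coe C
  exact ⟨x, (A.signMap_mk x).symm⟩

/-- The chamber with a given sign vector. -/
lemma exists_chamber {s : Fin n → Bool} (hs : A.IsTope s) : ∃ C : A.Chamber, A.signMap C = s := by
  obtain ⟨x, rfl⟩ := hs
  exact ⟨x, A.signMap_mk x⟩

/-- The module spanned by `1` and the Heaviside functions. -/
noncomputable def base (R : Type*) [CommRing R] : Submodule R (A.VG R) :=
  Submodule.span R (insert 1 (Set.range (A.heaviside R)))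

lemma prod_set_eq (R : Type*) [CommRing R] (k : ℕ) :
    {f : A.VG R | ∃ s : Multiset (Fin n), s.card ≤ k ∧ (s.map (A.heaviside R)).prod = f} =
      (insert 1 (Set.range (A.heaviside R))) ^ k := by
  induction k with
  | zero =>
    rw [pow_zero]
    ext f
    simp only [Set.mem_ofPred_eq, Set.mem_one]
    constructor
    · rintro ⟨s, hs, rfl⟩
      have : s = 0 := Multiset.card_eq_zero.1 (Nat.le_zero.1 hs)
      subst this
      simp
    · rintro rfl
      exact ⟨0, by simp, by simp⟩
  | succ k ih =>
    rw [pow_succ, ← ih]
    ext f
    rw [Set.mem_mul]
    constructor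
    · rintro ⟨s, hs, rfl⟩
      rcases Multiset.empty_or_exists_mem s with rfl | ⟨a, ha⟩
      · exact ⟨1, ⟨0, by simp, by simp⟩, 1, Set.mem_insert _ _, by simp⟩
      · obtain ⟨t, rfl⟩ := Multiset.exists_cons_of_mem ha
        refine ⟨(t.map (A.heaviside R)).prod, ⟨t, ?_, rfl⟩, A.heaviside R a,
          Set.mem_insert_of_mem _ ⟨a, rfl⟩, ?_⟩
        · rw [Multiset.card_cons] at hs; omega
        · rw [Multiset.map_cons, Multiset.prod_cons, mul_comm]
    · rintro ⟨g, ⟨s, hs, rfl⟩, u, hu, rfl⟩
      rcases hu with rfl | ⟨a, rfl⟩
      · exact ⟨s, by omega, by rw [mul_one]⟩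
      · refine ⟨a ::ₘ s, by rw [Multiset.card_cons]; omega, ?_⟩
        rw [Multiset.map_cons, Multiset.prod_cons, mul_comm]

lemma filtration_eq (R : Type*) [CommRing R] (k : ℕ) :
    A.filtration R k = (A.base R) ^ k := by
  unfold filtration base
  rw [A.prod_set_eq R k, Submodule.span_pow]

end CentralArrangement

open CentralArrangement

/-- The algebra isomorphism induced by a bijection of the chambers. -/
noncomputable def pullback (R : Type*) [CommRing R] {ℓ n ℓ' n' : ℕ} {A : CentralArrangement ℓ n}
    {B : CentralArrangement ℓ' n'} (e : A.Chamber ≃ B.Chamber) : A.VG R ≃ₐ[R] B.VG R where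
  toFun f := f ∘ e.symm
  invFun g := g ∘ e
  left_inv f := by funext C; simp
  right_inv g := by funext C; simp
  map_mul' f g := rfl
  map_add' f g := rfl
  commutes' r := rfl

lemma indicator_xor {R : Type*} [CommRing R] [CharP R 2] (a b : Bool) :
    ((if (xor a b) = true then 1 else 0 : R)) = (if a = true then 1 else 0) +
      (if b = true then 1 else 0) := by
  cases a <;> cases b <;> simp [CharTwo.add_self_eq_zero]

/-- A function which is an affine function over `𝔽₂` of the sign vector lies in `base`. -/
lemma mem_base_of_affine {R : Type*} [CommRing R] [CharP R 2] {ℓ n : ℕ}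
    (A : CentralArrangement ℓ n) (S : List (Fin n)) (c : Bool) :
    (fun C : A.Chamber => (if (S.foldr (fun j b => xor (A.signMap C j) b) c) = true then 1 else 0 : R))
      ∈ A.base R := by
  induction S with
  | nil =>
    cases c
    · have : (fun C : A.Chamber => (if (List.foldr (fun j b => xor (A.signMap C j) b) false
          ([] : List (Fin n))) = true then 1 else 0 : R)) = 0 := by
        funext C; simp
      rw [this]
      exact Submodule.zero_mem _
    · have : (fun C : A.Chamber => (if (List.foldr (fun j b => xor (A.signMap C j) b) true
          ([] : List (Fin n))) = true then 1 else 0 : R)) = 1 := by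
        funext C; simp
      rw [this]
      exact Submodule.subset_span (Set.mem_insert _ _)
  | cons j S ih =>
    have : (fun C : A.Chamber =>
        (if ((j :: S).foldr (fun j b => xor (A.signMap C j) b) c) = true then 1 else 0 : R)) =
        A.heaviside R j + (fun C : A.Chamber =>
          (if (S.foldr (fun j b => xor (A.signMap C j) b) c) = true then 1 else 0 : R)) := by
      funext C
      rw [Pi.add_apply, A.heaviside_apply, List.foldr_cons, indicator_xor]
    rw [this]
    exact Submodule.add_mem _ (Submodule.subset_span (Set.mem_insert_of_mem _ ⟨j, rfl⟩)) ih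

/-- If a bijection of the chambers is affine over `𝔽₂` in terms of the sign vectors, in both
directions, then it induces an isomorphism of filtered algebras over every ring of
characteristic two. -/
theorem filteredVGIso_of_affine {R : Type*} [CommRing R] [CharP R 2] {ℓ n ℓ' n' : ℕ}
    (A : CentralArrangement ℓ n) (B : CentralArrangement ℓ' n') (e : A.Chamber ≃ B.Chamber)
    (hAB : ∀ i : Fin n, ∃ (S : List (Fin n')) (c : Bool), ∀ C : B.Chamber,
      A.signMap (e.symm C) i = S.foldr (fun j b => xor (B.signMap C j) b) c)
    (hBA : ∀ j : Fin n', ∃ (S : List (Fin n)) (c : Bool), ∀ C : A.Chamber,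
      B.signMap (e C) j = S.foldr (fun i b => xor (A.signMap C i) b) c) :
    FilteredVGIso R A B := by
  refine ⟨pullback R e, ?_⟩
  intro k
  rw [A.filtration_eq R k, B.filtration_eq R k]
  have hmap : ((A.base R) ^ k).map (pullback R e).toLinearMap =
      ((A.base R).map (pullback R e).toLinearMap) ^ k := by
    exact Submodule.map_pow (A.base R) ((pullback R e : A.VG R ≃ₐ[R] B.VG R) : A.VG R →ₐ[R] B.VG R) k
  rw [hmap]
  congr 1
  apply le_antisymm
  · rw [base, Submodule.map_span, Submodule.span_le]
    rintro _ ⟨f, hf, rfl⟩
    rcases hf with rfl | ⟨i, rfl⟩
    · have : (pullback R e).toLinearMap 1 = (1 : B.VG R) := map_one (pullback R e)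
      rw [this]
      exact Submodule.subset_span (Set.mem_insert _ _)
    · obtain ⟨S, c, hS⟩ := hAB i
      have : (pullback R e).toLinearMap (A.heaviside R i) = (fun C : B.Chamber =>
          (if (S.foldr (fun j b => xor (B.signMap C j) b) c) = true then 1 else 0 : R)) := by
        funext C
        show A.heaviside R i (e.symm C) = _
        rw [A.heaviside_apply, hS]
      rw [this]
      exact mem_base_of_affine B S c
  · intro g hg
    have key : ∀ g ∈ B.base R, (pullback R e).symm g ∈ A.base R := by
      intro g hg
      unfold base at hg
      induction hg using Submodule.span_induction with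
      | mem g hg =>
        rcases hg with rfl | ⟨j, rfl⟩
        · rw [map_one]
          exact Submodule.subset_span (Set.mem_insert _ _)
        · obtain ⟨S, c, hS⟩ := hBA j
          have : (pullback R e).symm (B.heaviside R j) = (fun C : A.Chamber =>
              (if (S.foldr (fun i b => xor (A.signMap C i) b) c) = true then 1 else 0 : R)) := by
            funext C
            show B.heaviside R j (e C) = _
            rw [B.heaviside_apply, hS]
          rw [this]
          exact mem_base_of_affine A S c
      | zero => rw [map_zero]; exact Submodule.zero_mem _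
      | add x y _ _ hx hy => rw [map_add]; exact Submodule.add_mem _ hx hy
      | smul a x _ hx => rw [map_smul]; exact Submodule.smul_mem _ a hx
    exact ⟨(pullback R e).symm g, key g hg, (pullback R e).apply_symm_apply g⟩

end Pool.Agent.helper24.VG
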